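import Mathlib
import Pool.Agent.V7H27.LC.Fejer

/-! Second moment estimate: in a cell the proportion of points which avoid many short arcs. -/

namespace Pool.Agent.V7H27.SH

open Real MeasureTheory Set
open Pool.Agent.V7H27.LC

/-- The geometric sum. -/
noncomputable def Sf (H : ℕ) (z : ℝ) : ℂ := ∑ k ∈ Finset.range H, ex (k * z)

lemma norm_int_ex {c l X : ℝ} (hl : 0 ≤ l) (hX : X ≠ 0) :
    ‖∫ β in Ico c (c + l), ex (X * β)‖ ≤ 1 / |X| := by
  rw [MeasureTheory.integral_Ico_eq_integral_Ioo, ← MeasureTheory.integral_Ioc_eq_integral_Ioo,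
    ← intervalIntegral.integral_of_le (by linarith)]
  have hc : (2 * π * X : ℝ) * Complex.I ≠ 0 := by
    have : (2 * π * X : ℝ) ≠ 0 := by positivity
    simp only [ne_eq, mul_eq_zero, Complex.I_ne_zero, or_false]
    exact_mod_cast this
  have h1 : ∀ β : ℝ, ex (X * β) = Complex.exp (((2 * π * X : ℝ) * Complex.I) * β) := by
    intro β
    unfold ex
    congr 1
    push_cast
    ring
  simp only [h1]
  rw [integral_exp_mul_complex hc, norm_div]
  have h2 : ‖(2 * π * X : ℝ) * Complex.I‖ = 2 * π * |X| := by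
    rw [norm_mul, Complex.norm_I, mul_one, Complex.norm_real, Real.norm_eq_abs, abs_mul, abs_mul,
      abs_of_pos (by norm_num : (0 : ℝ) < 2), abs_of_pos Real.pi_pos]
  rw [h2]
  have h3 : ∀ β : ℝ, ‖Complex.exp (((2 * π * X : ℝ) * Complex.I) * β)‖ = 1 := by
    intro β
    rw [← h1]
    exact norm_ex _
  have h4 : ‖Complex.exp (((2 * π * X : ℝ) * Complex.I) * ((c + l : ℝ) : ℂ))
      - Complex.exp (((2 * π * X : ℝ) * Complex.I) * (c : ℂ))‖ ≤ 2 := by
    refine (norm_sub_le _ _).trans ?_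
    rw [h3, h3]
    norm_num
  have hX' : 0 < |X| := abs_pos.2 hX
  rw [div_le_div_iff₀ (by positivity) hX', one_mul]
  have h5 : 2 ≤ 2 * π := by
    have := Real.pi_gt_three
    linarith
  calc _ ≤ 2 * |X| := mul_le_mul_of_nonneg_right h4 hX'.le
    _ ≤ 2 * π * |X| := mul_le_mul_of_nonneg_right h5 hX'.le

lemma maj {z ρ : ℝ} {H : ℕ} (hz : nd z < ρ) (hH : H * (8 * ρ) ≤ 1) : (H : ℝ) / 2 ≤ ‖Sf H z‖ := by
  set u : ℝ := z - round z with hu
  have hu1 : |u| < ρ := hz
  have h1 : ∀ k : ℕ, ex (k * z) = ex (k * u) := by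
    intro k
    have : (k : ℝ) * z = k * u + ((k * round z : ℤ) : ℝ) := by
      rw [hu]; push_cast; ring
    rw [this, ex_add, ex_int, mul_one]
  have h2 : ∀ k ∈ Finset.range H, (1 : ℝ) / 2 ≤ (ex (k * z)).re := by
    intro k hk
    rw [Finset.mem_range] at hk
    rw [h1]
    have h3 : (ex (k * u)).re = Real.cos (2 * π * (k * u)) := by
      unfold ex
      rw [mul_comm Complex.I, Complex.exp_ofReal_mul_I_re]
    rw [h3]
    have h4 : |2 * π * (k * u)| ≤ 1 := by
      rw [abs_mul, abs_mul, abs_mul, abs_of_pos (by norm_num : (0 : ℝ) < 2), abs_of_pos Real.pi_pos,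
        Nat.abs_cast]
      have hk' : (k : ℝ) ≤ H := by exact_mod_cast hk.le
      have h5 : (k : ℝ) * |u| ≤ H * ρ := mul_le_mul hk' hu1.le (abs_nonneg _) (by positivity)
      have h6 : (H : ℝ) * ρ ≤ 1 / 8 := by linarith
      have h7 : π ≤ 4 := Real.pi_le_four
      have h8 : 0 ≤ (k : ℝ) * |u| := by positivity
      nlinarith [Real.pi_pos]
    have h5 := Real.one_sub_sq_div_two_le_cos (x := 2 * π * (k * u))
    have h6 : (2 * π * (k * u)) ^ 2 ≤ 1 := by
      rw [← sq_abs]
      exact pow_le_one₀ (abs_nonneg _) h4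
    linarith
  calc (H : ℝ) / 2 = ∑ k ∈ Finset.range H, (1 : ℝ) / 2 := by
        simp [Finset.sum_const]; ring
    _ ≤ ∑ k ∈ Finset.range H, (ex (k * z)).re := Finset.sum_le_sum h2
    _ = (Sf H z).re := by unfold Sf; rw [Complex.re_sum]
    _ ≤ ‖Sf H z‖ := (le_abs_self _).trans (Complex.abs_re_le_norm _)

lemma sq_Sf (H : ℕ) (z : ℝ) : ((‖Sf H z‖ ^ 2 : ℝ) : ℂ)
    = ∑ k ∈ Finset.range H, ∑ l ∈ Finset.range H, ex (((k : ℤ) - l : ℤ) * z) := by
  unfold Sf
  rw [Complex.ofReal_pow, ← Complex.mul_conj', map_sum, Finset.sum_mul_sum]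
  apply Finset.sum_congr rfl; intro k _
  apply Finset.sum_congr rfl; intro l _
  rw [conj_ex, ← ex_add]
  congr 1
  push_cast
  ring

lemma integrable_ex' {μ : Measure ℝ} [IsFiniteMeasure μ] {z : ℝ → ℝ} (hz : Measurable z) :
    Integrable (fun β => ex (z β)) μ := by
  refine Integrable.of_bound (C := 1) ?_ ?_
  · exact (measurable_ex.comp hz).aestronglyMeasurable
  · exact Filter.Eventually.of_forall (fun ω => (norm_ex _).le)

lemma two {μ : Measure ℝ} [IsFiniteMeasure μ] {z z' : ℝ → ℝ} (hz : Measurable z)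
    (hz' : Measurable z') {H H' : ℕ} {B : ℝ} (hB : 0 ≤ B)
    (h : ∀ a b : ℤ, |a| < H → |b| < H' → ¬ (a = 0 ∧ b = 0) →
      ‖∫ β, ex (a * z β + b * z' β) ∂μ‖ ≤ B) :
    ∫ β, ‖Sf H (z β)‖ ^ 2 * ‖Sf H' (z' β)‖ ^ 2 ∂μ
      ≤ H * H' * μ.real univ + (H : ℝ) ^ 2 * (H' : ℝ) ^ 2 * B := by
  have h1 : ((∫ β, ‖Sf H (z β)‖ ^ 2 * ‖Sf H' (z' β)‖ ^ 2 ∂μ : ℝ) : ℂ)
      = ∑ k ∈ Finset.range H, ∑ l ∈ Finset.range H, ∑ k' ∈ Finset.range H',
        ∑ l' ∈ Finset.range H',
          ∫ β, ex (((k : ℤ) - l : ℤ) * z β + ((k' : ℤ) - l' : ℤ) * z' β) ∂μ := by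
    rw [← integral_complex_ofReal]
    have h2 : ∀ β, ((‖Sf H (z β)‖ ^ 2 * ‖Sf H' (z' β)‖ ^ 2 : ℝ) : ℂ)
        = ∑ k ∈ Finset.range H, ∑ l ∈ Finset.range H, ∑ k' ∈ Finset.range H',
          ∑ l' ∈ Finset.range H',
            ex (((k : ℤ) - l : ℤ) * z β + ((k' : ℤ) - l' : ℤ) * z' β) := by
      intro β
      rw [Complex.ofReal_mul, sq_Sf, sq_Sf, Finset.sum_mul]
      apply Finset.sum_congr rfl; intro k _
      rw [Finset.sum_mul]
      apply Finset.sum_congr rfl; intro l _
      rw [Finset.mul_sum]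
      apply Finset.sum_congr rfl; intro k' _
      rw [Finset.mul_sum]
      apply Finset.sum_congr rfl; intro l' _
      rw [ex_add]
    simp only [h2]
    have hint : ∀ k l k' l' : ℕ, Integrable
        (fun β => ex (((k : ℤ) - l : ℤ) * z β + ((k' : ℤ) - l' : ℤ) * z' β)) μ :=
      fun k l k' l' => integrable_ex' ((hz.const_mul _).add (hz'.const_mul _))
    rw [integral_finsetSum _ (fun k _ => integrable_finsetSum _ (fun l _ =>
      integrable_finsetSum _ (fun k' _ => integrable_finsetSum _ (fun l' _ => hint k l k' l'))))]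
    apply Finset.sum_congr rfl; intro k _
    rw [integral_finsetSum _ (fun l _ =>
      integrable_finsetSum _ (fun k' _ => integrable_finsetSum _ (fun l' _ => hint k l k' l')))]
    apply Finset.sum_congr rfl; intro l _
    rw [integral_finsetSum _ (fun k' _ => integrable_finsetSum _ (fun l' _ => hint k l k' l'))]
    apply Finset.sum_congr rfl; intro k' _
    rw [integral_finsetSum _ (fun l' _ => hint k l k' l')]
  have h3 : ∫ β, ‖Sf H (z β)‖ ^ 2 * ‖Sf H' (z' β)‖ ^ 2 ∂μ
      ≤ ‖((∫ β, ‖Sf H (z β)‖ ^ 2 * ‖Sf H' (z' β)‖ ^ 2 ∂μ : ℝ) : ℂ)‖ := by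
    rw [Complex.norm_real]
    exact le_abs_self _
  refine h3.trans ?_
  rw [h1]
  have h4 : ∀ k ∈ Finset.range H, ∀ l ∈ Finset.range H, ∀ k' ∈ Finset.range H',
      ∀ l' ∈ Finset.range H',
      ‖∫ β, ex (((k : ℤ) - l : ℤ) * z β + ((k' : ℤ) - l' : ℤ) * z' β) ∂μ‖
        ≤ (if k = l then (1 : ℝ) else 0) * (if k' = l' then (1 : ℝ) else 0) * μ.real univ + B := by
    intro k hk l hl k' hk' l' hl'
    rw [Finset.mem_range] at hk hl hk' hl'
    by_cases h5 : k = l ∧ k' = l'
    · obtain ⟨rfl, rfl⟩ := h5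
      simp only [sub_self, Int.cast_zero, zero_mul, add_zero, ex_zero, if_true, one_mul]
      rw [integral_const]
      simp only [smul_eq_mul, mul_one, Complex.real_smul, Complex.norm_real, Real.norm_eq_abs,
        abs_of_nonneg measureReal_nonneg]
      linarith
    · have h6 : (if k = l then (1 : ℝ) else 0) * (if k' = l' then (1 : ℝ) else 0) = 0 := by
        by_cases h7 : k = l
        · rw [if_neg (fun h8 => h5 ⟨h7, h8⟩), mul_zero]
        · rw [if_neg h7, zero_mul]
      rw [h6, zero_mul, zero_add]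
      apply h
      · rw [abs_lt]; constructor <;> omega
      · rw [abs_lt]; constructor <;> omega
      · rintro ⟨h7, h8⟩
        exact h5 ⟨by omega, by omega⟩
  calc _ ≤ ∑ k ∈ Finset.range H, ∑ l ∈ Finset.range H, ∑ k' ∈ Finset.range H',
        ∑ l' ∈ Finset.range H',
        ((if k = l then (1 : ℝ) else 0) * (if k' = l' then (1 : ℝ) else 0) * μ.real univ + B) := by
        refine (norm_sum_le _ _).trans (Finset.sum_le_sum fun k hk => ?_)
        refine (norm_sum_le _ _).trans (Finset.sum_le_sum fun l hl => ?_)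
        refine (norm_sum_le _ _).trans (Finset.sum_le_sum fun k' hk' => ?_)
        exact (norm_sum_le _ _).trans (Finset.sum_le_sum fun l' hl' => h4 k hk l hl k' hk' l' hl')
    _ = H * H' * μ.real univ + (H : ℝ) ^ 2 * (H' : ℝ) ^ 2 * B := by
        have e1 : ∀ n : ℕ, ∑ k ∈ Finset.range n, ∑ l ∈ Finset.range n,
            (if k = l then (1 : ℝ) else 0) = n := by
          intro n
          simp only [Finset.sum_ite_eq, Finset.mem_range]
          rw [Finset.sum_congr rfl (fun k hk => if_pos (Finset.mem_range.1 hk))]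
          simp
        have e2 : ∀ k l : ℕ, ∑ k' ∈ Finset.range H', ∑ l' ∈ Finset.range H',
            ((if k = l then (1 : ℝ) else 0) * (if k' = l' then (1 : ℝ) else 0) * μ.real univ + B)
            = (if k = l then (1 : ℝ) else 0) * (H' * μ.real univ) + (H' : ℝ) ^ 2 * B := by
          intro k l
          simp only [Finset.sum_add_distrib, ← Finset.sum_mul, ← Finset.mul_sum, Finset.sum_const,
            Finset.card_range, nsmul_eq_mul]
          rw [e1]
          ring
        simp only [e2]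
        simp only [Finset.sum_add_distrib, ← Finset.sum_mul, Finset.sum_const,
            Finset.card_range, nsmul_eq_mul]
        rw [e1]
        ring

end Pool.Agent.V7H27.SH
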