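import Mathlib
import Pool.Agent.V7H27.SH.Cell

/-! Second moment estimate: in a cell the proportion of points which avoid many short arcs. -/

namespace Pool.Agent.V7H27.SH

open Real MeasureTheory Set
open Pool.Agent.V7H27.LC

lemma measurable_nd : Measurable nd := continuous_nd.measurable

lemma up {μ : Measure ℝ} [IsFiniteMeasure μ] {z z' : ℝ → ℝ} (hz : Measurable z)
    (hz' : Measurable z') {H H' : ℕ} (hH1 : 1 ≤ H) (hH1' : 1 ≤ H') {B ρ ρ' : ℝ} (hB : 0 ≤ B)
    (hH : H * (8 * ρ) ≤ 1) (hH' : H' * (8 * ρ') ≤ 1)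
    (h : ∀ a b : ℤ, |a| < H → |b| < H' → ¬ (a = 0 ∧ b = 0) →
      ‖∫ β, ex (a * z β + b * z' β) ∂μ‖ ≤ B) :
    μ.real {β | nd (z β) < ρ ∧ nd (z' β) < ρ'}
      ≤ 16 / (H * H') * μ.real univ + 16 * B := by
  have hHR : (0 : ℝ) < H := by exact_mod_cast hH1
  have hHR' : (0 : ℝ) < H' := by exact_mod_cast hH1'
  set f : ℝ → ℝ := fun β => ‖Sf H (z β)‖ ^ 2 * ‖Sf H' (z' β)‖ ^ 2 with hf
  have hint : Integrable f μ := by
    refine Integrable.of_bound (C := (H : ℝ) ^ 2 * (H' : ℝ) ^ 2) ?_ ?_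
    · have h1 : Measurable (fun β => Sf H (z β)) :=
        Finset.measurable_fun_sum _ (fun k _ => measurable_ex.comp (hz.const_mul _))
      have h2 : Measurable (fun β => Sf H' (z' β)) :=
        Finset.measurable_fun_sum _ (fun k _ => measurable_ex.comp (hz'.const_mul _))
      exact ((h1.norm.pow_const 2).mul (h2.norm.pow_const 2)).aestronglyMeasurable
    · refine Filter.Eventually.of_forall (fun β => ?_)
      simp only [hf, norm_mul, norm_pow, norm_norm]
      have h1 : ‖Sf H (z β)‖ ≤ H := norm_ex_sum_le _ _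
      have h2 : ‖Sf H' (z' β)‖ ≤ H' := norm_ex_sum_le _ _
      gcongr
  have h1 := two hz hz' hB h
  have h2 : ∀ β ∈ {β | nd (z β) < ρ ∧ nd (z' β) < ρ'},
      (H : ℝ) ^ 2 * (H' : ℝ) ^ 2 / 16 ≤ f β := by
    rintro β ⟨h3, h4⟩
    have h5 := maj h3 hH
    have h6 := maj h4 hH'
    calc (H : ℝ) ^ 2 * (H' : ℝ) ^ 2 / 16 = (H / 2) ^ 2 * (H' / 2) ^ 2 := by ring
      _ ≤ _ := by
        simp only [hf]
        gcongr
  have h3 := mul_meas_ge_le_integral_of_nonneg (μ := μ) (f := f)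
    (Filter.Eventually.of_forall (fun β => by simp only [hf]; positivity)) hint
    ((H : ℝ) ^ 2 * (H' : ℝ) ^ 2 / 16)
  have h4 : μ.real {β | nd (z β) < ρ ∧ nd (z' β) < ρ'}
      ≤ μ.real {x | (H : ℝ) ^ 2 * (H' : ℝ) ^ 2 / 16 ≤ f x} :=
    measureReal_mono (fun β hβ => h2 β hβ)
  have h5 : (H : ℝ) ^ 2 * (H' : ℝ) ^ 2 / 16 * μ.real {β | nd (z β) < ρ ∧ nd (z' β) < ρ'}
      ≤ H * H' * μ.real univ + (H : ℝ) ^ 2 * (H' : ℝ) ^ 2 * B :=
    (mul_le_mul_of_nonneg_left h4 (by positivity)).trans (h3.trans h1)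
  have h6 : (H : ℝ) ^ 2 * (H' : ℝ) ^ 2 / 16 * (16 / (H * H') * μ.real univ + 16 * B)
      = H * H' * μ.real univ + (H : ℝ) ^ 2 * (H' : ℝ) ^ 2 * B := by
    field_simp
  rw [← h6] at h5
  exact le_of_mul_le_mul_left h5 (by positivity)

lemma freq_le {c l x x' t : ℝ} (hl : 0 ≤ l) {a b : ℤ} (h : (a * x + b * x' : ℝ) ≠ 0) :
    ‖∫ β in Ico c (c + l), ex (a * (x * β - t) + b * (x' * β - t))‖ ≤ 1 / |a * x + b * x'| := by
  have h1 : (fun β : ℝ => ex (a * (x * β - t) + b * (x' * β - t)))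
      = fun β => ex (-((a + b) * t)) * ex ((a * x + b * x') * β) := by
    funext β
    rw [← ex_add]
    congr 1
    ring
  rw [h1, integral_const_mul, norm_mul, norm_ex, one_mul]
  exact norm_int_ex hl h

lemma floor_facts {ρ : ℝ} (hρ0 : 0 < ρ) (hρ1 : ρ ≤ 1 / 16) :
    1 ≤ ⌊1 / (8 * ρ)⌋₊ ∧ (⌊1 / (8 * ρ)⌋₊ : ℝ) * (8 * ρ) ≤ 1 ∧
      1 / (⌊1 / (8 * ρ)⌋₊ : ℝ) ≤ 16 * ρ := by
  have h1 : 2 ≤ 1 / (8 * ρ) := by
    rw [le_div_iff₀ (by positivity)]
    linarith
  have h2 : 2 ≤ ⌊1 / (8 * ρ)⌋₊ := Nat.le_floor (by exact_mod_cast h1)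
  have h3 : (⌊1 / (8 * ρ)⌋₊ : ℝ) ≤ 1 / (8 * ρ) := Nat.floor_le (by positivity)
  have h4 : 1 / (8 * ρ) < (⌊1 / (8 * ρ)⌋₊ : ℝ) + 1 := Nat.lt_floor_add_one _
  refine ⟨by omega, ?_, ?_⟩
  · rwa [le_div_iff₀ (by positivity)] at h3
  · have h5 : (2 : ℝ) ≤ (⌊1 / (8 * ρ)⌋₊ : ℝ) := by exact_mod_cast h2
    have h6 : 1 / (16 * ρ) ≤ (⌊1 / (8 * ρ)⌋₊ : ℝ) := by
      have : 1 / (16 * ρ) = 1 / (8 * ρ) / 2 := by field_simp; norm_num
      rw [this]
      linarith
    rw [div_le_iff₀ (by linarith)]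
    rw [div_le_iff₀ (by positivity)] at h6
    linarith

lemma up1 {c l t x ρ H0 : ℝ} (hl : 0 < l) (hx : 0 < x) (hρ0 : 0 < ρ) (hρ1 : ρ ≤ 1 / 16)
    (hρH : 1 / (8 * ρ) ≤ H0) (hxH : H0 ≤ x * l) :
    (volume.restrict (Ico c (c + l))).real {β | nd (x * β - t) < ρ} ≤ 384 * ρ * l := by
  obtain ⟨h1, h2, h3⟩ := floor_facts hρ0 hρ1
  set H := ⌊1 / (8 * ρ)⌋₊ with hH
  have hH0 : 0 < H0 := lt_of_lt_of_le (by positivity) hρH
  have h4 := up (μ := volume.restrict (Ico c (c + l))) (z := fun β => x * β - t)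
    (z' := fun _ => 0) (by fun_prop) measurable_const (H := H) (H' := 1) h1 le_rfl
    (B := l / H0) (ρ := ρ) (ρ' := 1 / 8) (by positivity) h2 (by norm_num) (by
      intro a b ha hb hab
      have hb0 : b = 0 := by
        rw [abs_lt] at hb
        push_cast at hb
        omega
      subst hb0
      have ha0 : a ≠ 0 := fun h => hab ⟨h, rfl⟩
      have ha1 : (1 : ℝ) ≤ |(a : ℝ)| := by
        have : 1 ≤ |a| := Int.one_le_abs ha0
        exact_mod_cast this
      have h5 : (a * x + (0 : ℤ) * x : ℝ) ≠ 0 := by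
        have : (a : ℝ) ≠ 0 := by exact_mod_cast ha0
        simp [this, hx.ne']
      have h6 := freq_le (c := c) (t := t) hl.le h5
      have h7 : (fun β : ℝ => ex (a * (x * β - t) + (0 : ℤ) * (x * β - t)))
          = fun β => ex (a * (x * β - t) + (0 : ℤ) * 0) := by
        funext β
        simp
      simp only [h7] at h6
      refine h6.trans ?_
      rw [div_le_div_iff₀ (by positivity) hH0]
      have h8 : |a * x + (0 : ℤ) * x| = |(a : ℝ)| * x := by
        simp [abs_mul, abs_of_pos hx]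
      rw [h8, one_mul]
      calc H0 ≤ x * l := hxH
        _ ≤ |(a : ℝ)| * (x * l) := le_mul_of_one_le_left (by positivity) ha1
        _ = l * (|(a : ℝ)| * x) := by ring)
  have h5 : {β : ℝ | nd (x * β - t) < ρ ∧ nd (0 : ℝ) < 1 / 8} = {β | nd (x * β - t) < ρ} := by
    ext β
    simp [nd]
  rw [h5] at h4
  refine h4.trans ?_
  have h6 : (volume.restrict (Ico c (c + l))).real univ = l := by
    simp [Measure.real, Real.volume_Ico, ENNReal.toReal_ofReal hl.le]
  rw [h6]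
  have h7 : l / H0 ≤ 8 * ρ * l := by
    rw [div_le_iff₀ hH0]
    rw [div_le_iff₀ (by positivity)] at hρH
    nlinarith
  have h8 : 16 / ((H : ℝ) * (1 : ℕ)) * l ≤ 256 * ρ * l := by
    have : 16 / ((H : ℝ) * (1 : ℕ)) = 16 * (1 / (H : ℝ)) := by push_cast; ring
    rw [this]
    nlinarith
  linarith

lemma up2 {c l t x x' ρ ρ' H0 : ℝ} (hl : 0 < l) (hρ0 : 0 < ρ)
    (hρ1 : ρ ≤ 1 / 16) (hρH : 1 / (8 * ρ) ≤ H0) (hρ0' : 0 < ρ')
    (hρ1' : ρ' ≤ 1 / 16) (hρH' : 1 / (8 * ρ') ≤ H0)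
    (hsep : ∀ a b : ℤ, ¬ (a = 0 ∧ b = 0) → |(a : ℝ)| ≤ H0 → |(b : ℝ)| ≤ H0 →
      H0 ^ 2 ≤ |a * x + b * x'| * l) :
    (volume.restrict (Ico c (c + l))).real {β | nd (x * β - t) < ρ ∧ nd (x' * β - t) < ρ'}
      ≤ 8192 * (ρ * ρ') * l := by
  obtain ⟨h1, h2, h3⟩ := floor_facts hρ0 hρ1
  obtain ⟨h1', h2', h3'⟩ := floor_facts hρ0' hρ1'
  have hHH : (⌊1 / (8 * ρ)⌋₊ : ℝ) ≤ H0 := (Nat.floor_le (by positivity)).trans hρH
  have hHH' : (⌊1 / (8 * ρ')⌋₊ : ℝ) ≤ H0 := (Nat.floor_le (by positivity)).trans hρH'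
  set H := ⌊1 / (8 * ρ)⌋₊ with hH
  set H' := ⌊1 / (8 * ρ')⌋₊ with hH'
  have hH0 : 0 < H0 := lt_of_lt_of_le (by positivity) hρH
  have hle : ∀ (n : ℕ) (a : ℤ), (n : ℝ) ≤ H0 → |a| < n → |(a : ℝ)| ≤ H0 := by
    intro n a hn ha
    have h5 : ((|a| : ℤ) : ℝ) < ((n : ℤ) : ℝ) := by exact_mod_cast ha
    push_cast at h5
    linarith
  have h4 := up (μ := volume.restrict (Ico c (c + l))) (z := fun β => x * β - t)
    (z' := fun β => x' * β - t) (by fun_prop) (by fun_prop) (H := H) (H' := H') h1 h1'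
    (B := l / H0 ^ 2) (ρ := ρ) (ρ' := ρ') (by positivity) h2 h2' (by
      intro a b ha hb hab
      have h5 := hsep a b hab (hle _ _ hHH ha) (hle _ _ hHH' hb)
      have h6 : 0 < |(a * x + b * x' : ℝ)| := by
        by_contra h7
        have h8 : |(a * x + b * x' : ℝ)| = 0 := le_antisymm (not_lt.1 h7) (abs_nonneg _)
        rw [h8, zero_mul] at h5
        have : 0 < H0 ^ 2 := by positivity
        linarith
      refine (freq_le hl.le (abs_pos.1 h6)).trans ?_
      rw [div_le_div_iff₀ h6 (by positivity), one_mul]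
      linarith)
  refine h4.trans ?_
  have h6 : (volume.restrict (Ico c (c + l))).real univ = l := by
    simp [Measure.real, Real.volume_Ico, ENNReal.toReal_ofReal hl.le]
  rw [h6]
  have h9 : 1 / H0 ≤ 8 * ρ := by
    rw [div_le_iff₀ hH0]
    rw [div_le_iff₀ (by positivity)] at hρH
    linarith
  have h9' : 1 / H0 ≤ 8 * ρ' := by
    rw [div_le_iff₀ hH0]
    rw [div_le_iff₀ (by positivity)] at hρH'
    linarith
  have h7 : l / H0 ^ 2 ≤ 64 * (ρ * ρ') * l := by
    calc l / H0 ^ 2 = (1 / H0) * (1 / H0) * l := by field_simp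
      _ ≤ (8 * ρ) * (8 * ρ') * l := by gcongr
      _ = 64 * (ρ * ρ') * l := by ring
  have h8 : 16 / ((H : ℝ) * H') * l ≤ 4096 * (ρ * ρ') * l := by
    have : 16 / ((H : ℝ) * H') = 16 * ((1 / (H : ℝ)) * (1 / (H' : ℝ))) := by
      have : (H : ℝ) ≠ 0 := by positivity
      have : (H' : ℝ) ≠ 0 := by positivity
      field_simp
    rw [this]
    calc 16 * ((1 / (H : ℝ)) * (1 / (H' : ℝ))) * l ≤ 16 * ((16 * ρ) * (16 * ρ')) * l := by gcongr
      _ = 4096 * (ρ * ρ') * l := by ring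
  have : 0 ≤ (ρ * ρ') * l := by positivity
  linarith

lemma low {c l t X ρ : ℝ} (hX : 0 < X) (hρ : 0 < ρ) (hρ1 : ρ ≤ 1 / 16) (hXl : 4 ≤ X * l) :
    ρ * l / 2 ≤ (volume.restrict (Ico c (c + l))).real {β | nd (X * β - t) < ρ} := by
  set N : ℕ := ⌊X * l / 2⌋₊ with hN
  have hN1 : (N : ℝ) ≤ X * l / 2 := Nat.floor_le (by linarith)
  have hN2 : X * l / 4 ≤ N := by
    have := Nat.lt_floor_add_one (X * l / 2)
    rw [← hN] at this
    linarith
  set a0 : ℤ := ⌈X * c - t + ρ⌉ with ha0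
  have ha1 : X * c - t + ρ ≤ a0 := Int.le_ceil _
  have ha2 : (a0 : ℝ) < X * c - t + ρ + 1 := Int.ceil_lt_add_one _
  set I : ℕ → Set ℝ := fun k => Ioo ((t + a0 + k - ρ) / X) ((t + a0 + k + ρ) / X) with hI
  have hmem : ∀ k β, β ∈ I k ↔ t + a0 + k - ρ < X * β ∧ X * β < t + a0 + k + ρ := by
    intro k β
    simp only [hI, mem_Ioo]
    rw [div_lt_iff₀ hX, lt_div_iff₀ hX, mul_comm β X]
  have hdisj : Set.PairwiseDisjoint (↑(Finset.range N)) I := by
    intro k _ k' _ hkk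
    rw [Function.onFun, Set.disjoint_left]
    intro β h1 h2
    rw [hmem] at h1 h2
    have h3 : |((k : ℤ) - k' : ℝ)| < 1 := by
      rw [abs_lt]
      constructor
      · push_cast; linarith [h1.1, h1.2, h2.1, h2.2]
      · push_cast; linarith [h1.1, h1.2, h2.1, h2.2]
    have h4 : |(k : ℤ) - k'| < 1 := by exact_mod_cast h3
    have h5 : (k : ℤ) - k' = 0 := Int.abs_lt_one_iff.1 h4
    exact hkk (by omega)
  have hsub : (⋃ k ∈ Finset.range N, I k) ⊆ {β | nd (X * β - t) < ρ} ∩ Ico c (c + l) := by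
    intro β hβ
    simp only [mem_iUnion, Finset.mem_range, exists_prop] at hβ
    obtain ⟨k, hk, hβ⟩ := hβ
    rw [hmem] at hβ
    have hkN : (k : ℝ) + 1 ≤ N := by exact_mod_cast hk
    have hk0 : (0 : ℝ) ≤ k := Nat.cast_nonneg k
    refine ⟨?_, ?_⟩
    · have h1 := nd_le (X * β - t) (a0 + k)
      refine lt_of_le_of_lt h1 ?_
      rw [abs_lt]
      push_cast
      constructor <;> linarith [hβ.1, hβ.2]
    · rw [mem_Ico]
      constructor
      · have h1 : X * c ≤ X * β := by linarith [hβ.1]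
        exact le_of_mul_le_mul_left h1 hX
      · have h1 : X * β < X * (c + l) := by
          rw [mul_add]
          linarith [hβ.2]
        exact lt_of_mul_lt_mul_left h1 hX.le
  rw [measureReal_restrict_apply' measurableSet_Ico]
  have hfin : volume ({β | nd (X * β - t) < ρ} ∩ Ico c (c + l)) ≠ ⊤ :=
    measure_ne_top_of_subset inter_subset_right (by simp)
  refine le_trans ?_ (measureReal_mono hsub hfin)
  rw [measureReal_biUnion_finset hdisj (fun k _ => measurableSet_Ioo)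
    (fun k _ => by simp [hI])]
  have h1 : ∀ k ∈ Finset.range N, volume.real (I k) = 2 * ρ / X := by
    intro k _
    simp only [hI]
    rw [Real.volume_real_Ioo_of_le (by gcongr; linarith)]
    field_simp
    ring
  rw [Finset.sum_congr rfl h1, Finset.sum_const, Finset.card_range, nsmul_eq_mul]
  calc ρ * l / 2 = (X * l / 4) * (2 * ρ / X) := by field_simp; norm_num
    _ ≤ N * (2 * ρ / X) := by gcongr

/-- In a cell at least the proportion `m / (32768 (1 + m))` of the points hit one of the arcs. -/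
lemma one_cell {ι : Type*} [DecidableEq ι] (S : Finset ι) (x : ι → ℝ) (ρ : ι → ℝ)
    {c l t H0 : ℝ} (hl : 0 < l) (hx : ∀ a ∈ S, 0 < x a) (hρ0 : ∀ a ∈ S, 0 < ρ a)
    (hρ1 : ∀ a ∈ S, ρ a ≤ 1 / 16) (hH4 : 4 ≤ H0)
    (hρH : ∀ a ∈ S, 1 / (8 * ρ a) ≤ H0) (hxH : ∀ a ∈ S, H0 ≤ x a * l)
    (hsep : ∀ a ∈ S, ∀ b ∈ S, a ≠ b → ∀ h h' : ℤ, ¬ (h = 0 ∧ h' = 0) → |(h : ℝ)| ≤ H0 →
      |(h' : ℝ)| ≤ H0 → H0 ^ 2 ≤ |h * x a + h' * x b| * l) :
    volume.real ({β | ∀ a ∈ S, ρ a ≤ nd (x a * β - t)} ∩ Ico c (c + l))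
      ≤ (1 - (∑ a ∈ S, ρ a) / (32768 * (1 + ∑ a ∈ S, ρ a))) * l := by
  set μ : Measure ℝ := volume.restrict (Ico c (c + l)) with hμ
  have hμu : μ.real univ = l := by
    simp [hμ, Measure.real, Real.volume_Ico, ENNReal.toReal_ofReal hl.le]
  set m : ℝ := ∑ a ∈ S, ρ a with hm
  have hm0 : 0 ≤ m := Finset.sum_nonneg (fun a ha => (hρ0 a ha).le)
  set A : ι → Set ℝ := fun a => {β | nd (x a * β - t) < ρ a} with hA
  have hAm : ∀ a, MeasurableSet (A a) := by
    intro a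
    exact measurableSet_lt (measurable_nd.comp (by fun_prop)) measurable_const
  set U : Set ℝ := ⋃ a ∈ S, A a with hU
  have hUm : MeasurableSet U := Finset.measurableSet_biUnion _ (fun a _ => hAm a)
  set lam : ℝ := 1 / (16384 * (1 + m)) with hlam
  have hlam0 : 0 < lam := by positivity
  set f : ι → ℝ → ℝ := fun a => (A a).indicator (fun _ => (1 : ℝ)) with hf
  have hfint : ∀ a, Integrable (f a) μ := fun a => (integrable_const _).indicator (hAm a)
  have hfI : ∀ a, ∫ β, f a β ∂μ = μ.real (A a) := by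
    intro a
    simp only [hf]
    rw [integral_indicator (hAm a)]
    simp
  have hfI2 : ∀ a b, ∫ β, f a β * f b β ∂μ = μ.real (A a ∩ A b) := by
    intro a b
    have h1 : (fun β => f a β * f b β) = (A a ∩ A b).indicator (fun _ => (1 : ℝ)) := by
      funext β
      simp only [hf]
      rw [← Set.inter_indicator_mul]
      simp
    rw [h1, integral_indicator ((hAm a).inter (hAm b))]
    simp
  have hffint : ∀ a b, Integrable (fun β => f a β * f b β) μ := by
    intro a b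
    have h1 : (fun β => f a β * f b β) = (A a ∩ A b).indicator (fun _ => (1 : ℝ)) := by
      funext β
      simp only [hf]
      rw [← Set.inter_indicator_mul]
      simp
    rw [h1]
    exact (integrable_const _).indicator ((hAm a).inter (hAm b))
  set g : ℝ → ℝ := fun β => ∑ a ∈ S, f a β with hg
  have hpt : ∀ β, 2 * lam * g β - lam ^ 2 * (∑ a ∈ S, ∑ b ∈ S, f a β * f b β)
      ≤ U.indicator (fun _ => (1 : ℝ)) β := by
    intro β
    have h1 : ∑ a ∈ S, ∑ b ∈ S, f a β * f b β = g β ^ 2 := by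
      rw [sq, hg, Finset.sum_mul_sum]
    rw [h1]
    by_cases hβ : β ∈ U
    · rw [indicator_of_mem hβ]
      nlinarith [sq_nonneg (1 - lam * g β)]
    · rw [indicator_of_notMem hβ]
      have h2 : g β = 0 := by
        simp only [hg]
        apply Finset.sum_eq_zero
        intro a ha
        simp only [hf]
        apply indicator_of_notMem
        intro h3
        exact hβ (mem_biUnion ha h3)
      rw [h2]
      simp
  have hgint : Integrable g μ := integrable_finsetSum _ (fun a _ => hfint a)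
  have hggint : Integrable (fun β => ∑ a ∈ S, ∑ b ∈ S, f a β * f b β) μ :=
    integrable_finsetSum _ (fun a _ => integrable_finsetSum _ (fun b _ => hffint a b))
  have h1 : 2 * lam * (∑ a ∈ S, μ.real (A a))
      - lam ^ 2 * (∑ a ∈ S, ∑ b ∈ S, μ.real (A a ∩ A b)) ≤ μ.real U := by
    have h2 : ∫ β, U.indicator (fun _ => (1 : ℝ)) β ∂μ = μ.real U := by
      rw [integral_indicator hUm]; simp
    rw [← h2]
    have h3 : 2 * lam * (∑ a ∈ S, μ.real (A a))
      - lam ^ 2 * (∑ a ∈ S, ∑ b ∈ S, μ.real (A a ∩ A b))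
      = ∫ β, (2 * lam * g β - lam ^ 2 * (∑ a ∈ S, ∑ b ∈ S, f a β * f b β)) ∂μ := by
      rw [integral_sub (hgint.const_mul _) (hggint.const_mul _), integral_const_mul,
        integral_const_mul]
      congr 2
      · simp only [hg]
        rw [integral_finsetSum _ (fun a _ => hfint a)]
        exact Finset.sum_congr rfl (fun a _ => (hfI a).symm)
      · rw [integral_finsetSum _ (fun a _ => integrable_finsetSum _ (fun b _ => hffint a b))]
        apply Finset.sum_congr rfl; intro a _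
        rw [integral_finsetSum _ (fun b _ => hffint a b)]
        exact Finset.sum_congr rfl (fun b _ => (hfI2 a b).symm)
    rw [h3]
    exact integral_mono ((hgint.const_mul _).sub (hggint.const_mul _))
      ((integrable_const _).indicator hUm) hpt
  have h2 : m * l / 2 ≤ ∑ a ∈ S, μ.real (A a) := by
    calc m * l / 2 = ∑ a ∈ S, ρ a * l / 2 := by
          rw [hm, Finset.sum_mul, Finset.sum_div]
      _ ≤ _ := Finset.sum_le_sum (fun a ha =>
          low (hx a ha) (hρ0 a ha) (hρ1 a ha) (hH4.trans (hxH a ha)))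
  have h3 : ∑ a ∈ S, ∑ b ∈ S, μ.real (A a ∩ A b) ≤ 8192 * (m * (1 + m)) * l := by
    have h4 : ∀ a ∈ S, ∀ b ∈ S, μ.real (A a ∩ A b)
        ≤ (if a = b then 384 * ρ a * l else 0) + 8192 * (ρ a * ρ b) * l := by
      intro a ha b hb
      have hpos : 0 ≤ 8192 * (ρ a * ρ b) * l := by
        have := hρ0 a ha
        have := hρ0 b hb
        positivity
      by_cases hab : a = b
      · subst hab
        rw [if_pos rfl, inter_self]
        have := up1 (c := c) (t := t) hl (hx a ha) (hρ0 a ha) (hρ1 a ha) (hρH a ha) (hxH a ha)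
        linarith
      · rw [if_neg hab, zero_add]
        exact up2 hl (hρ0 a ha) (hρ1 a ha) (hρH a ha) (hρ0 b hb) (hρ1 b hb) (hρH b hb)
          (fun h h' => hsep a ha b hb hab h h')
    refine (Finset.sum_le_sum fun a ha => Finset.sum_le_sum fun b hb => h4 a ha b hb).trans ?_
    simp only [Finset.sum_add_distrib, ← Finset.sum_mul, ← Finset.mul_sum]
    have h5 : ∑ a ∈ S, ∑ b ∈ S, (if a = b then 384 * ρ a * l else 0) = 384 * m * l := by
      rw [hm, Finset.mul_sum, Finset.sum_mul]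
      apply Finset.sum_congr rfl
      intro a ha
      rw [Finset.sum_ite_eq, if_pos ha]
    rw [h5]
    have h6 : (∑ i ∈ S, ρ i) * ∑ i ∈ S, ρ i = m * m := by rw [hm]
    have h7 : 0 ≤ m * l := by positivity
    rw [h6]
    nlinarith
  have h4 : m / (32768 * (1 + m)) * l ≤ μ.real U := by
    refine le_trans ?_ h1
    have h5 : m / (32768 * (1 + m)) * l
        = 2 * lam * (m * l / 2) - lam ^ 2 * (8192 * (m * (1 + m)) * l) := by
      rw [hlam]
      field_simp
      ring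
    rw [h5]
    gcongr
  have h5 : {β | ∀ a ∈ S, ρ a ≤ nd (x a * β - t)} = Uᶜ := by
    ext β
    simp only [hU, hA, mem_compl_iff, mem_iUnion, exists_prop, not_exists, not_and,
      Set.mem_ofPred_eq, not_lt]
  rw [h5]
  have h6 : volume.real (Uᶜ ∩ Ico c (c + l)) = μ.real Uᶜ := by
    rw [hμ, measureReal_restrict_apply' measurableSet_Ico]
  rw [h6, measureReal_compl hUm, hμu]
  linarith

end Pool.Agent.V7H27.SH
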