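import Mathlib

/-! Counting pairs in a box whose images under an affine map are coprime. -/

namespace Pool.Agent.V7H27.SH

open Finset

lemma resid {p e a : ℤ} (hp : Prime p) (hp0 : 0 < p) (hpe : ¬ p ∣ e) (i0 : ℤ) (A : ℕ) :
    ((((Finset.Ico i0 (i0 + A)).filter (fun i => p ∣ e * i - a)).card : ℕ) : ℝ) ≤ A / p + 1 := by
  have hpR : (0 : ℝ) < p := by exact_mod_cast hp0
  rcases Finset.eq_empty_or_nonempty
    ((Finset.Ico i0 (i0 + A)).filter (fun i => p ∣ e * i - a)) with h | h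
  · rw [h]
    simp only [Finset.card_empty, Nat.cast_zero]
    positivity
  · obtain ⟨i1, hi1⟩ := h
    rw [Finset.mem_filter] at hi1
    have hsub : (Finset.Ico i0 (i0 + A)).filter (fun i => p ∣ e * i - a)
        ⊆ (Finset.Ico i0 (i0 + A)).filter (fun i => i ≡ i1 [ZMOD p]) := by
      intro i hi
      rw [Finset.mem_filter] at hi ⊢
      refine ⟨hi.1, ?_⟩
      have h1 : p ∣ e * (i1 - i) := by
        have : e * (i1 - i) = (e * i1 - a) - (e * i - a) := by ring
        rw [this]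
        exact dvd_sub hi1.2 hi.2
      rcases hp.dvd_or_dvd h1 with h2 | h2
      · exact absurd h2 hpe
      · exact (Int.modEq_iff_dvd).2 h2
    have h2 := Finset.card_le_card hsub
    have h3 := Int.Ico_filter_modEq_card i0 (i0 + A) hp0 i1
    have h4 : ((((Finset.Ico i0 (i0 + A)).filter (fun i => i ≡ i1 [ZMOD p])).card : ℕ) : ℝ)
        ≤ A / p + 1 := by
      have h5 : ((((Finset.Ico i0 (i0 + A)).filter (fun i => i ≡ i1 [ZMOD p])).card : ℤ) : ℚ)
          ≤ A / p + 1 := by
        rw [h3]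
        push_cast
        apply max_le
        · have h6 := Int.ceil_lt_add_one (((i0 + A : ℤ) - i1 : ℚ) / (p : ℚ))
          have h7 := Int.le_ceil (((i0 : ℤ) - i1 : ℚ) / (p : ℚ))
          have hpQ : (0 : ℚ) < p := by exact_mod_cast hp0
          have h8 : ((i0 + A : ℤ) - i1 : ℚ) / (p : ℚ) = ((i0 : ℤ) - i1 : ℚ) / (p : ℚ) + A / p := by
            push_cast
            field_simp
            ring
          rw [h8] at h6
          have h9 : (⌈((i0 : ℚ) + A - i1) / (p : ℚ)⌉ : ℚ)
              < ((i0 : ℤ) - i1 : ℚ) / (p : ℚ) + A / p + 1 := by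
            have h10 : ((i0 : ℚ) + A - i1) / (p : ℚ) = ((i0 : ℤ) - i1 : ℚ) / (p : ℚ) + A / p := by
              push_cast
              field_simp
              ring
            rw [h10]
            exact h6
          linarith
        · have hpQ : (0 : ℚ) < p := by exact_mod_cast hp0
          positivity
      exact_mod_cast h5
    refine le_trans ?_ h4
    exact_mod_cast h2

lemma card_primeFactors_le {m : ℤ} {D : ℕ} (hm : m ≠ 0) (hD : |(m : ℝ)| < 2 ^ D) :
    m.natAbs.primeFactors.card ≤ D := by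
  have h1 : 2 ^ m.natAbs.primeFactors.card ≤ ∏ p ∈ m.natAbs.primeFactors, p := by
    apply Finset.pow_card_le_prod
    intro p hp
    exact (Nat.prime_of_mem_primeFactors hp).two_le
  have h2 : ∏ p ∈ m.natAbs.primeFactors, p ≤ m.natAbs :=
    Nat.le_of_dvd (Int.natAbs_pos.2 hm) (Nat.prod_primeFactors_dvd _)
  have h3 : m.natAbs < 2 ^ D := by
    have h4 : ((m.natAbs : ℕ) : ℝ) = |(m : ℝ)| := by
      rw [Nat.cast_natAbs]
      push_cast
      rfl
    have h5 : ((m.natAbs : ℕ) : ℝ) < ((2 ^ D : ℕ) : ℝ) := by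
      rw [h4]
      push_cast
      exact hD
    exact_mod_cast h5
  have h6 : 2 ^ m.natAbs.primeFactors.card < 2 ^ D := by omega
  exact (Nat.pow_lt_pow_iff_right (by norm_num)).1 h6 |>.le

lemma sum_inv_sq (n : ℕ) : ∑ d ∈ Finset.Icc 2 (n + 2), 1 / ((d : ℝ)) ^ 2 ≤ 3 / 4 - 1 / ((n : ℝ) + 2) := by
  induction n with
  | zero => norm_num
  | succ n ih =>
    rw [Finset.sum_Icc_succ_top (by omega)]
    push_cast at ih ⊢
    have h1 : 1 / ((n : ℝ) + 1 + 2) ^ 2 ≤ 1 / ((n : ℝ) + 2) - 1 / ((n : ℝ) + 1 + 2) := by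
      rw [div_sub_div _ _ (by positivity) (by positivity), div_le_div_iff₀ (by positivity) (by positivity)]
      nlinarith [Nat.cast_nonneg (α := ℝ) n]
    have h2 : ((n : ℝ) + 2 + 1) = (n : ℝ) + 1 + 2 := by ring
    rw [h2]
    linarith

lemma sum_inv_sq_le (P : ℕ) : ∑ d ∈ Finset.Icc 2 P, 1 / ((d : ℝ)) ^ 2 ≤ 3 / 4 := by
  by_cases h : P < 2
  · rw [Finset.Icc_eq_empty (by omega)]
    norm_num
  · obtain ⟨n, rfl⟩ : ∃ n, P = n + 2 := ⟨P - 2, by omega⟩
    have h1 := sum_inv_sq n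
    have h2 : (0 : ℝ) ≤ 1 / ((n : ℝ) + 2) := by positivity
    linarith

lemma sum_inv_le (P : ℕ) : ∑ d ∈ Finset.Icc 2 P, 1 / ((d : ℝ)) ≤ P / 2 := by
  calc ∑ d ∈ Finset.Icc 2 P, 1 / ((d : ℝ)) ≤ ∑ d ∈ Finset.Icc 2 P, (1 : ℝ) / 2 := by
        apply Finset.sum_le_sum
        intro d hd
        rw [Finset.mem_Icc] at hd
        have : (2 : ℝ) ≤ d := by exact_mod_cast hd.1
        gcongr
    _ ≤ P / 2 := by
        rw [Finset.sum_const, nsmul_eq_mul, Nat.card_Icc]
        have : ((P + 1 - 2 : ℕ) : ℝ) ≤ P := by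
          exact_mod_cast (by omega : P + 1 - 2 ≤ P)
        linarith

open Classical in
/-- Many pairs of a box have coprime images under `(i, j) ↦ (e i - a, e j - b)`. -/
lemma count {e a b i0 j0 : ℤ} {A B P D : ℕ} (he : 1 ≤ e)
    (hg : ∀ p : ℤ, Prime p → p ∣ e → p ∣ a → p ∣ b → False)
    (hD : ∀ i : ℤ, i0 ≤ i → i < i0 + A → |((e * i - a : ℤ) : ℝ)| < 2 ^ D)
    (hPD : 32 * D ≤ P) (hP : 1 ≤ P) (hA : 64 * P ≤ A) (hB : 64 * P ≤ B) :
    (A : ℝ) * B / 8 ≤ (((Finset.Ico i0 (i0 + A)) ×ˢ (Finset.Ico j0 (j0 + B))).filter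
      (fun u : ℤ × ℤ => IsCoprime (e * u.1 - a) (e * u.2 - b))).card := by
  set X := (Finset.Ico i0 (i0 + A)) ×ˢ (Finset.Ico j0 (j0 + B)) with hX
  have hXc : (X.card : ℝ) = A * B := by
    rw [hX, Finset.card_product, Int.card_Ico, Int.card_Ico]
    simp
  have hsplit := Finset.card_filter_add_card_filter_not (s := X)
    (fun u : ℤ × ℤ => IsCoprime (e * u.1 - a) (e * u.2 - b))
  set G := X.filter (fun u : ℤ × ℤ => IsCoprime (e * u.1 - a) (e * u.2 - b)) with hG
  set N := X.filter (fun u : ℤ × ℤ => ¬ IsCoprime (e * u.1 - a) (e * u.2 - b)) with hN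
  have hAR : (64 : ℝ) * P ≤ A := by exact_mod_cast hA
  have hBR : (64 : ℝ) * P ≤ B := by exact_mod_cast hB
  have hPR : (1 : ℝ) ≤ P := by exact_mod_cast hP
  have hDR : (32 : ℝ) * D ≤ P := by exact_mod_cast hPD
  -- the three parts
  set N1 := (Finset.Icc 2 P).biUnion (fun p : ℕ => if (Prime (p : ℤ) ∧ ¬ (p : ℤ) ∣ e) then
    (((Finset.Ico i0 (i0 + A)).filter (fun i => (p : ℤ) ∣ e * i - a)) ×ˢ
      ((Finset.Ico j0 (j0 + B)).filter (fun j => (p : ℤ) ∣ e * j - b))) else ∅) with hN1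
  set N2 := ((Finset.Ico i0 (i0 + A)).filter (fun i => e * i - a = 0)) ×ˢ
      (Finset.Ico j0 (j0 + B)) with hN2
  set N3 := ((Finset.Ico i0 (i0 + A)).filter (fun i => e * i - a ≠ 0)).biUnion (fun i =>
    ((e * i - a).natAbs.primeFactors.filter (fun p => P < p ∧ ¬ (p : ℤ) ∣ e)).biUnion (fun p =>
      ((Finset.Ico j0 (j0 + B)).filter (fun j => (p : ℤ) ∣ e * j - b)).image (fun j => (i, j))))
    with hN3
  have hcov : N ⊆ N1 ∪ (N2 ∪ N3) := by
    intro u hu
    rw [hN, Finset.mem_filter, hX, Finset.mem_product] at hu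
    obtain ⟨⟨hu1, hu2⟩, hu3⟩ := hu
    by_cases h0 : e * u.1 - a = 0
    · apply Finset.mem_union_right
      apply Finset.mem_union_left
      rw [hN2, Finset.mem_product, Finset.mem_filter]
      exact ⟨⟨hu1, h0⟩, hu2⟩
    · have h1 : ∃ p : ℕ, p.Prime ∧ (p : ℤ) ∣ e * u.1 - a ∧ (p : ℤ) ∣ e * u.2 - b := by
        rw [Int.isCoprime_iff_gcd_eq_one] at hu3
        obtain ⟨p, hp, hpd⟩ := Nat.exists_prime_and_dvd hu3
        refine ⟨p, hp, ?_, ?_⟩
        · exact (Int.natCast_dvd_natCast.2 hpd).trans (Int.gcd_dvd_left _ _)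
        · exact (Int.natCast_dvd_natCast.2 hpd).trans (Int.gcd_dvd_right _ _)
      obtain ⟨p, hp, hp1, hp2⟩ := h1
      have hpP : Prime (p : ℤ) := Nat.prime_iff_prime_int.1 hp
      have hpe : ¬ (p : ℤ) ∣ e := by
        intro h
        refine hg p hpP h ?_ ?_
        · have : a = e * u.1 - (e * u.1 - a) := by ring
          rw [this]
          exact dvd_sub (h.mul_right _) hp1
        · have : b = e * u.2 - (e * u.2 - b) := by ring
          rw [this]
          exact dvd_sub (h.mul_right _) hp2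
      by_cases hpP2 : p ≤ P
      · apply Finset.mem_union_left
        rw [hN1, Finset.mem_biUnion]
        refine ⟨p, Finset.mem_Icc.2 ⟨hp.two_le, hpP2⟩, ?_⟩
        rw [if_pos ⟨hpP, hpe⟩, Finset.mem_product, Finset.mem_filter, Finset.mem_filter]
        exact ⟨⟨hu1, hp1⟩, ⟨hu2, hp2⟩⟩
      · apply Finset.mem_union_right
        apply Finset.mem_union_right
        rw [hN3, Finset.mem_biUnion]
        refine ⟨u.1, Finset.mem_filter.2 ⟨hu1, h0⟩, ?_⟩
        rw [Finset.mem_biUnion]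
        refine ⟨p, Finset.mem_filter.2 ⟨?_, ⟨by omega, hpe⟩⟩, ?_⟩
        · rw [Nat.mem_primeFactors]
          exact ⟨hp, Int.natCast_dvd.1 hp1, Int.natAbs_ne_zero.2 h0⟩
        · rw [Finset.mem_image]
          exact ⟨u.2, Finset.mem_filter.2 ⟨hu2, hp2⟩, rfl⟩
  have hc1 : (N1.card : ℝ) ≤ 3 / 4 * (A * B) + (A + B) * (P / 2) + P := by
    have h1 : (N1.card : ℝ) ≤ ∑ p ∈ Finset.Icc 2 P, ((A : ℝ) / p + 1) * ((B : ℝ) / p + 1) := by
      rw [hN1]
      have h2 := Finset.card_biUnion_le (s := Finset.Icc 2 P)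
        (t := (fun p : ℕ => if (Prime (p : ℤ) ∧ ¬ (p : ℤ) ∣ e) then
          (((Finset.Ico i0 (i0 + A)).filter (fun i => (p : ℤ) ∣ e * i - a)) ×ˢ
          ((Finset.Ico j0 (j0 + B)).filter (fun j => (p : ℤ) ∣ e * j - b))) else ∅))
      refine le_trans (Nat.cast_le.2 h2) ?_
      push_cast
      apply Finset.sum_le_sum
      intro p hp
      split_ifs with h3
      · rw [Finset.card_product]
        push_cast
        have hp0 : (0 : ℤ) < p := by
          have := (Finset.mem_Icc.1 hp).1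
          omega
        have e1 := resid (a := a) h3.1 hp0 h3.2 i0 A
        have e2 := resid (a := b) h3.1 hp0 h3.2 j0 B
        push_cast at e1 e2
        gcongr
      · simp only [Finset.card_empty, Nat.cast_zero]
        positivity
    refine h1.trans ?_
    have h2 : ∀ p ∈ Finset.Icc 2 P, ((A : ℝ) / p + 1) * ((B : ℝ) / p + 1)
        = (A * B) * (1 / (p : ℝ) ^ 2) + (A + B) * (1 / (p : ℝ)) + 1 := by
      intro p hp
      have hp0 : (p : ℝ) ≠ 0 := by
        have := (Finset.mem_Icc.1 hp).1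
        have : p ≠ 0 := by omega
        exact_mod_cast this
      field_simp
      ring
    rw [Finset.sum_congr rfl h2, Finset.sum_add_distrib, Finset.sum_add_distrib,
      ← Finset.mul_sum, ← Finset.mul_sum, Finset.sum_const, nsmul_eq_mul, mul_one, Nat.card_Icc]
    have h3 := sum_inv_sq_le P
    have h4 := sum_inv_le P
    have h5 : ((P + 1 - 2 : ℕ) : ℝ) ≤ P := by
      exact_mod_cast (by omega : P + 1 - 2 ≤ P)
    have h6 : (0 : ℝ) ≤ A * B := by positivity
    have h7 : (0 : ℝ) ≤ A + B := by positivity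
    have h8 := mul_le_mul_of_nonneg_left h3 h6
    have h9 := mul_le_mul_of_nonneg_left h4 h7
    linarith
  have hc2 : (N2.card : ℝ) ≤ B := by
    rw [hN2, Finset.card_product, Int.card_Ico]
    have h1 : ((Finset.Ico i0 (i0 + A)).filter (fun i => e * i - a = 0)).card ≤ 1 := by
      rw [Finset.card_le_one]
      intro i hi i' hi'
      rw [Finset.mem_filter] at hi hi'
      have h2 : e * (i - i') = 0 := by linarith [hi.2, hi'.2]
      rcases mul_eq_zero.1 h2 with h3 | h3
      · omega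
      · omega
    have h2 : ((j0 + B - j0).toNat : ℕ) = B := by simp
    rw [h2]
    have h3 : ((((Finset.Ico i0 (i0 + A)).filter (fun i => e * i - a = 0)).card : ℕ) : ℝ) ≤ 1 := by
      exact_mod_cast h1
    push_cast
    have hB0 : (0 : ℝ) ≤ B := Nat.cast_nonneg B
    nlinarith
  have hc3 : (N3.card : ℝ) ≤ A * (D * (B / P + 1)) := by
    rw [hN3]
    refine le_trans (Nat.cast_le.2 Finset.card_biUnion_le) ?_
    push_cast
    have h1 : ∀ i ∈ (Finset.Ico i0 (i0 + (A : ℤ))).filter (fun i => e * i - a ≠ 0),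
        (((((e * i - a).natAbs.primeFactors.filter (fun p => P < p ∧ ¬ (p : ℤ) ∣ e)).biUnion
          (fun p => ((Finset.Ico j0 (j0 + (B : ℤ))).filter (fun j => (p : ℤ) ∣ e * j - b)).image
            (fun j => (i, j)))).card : ℕ) : ℝ) ≤ D * (B / P + 1) := by
      intro i hi
      rw [Finset.mem_filter, Finset.mem_Ico] at hi
      have hcard := card_primeFactors_le hi.2 (hD i hi.1.1 hi.1.2)
      have h2 : ∀ p ∈ (e * i - a).natAbs.primeFactors.filter (fun p => P < p ∧ ¬ (p : ℤ) ∣ e),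
          ((((Finset.Ico j0 (j0 + (B : ℤ))).filter (fun j => (p : ℤ) ∣ e * j - b)).image
            (fun j => (i, j))).card : ℝ) ≤ B / P + 1 := by
        intro p hp
        rw [Finset.mem_filter] at hp
        have hpp : p.Prime := Nat.prime_of_mem_primeFactors hp.1
        have e2 := resid (a := b) (Nat.prime_iff_prime_int.1 hpp)
          (by exact_mod_cast hpp.pos) hp.2.2 j0 B
        have h3 : ((((Finset.Ico j0 (j0 + (B : ℤ))).filter (fun j => (p : ℤ) ∣ e * j - b)).image
            (fun j => (i, j))).card : ℝ) ≤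
            ((((Finset.Ico j0 (j0 + (B : ℤ))).filter (fun j => (p : ℤ) ∣ e * j - b)).card : ℕ) : ℝ) := by
          exact_mod_cast Finset.card_image_le
        refine h3.trans (e2.trans ?_)
        push_cast
        have h4 : (P : ℝ) ≤ p := by exact_mod_cast hp.2.1.le
        gcongr
      have h5 : ∑ p ∈ (e * i - a).natAbs.primeFactors.filter (fun p => P < p ∧ ¬ (p : ℤ) ∣ e),
          ((((Finset.Ico j0 (j0 + (B : ℤ))).filter (fun j => (p : ℤ) ∣ e * j - b)).image
            (fun j => (i, j))).card : ℝ) ≤ D * (B / P + 1) := by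
        refine (Finset.sum_le_sum h2).trans ?_
        rw [Finset.sum_const, nsmul_eq_mul]
        have h6 : (((e * i - a).natAbs.primeFactors.filter
            (fun p => P < p ∧ ¬ (p : ℤ) ∣ e)).card : ℝ) ≤ D := by
          exact_mod_cast (Finset.card_filter_le _ _).trans hcard
        gcongr
      refine le_trans ?_ h5
      exact_mod_cast Finset.card_biUnion_le
    refine (Finset.sum_le_sum h1).trans ?_
    rw [Finset.sum_const, nsmul_eq_mul]
    have h7 : (((Finset.Ico i0 (i0 + (A : ℤ))).filter (fun i => e * i - a ≠ 0)).card : ℝ) ≤ A := by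
      have h8 := Finset.card_filter_le (Finset.Ico i0 (i0 + (A : ℤ))) (fun i => e * i - a ≠ 0)
      rw [Int.card_Ico] at h8
      have h9 : ((i0 + A - i0).toNat : ℕ) = A := by simp
      rw [h9] at h8
      exact_mod_cast h8
    gcongr
  have hNc : (N.card : ℝ) ≤ N1.card + (N2.card + N3.card) := by
    have h1 := (Finset.card_le_card hcov).trans (Finset.card_union_le _ _)
    have h2 := Finset.card_union_le N2 N3
    exact_mod_cast h1.trans (by omega)
  have hs : (G.card : ℝ) + N.card = A * B := by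
    rw [← hXc]
    exact_mod_cast hsplit
  -- final numbers
  have hAB : (0 : ℝ) ≤ A * B := by positivity
  have hA0 : (0 : ℝ) ≤ A := Nat.cast_nonneg A
  have hB0 : (0 : ℝ) ≤ B := Nat.cast_nonneg B
  have f1 : (A : ℝ) * (P / 2) ≤ A * B / 128 := by nlinarith
  have f2 : (B : ℝ) * (P / 2) ≤ A * B / 128 := by nlinarith
  have f3 : (P : ℝ) ≤ A * B / 4096 := by
    have : (64 * P : ℝ) * (64 * P) ≤ A * B := by gcongr
    nlinarith
  have f4 : (B : ℝ) ≤ A * B / 64 := by nlinarith
  have f5 : (A : ℝ) * (D * (B / P + 1)) ≤ A * B / 32 + A * B / 2048 := by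
    have g1 : (D : ℝ) * (B / P) ≤ B / 32 := by
      rw [mul_div_assoc', div_le_div_iff₀ (by linarith) (by norm_num)]
      nlinarith
    have g2 : (D : ℝ) ≤ B / 2048 := by linarith
    have g3 : (D : ℝ) * (B / P + 1) ≤ B / 32 + B / 2048 := by linarith
    calc (A : ℝ) * (D * (B / P + 1)) ≤ A * (B / 32 + B / 2048) := by gcongr
      _ = _ := by ring
  have f6 : ((A : ℝ) + B) * (P / 2) = A * (P / 2) + B * (P / 2) := by ring
  rw [f6] at hc1
  linarith

end Pool.Agent.V7H27.SH
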