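import Mathlib
import Pool.Agent.V7H27.LC.Dioph
import Pool.Agent.V7H27.SH.Count

/-! Many lattice points with a coprimality condition in a region where the linear form is small. -/

namespace Pool.Agent.V7H27.SH

open Real
open Pool.Agent.V7H27.LC

lemma amul {a b A B : ℝ} (ha : |a| ≤ A) (hb : |b| ≤ B) : |a * b| ≤ A * B := by
  rw [abs_mul]
  exact mul_le_mul ha hb (abs_nonneg _) ((abs_nonneg _).trans ha)

/-- A nearly reduced basis of the lattice at scale `n`. -/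
lemma basis {α κ : ℝ} {n : ℕ} (hn : 1 ≤ n) (hκ0 : 0 < κ)
    (hκ : ∀ q : ℕ, 1 ≤ q → q ≤ n → κ ≤ q * nd (q * α)) :
    ∃ q p q' p' : ℤ, ∃ V W : ℝ, q * p' - q' * p = 1 ∧ |(q : ℝ) / n| ≤ V ∧
      |(n : ℝ) * (q * α - p)| ≤ V ∧ |(q' : ℝ) / n| ≤ W ∧ |(n : ℝ) * (q' * α - p')| ≤ W ∧
      κ ≤ V ∧ V ≤ 1 ∧ 1 / 2 ≤ W ∧ V * W ≤ 3 / 2 := by
  have hnR : (1 : ℝ) ≤ n := by exact_mod_cast hn
  obtain ⟨r, hr1, hr2⟩ := Real.exists_rat_abs_sub_le_and_den_le α (n := n) hn
  set q : ℤ := (r.den : ℤ) with hq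
  set p : ℤ := r.num with hp
  have hqpos : (0 : ℝ) < (q : ℝ) := by
    rw [hq]; exact_mod_cast r.pos
  have hqn : (q : ℝ) ≤ n := by rw [hq]; exact_mod_cast hr2
  have hrr : (r : ℝ) = p / q := by
    rw [hp, hq]
    conv_lhs => rw [← Rat.num_div_den r]
    push_cast
    rfl
  have h1 : |(q : ℝ) * α - p| ≤ 1 / (n + 1) := by
    have h2 : (q : ℝ) * α - p = q * (α - r) := by
      rw [hrr]; field_simp
    rw [h2, abs_mul, abs_of_pos hqpos]
    have h3 : (q : ℝ) * (1 / ((n + 1) * r.den)) = 1 / (n + 1) := by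
      have : ((r.den : ℕ) : ℝ) = (q : ℝ) := by rw [hq]; push_cast; rfl
      rw [this]
      field_simp
    rw [← h3]
    exact mul_le_mul_of_nonneg_left hr1 hqpos.le
  set v1 : ℝ := (q : ℝ) / n with hv1
  set v2 : ℝ := (n : ℝ) * (q * α - p) with hv2
  have hv1p : |v1| ≤ 1 := by
    rw [hv1, abs_of_pos (by positivity), div_le_one (by linarith)]
    exact hqn
  have hv2p : |v2| ≤ 1 := by
    rw [hv2, abs_mul, abs_of_pos (by linarith : (0 : ℝ) < n)]
    calc (n : ℝ) * |q * α - p| ≤ n * (1 / (n + 1)) := by gcongr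
      _ ≤ 1 := by
        rw [mul_one_div, div_le_one (by linarith)]
        linarith
  set V : ℝ := max |v1| |v2| with hV
  have hV1 : V ≤ 1 := max_le hv1p hv2p
  have hV0 : 0 ≤ V := (abs_nonneg _).trans (le_max_left _ _)
  have hκV : κ ≤ V := by
    have h2 : κ ≤ (q : ℝ) * nd (q * α) := by
      have h3 := hκ r.den r.pos hr2
      have : ((r.den : ℕ) : ℝ) = (q : ℝ) := by rw [hq]; push_cast; rfl
      rw [this] at h3
      exact h3
    have h3 : nd (q * α) ≤ |(q : ℝ) * α - p| := nd_le _ p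
    have h4 : (q : ℝ) * |q * α - p| = |v1| * |v2| := by
      rw [hv1, hv2, abs_mul, abs_of_pos (by positivity : (0 : ℝ) < (q : ℝ) / n),
        abs_of_pos (by linarith : (0 : ℝ) < n)]
      field_simp
    calc κ ≤ (q : ℝ) * nd (q * α) := h2
      _ ≤ (q : ℝ) * |q * α - p| := by gcongr
      _ = |v1| * |v2| := h4
      _ ≤ V * 1 := mul_le_mul (le_max_left _ _) hv2p (abs_nonneg _) hV0
      _ = V := mul_one V
  have hcop : IsCoprime q p := by
    rw [Int.isCoprime_iff_gcd_eq_one, Int.gcd_comm, hq, hp]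
    exact r.reduced
  obtain ⟨s, t, hst⟩ := hcop
  set w01 : ℝ := ((-t : ℤ) : ℝ) / n with hw01
  set w02 : ℝ := (n : ℝ) * (((-t : ℤ) : ℝ) * α - (s : ℤ)) with hw02
  have hdet0 : v1 * w02 - v2 * w01 = -1 := by
    have h2 : (s : ℝ) * q + t * p = 1 := by exact_mod_cast hst
    rw [hv1, hv2, hw01, hw02]
    push_cast
    field_simp
    linarith
  set vv : ℝ := v1 ^ 2 + v2 ^ 2 with hvv
  set c : ℤ := round ((v1 * w01 + v2 * w02) / vv) with hc
  have hvvpos : 0 < vv := by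
    have : 0 < v1 := by rw [hv1]; positivity
    positivity
  have hvv2 : vv ≤ 2 := by
    have e1 : v1 ^ 2 ≤ 1 := by rw [← sq_abs]; exact pow_le_one₀ (abs_nonneg _) hv1p
    have e2 : v2 ^ 2 ≤ 1 := by rw [← sq_abs]; exact pow_le_one₀ (abs_nonneg _) hv2p
    rw [hvv]; linarith
  set w1 : ℝ := w01 - c * v1 with hw1
  set w2 : ℝ := w02 - c * v2 with hw2
  have hdet : v1 * w2 - v2 * w1 = -1 := by
    rw [hw1, hw2]
    linarith [hdet0, (by ring : v1 * (w02 - c * v2) - v2 * (w01 - c * v1) = v1 * w02 - v2 * w01)]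
  have hdot : |v1 * w1 + v2 * w2| ≤ vv / 2 := by
    have h2 : v1 * w1 + v2 * w2 = vv * ((v1 * w01 + v2 * w02) / vv - c) := by
      have h3 : vv * ((v1 * w01 + v2 * w02) / vv - c) = (v1 * w01 + v2 * w02) - vv * c := by
        field_simp
      rw [h3, hw1, hw2, hvv]
      ring
    rw [h2, abs_mul, abs_of_pos hvvpos]
    have h3 := abs_sub_round ((v1 * w01 + v2 * w02) / vv)
    rw [← hc] at h3
    calc vv * |(v1 * w01 + v2 * w02) / vv - c| ≤ vv * (1 / 2) := by gcongr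
      _ = vv / 2 := by ring
  set W : ℝ := max |w1| |w2| with hW
  have hW0 : 0 ≤ W := (abs_nonneg _).trans (le_max_left _ _)
  have hprod : vv * (w1 ^ 2 + w2 ^ 2) ≤ 2 := by
    have h2 : vv * (w1 ^ 2 + w2 ^ 2) = (v1 * w1 + v2 * w2) ^ 2 + (v1 * w2 - v2 * w1) ^ 2 := by
      rw [hvv]; ring
    rw [h2, hdet]
    have h3 : (v1 * w1 + v2 * w2) ^ 2 ≤ 1 := by
      rw [← sq_abs]
      exact pow_le_one₀ (abs_nonneg _) (hdot.trans (by linarith))
    linarith
  have hVsq : V ^ 2 ≤ vv := by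
    rcases max_choice |v1| |v2| with h | h
    · rw [hV, h, sq_abs, hvv]; nlinarith [sq_nonneg v2]
    · rw [hV, h, sq_abs, hvv]; nlinarith [sq_nonneg v1]
  have hWsq : W ^ 2 ≤ w1 ^ 2 + w2 ^ 2 := by
    rcases max_choice |w1| |w2| with h | h
    · rw [hW, h, sq_abs]; nlinarith [sq_nonneg w2]
    · rw [hW, h, sq_abs]; nlinarith [sq_nonneg w1]
  have hVW : V * W ≤ 3 / 2 := by
    have h2 : (V * W) ^ 2 ≤ 2 := by
      calc (V * W) ^ 2 = V ^ 2 * W ^ 2 := by ring
        _ ≤ vv * (w1 ^ 2 + w2 ^ 2) := mul_le_mul hVsq hWsq (by positivity) hvvpos.le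
        _ ≤ 2 := hprod
    by_contra h3
    push Not at h3
    have : (3 / 2 : ℝ) ^ 2 < (V * W) ^ 2 := by gcongr
    linarith
  have hWhalf : 1 / 2 ≤ W := by
    have h2 : |v1 * w2 - v2 * w1| = 1 := by rw [hdet]; norm_num
    have h3 : |v1 * w2 - v2 * w1| ≤ 1 * W + 1 * W := by
      refine (abs_sub _ _).trans ?_
      rw [abs_mul, abs_mul]
      exact add_le_add (mul_le_mul hv1p (le_max_right _ _) (abs_nonneg _) zero_le_one)
        (mul_le_mul hv2p (le_max_left _ _) (abs_nonneg _) zero_le_one)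
    linarith
  refine ⟨q, p, -t - c * q, s - c * p, V, W, ?_, le_max_left _ _, le_max_right _ _, ?_, ?_, hκV,
    hV1, hWhalf, hVW⟩
  · linarith [hst, (by ring : q * (s - c * p) - (-t - c * q) * p = s * q + t * p)]
  · have h2 : (((-t - c * q : ℤ)) : ℝ) / n = w1 := by
      rw [hw1, hw01, hv1]; push_cast; ring
    rw [h2]
    exact le_max_left _ _
  · have h2 : (n : ℝ) * (((-t - c * q : ℤ) : ℝ) * α - ((s - c * p : ℤ) : ℝ)) = w2 := by
      rw [hw2, hw02, hv2]; push_cast; ring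
    rw [h2]
    exact le_max_right _ _

lemma floor_half {y : ℝ} (hy : 1 ≤ y) : y / 2 ≤ (⌊y⌋₊ : ℝ) := by
  have h1 : 1 ≤ ⌊y⌋₊ := Nat.le_floor (by exact_mod_cast hy)
  have h2 : y < (⌊y⌋₊ : ℝ) + 1 := Nat.lt_floor_add_one _
  have h3 : (1 : ℝ) ≤ (⌊y⌋₊ : ℝ) := by exact_mod_cast h1
  linarith

lemma fam {α γ κ : ℝ} {l ι P D : ℕ} {e Xs Ys : ℤ} (he : 1 ≤ e)
    (hg : ∀ p : ℤ, Prime p → p ∣ e → p ∣ Xs → p ∣ Ys → False)
    (hκ0 : 0 < κ)
    (hκ : ∀ q : ℕ, 1 ≤ q → q ≤ 4 ^ l → κ ≤ q * nd (q * α))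
    (hD : 3 / (2 * κ) * (3 * e * 4 ^ ι + |(Xs : ℝ)| + 4 ^ l * |(Xs : ℝ) * α - Ys - e * γ|) < 2 ^ D)
    (hPD : 32 * D ≤ P) (hP : 1 ≤ P) (hI : 64 * (P : ℝ) + 1 ≤ κ * 4 ^ ι / 15) :
    ∃ F : Finset (ℤ × ℤ), (∀ u ∈ F, (4 : ℝ) ^ (l + ι) ≤ u.1 ∧ (u.1 : ℝ) < 4 ^ (l + ι + 1) ∧
      (4 : ℝ) ^ ι / 4 ≤ 4 ^ l * (u.1 * α - u.2 - γ) ∧ 4 ^ l * (u.1 * α - u.2 - γ) < (4 : ℝ) ^ ι ∧
      IsCoprime (e * u.1 - Xs) (e * u.2 - Ys)) ∧ (16 : ℝ) ^ ι / 4800 ≤ F.card := by
  classical
  obtain ⟨q, p, q', p', V, W, hdet, hv1, hv2, hw1, hw2, hκV, hV1, hW2, hVW⟩ :=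
    basis (α := α) (κ := κ) (n := 4 ^ l) (Nat.one_le_pow _ _ (by norm_num)) hκ0 hκ
  push_cast at hv1 hv2 hw1 hw2
  set n : ℝ := (4 : ℝ) ^ l with hn
  set I : ℝ := (4 : ℝ) ^ ι with hI'
  have hnpos : 0 < n := by positivity
  have hn1 : 1 ≤ n := one_le_pow₀ (by norm_num)
  have hIpos : 0 < I := by positivity
  have hVpos : 0 < V := by linarith
  have hWpos : 0 < W := by linarith
  have hdetR : (q : ℝ) * p' - q' * p = 1 := by exact_mod_cast hdet
  set v1 : ℝ := (q : ℝ) / n with hv1d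
  set v2 : ℝ := n * ((q : ℝ) * α - p) with hv2d
  set w1 : ℝ := (q' : ℝ) / n with hw1d
  set w2 : ℝ := n * ((q' : ℝ) * α - p') with hw2d
  have hdet' : v1 * w2 - v2 * w1 = -1 := by
    rw [hv1d, hv2d, hw1d, hw2d]
    field_simp
    linarith
  have hWub : W ≤ 3 / (2 * κ) := by
    rw [le_div_iff₀ (by positivity)]
    have : κ * W ≤ V * W := by gcongr
    linarith
  -- the box
  set A : ℕ := ⌊I / (10 * V)⌋₊ with hA
  set B : ℕ := ⌊I / (10 * W)⌋₊ with hB
  have hA0 : I / 10 ≤ I / (10 * V) := by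
    rw [div_le_div_iff₀ (by norm_num) (by positivity)]
    nlinarith
  have hB0 : κ * I / 15 ≤ I / (10 * W) := by
    rw [div_le_div_iff₀ (by norm_num) (by positivity)]
    rw [le_div_iff₀ (by positivity)] at hWub
    nlinarith
  have hκ1 : κ ≤ 1 := hκV.trans hV1
  have hA00 : κ * I / 15 ≤ I / (10 * V) := by
    refine le_trans ?_ hA0
    nlinarith
  have hP0 : (0 : ℝ) ≤ P := Nat.cast_nonneg P
  have hA64 : 64 * P ≤ A := by
    rw [hA]
    apply Nat.le_floor
    push_cast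
    linarith
  have hB64 : 64 * P ≤ B := by
    rw [hB]
    apply Nat.le_floor
    push_cast
    linarith
  have hAV : (A : ℝ) * V ≤ I / 10 := by
    have h1 : (A : ℝ) ≤ I / (10 * V) := Nat.floor_le (by positivity)
    calc (A : ℝ) * V ≤ I / (10 * V) * V := by gcongr
      _ = I / 10 := by field_simp
  have hBW : (B : ℝ) * W ≤ I / 10 := by
    have h1 : (B : ℝ) ≤ I / (10 * W) := Nat.floor_le (by positivity)
    calc (B : ℝ) * W ≤ I / (10 * W) * W := by gcongr
      _ = I / 10 := by field_simp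
  have hAB : I ^ 2 / 600 ≤ (A : ℝ) * B := by
    have h1 : I / (10 * V) / 2 ≤ (A : ℝ) := floor_half (by linarith)
    have h2 : I / (10 * W) / 2 ≤ (B : ℝ) := floor_half (by linarith)
    calc I ^ 2 / 600 ≤ I / (10 * V) / 2 * (I / (10 * W) / 2) := by
          have : I / (10 * V) / 2 * (I / (10 * W) / 2) = I ^ 2 / (400 * (V * W)) := by
            field_simp; norm_num
          rw [this, div_le_div_iff₀ (by norm_num) (by positivity)]
          have : 0 < I ^ 2 := by positivity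
          nlinarith
      _ ≤ A * B := by gcongr
  -- the centre of the box
  set X0 : ℝ := 2 * I with hX0
  set Y0 : ℝ := I / 2 + n * γ with hY0
  set s : ℝ := -(X0 * w2 - Y0 * w1) with hs
  set t : ℝ := -(v1 * Y0 - v2 * X0) with ht
  have hs1 : s * v1 + t * w1 = X0 := by
    have : s * v1 + t * w1 = X0 * -(v1 * w2 - v2 * w1) := by rw [hs, ht]; ring
    rw [this, hdet']; ring
  have hs2 : s * v2 + t * w2 = Y0 := by
    have : s * v2 + t * w2 = Y0 * -(v1 * w2 - v2 * w1) := by rw [hs, ht]; ring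
    rw [this, hdet']; ring
  set i0 : ℤ := ⌈s⌉ with hi0
  set j0 : ℤ := ⌈t⌉ with hj0
  have hbox : ∀ i j : ℤ, i0 ≤ i → i < i0 + A → j0 ≤ j → j < j0 + B →
      |i * v1 + j * w1 - X0| ≤ I / 4 ∧ |i * v2 + j * w2 - Y0| ≤ I / 4 := by
    intro i j hi1 hi2 hj1 hj2
    have e1 : |(i : ℝ) - s| ≤ A := by
      have f1 : s ≤ i0 := Int.le_ceil _
      have f2 : (i0 : ℝ) < s + 1 := Int.ceil_lt_add_one _
      have f3 : (i0 : ℝ) ≤ i := by exact_mod_cast hi1
      have f4 : (i : ℝ) + 1 ≤ i0 + A := by exact_mod_cast hi2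
      rw [abs_le]
      constructor
      · have : (0 : ℝ) ≤ A := Nat.cast_nonneg A
        linarith
      · linarith
    have e2 : |(j : ℝ) - t| ≤ B := by
      have f1 : t ≤ j0 := Int.le_ceil _
      have f2 : (j0 : ℝ) < t + 1 := Int.ceil_lt_add_one _
      have f3 : (j0 : ℝ) ≤ j := by exact_mod_cast hj1
      have f4 : (j : ℝ) + 1 ≤ j0 + B := by exact_mod_cast hj2
      rw [abs_le]
      constructor
      · have : (0 : ℝ) ≤ B := Nat.cast_nonneg B
        linarith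
      · linarith
    constructor
    · have : i * v1 + j * w1 - X0 = (i - s) * v1 + (j - t) * w1 := by rw [← hs1]; ring
      rw [this]
      calc |(i - s) * v1 + (j - t) * w1| ≤ |(i - s) * v1| + |(j - t) * w1| := abs_add_le _ _
        _ ≤ A * V + B * W := add_le_add (amul e1 hv1) (amul e2 hw1)
        _ ≤ I / 4 := by linarith
    · have : i * v2 + j * w2 - Y0 = (i - s) * v2 + (j - t) * w2 := by rw [← hs2]; ring
      rw [this]
      calc |(i - s) * v2 + (j - t) * w2| ≤ |(i - s) * v2| + |(j - t) * w2| := abs_add_le _ _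
        _ ≤ A * V + B * W := add_le_add (amul e1 hv2) (amul e2 hw2)
        _ ≤ I / 4 := by linarith
  -- coordinates
  set x : ℤ × ℤ → ℤ := fun u => u.1 * q + u.2 * q' with hx
  set y : ℤ × ℤ → ℤ := fun u => u.1 * p + u.2 * p' with hy
  have hxn : ∀ u : ℤ × ℤ, (x u : ℝ) / n = u.1 * v1 + u.2 * w1 := by
    intro u
    simp only [hx, hv1d, hw1d]
    push_cast
    field_simp
  have hyn : ∀ u : ℤ × ℤ, n * ((x u : ℝ) * α - y u - γ) = u.1 * v2 + u.2 * w2 - n * γ := by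
    intro u
    simp only [hx, hy, hv2d, hw2d]
    push_cast
    ring
  set a : ℤ := Xs * p' - Ys * q' with ha
  set b : ℤ := -Xs * p + Ys * q with hb
  have hXs : Xs = a * q + b * q' := by
    have : a * q + b * q' = Xs * (q * p' - q' * p) := by rw [ha, hb]; ring
    rw [this, hdet, mul_one]
  have hYs : Ys = a * p + b * p' := by
    have : a * p + b * p' = Ys * (q * p' - q' * p) := by rw [ha, hb]; ring
    rw [this, hdet, mul_one]
  have hB1 : 1 ≤ B := by omega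
  have hDi : ∀ i : ℤ, i0 ≤ i → i < i0 + A → |((e * i - a : ℤ) : ℝ)| < 2 ^ D := by
    intro i hi1 hi2
    have hb0 := hbox i j0 hi1 hi2 le_rfl (by omega)
    set u : ℤ × ℤ := (i, j0) with hu
    have g1 : |(x u : ℝ) / n - X0| ≤ I / 4 := by rw [hxn]; exact hb0.1
    have g2 : |n * ((x u : ℝ) * α - y u - γ) - I / 2| ≤ I / 4 := by
      rw [hyn]
      have : (u.1 : ℝ) * v2 + u.2 * w2 - n * γ - I / 2 = u.1 * v2 + u.2 * w2 - Y0 := by
        rw [hY0]; ring
      rw [this]; exact hb0.2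
    have g3 : ((e * i - a : ℤ) : ℝ) = n * ((e * x u - Xs : ℝ) * α - (e * y u - Ys)) * w1
        - (e * x u - Xs) / n * w2 := by
      have h1 : ((e * i - a : ℤ) : ℝ) = (e * x u - Xs : ℝ) * p' - (e * y u - Ys) * q' := by
        have h2 : e * i - a = (e * x u - Xs) * p' - (e * y u - Ys) * q' := by
          simp only [hx, hy, hu, ha]
          have : (e * (i * q + j0 * q') - Xs) * p' - (e * (i * p + j0 * p') - Ys) * q'
              = e * i * (q * p' - q' * p) - (Xs * p' - Ys * q') := by ring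
          rw [this, hdet]
          ring
        rw [h2]; push_cast; ring
      rw [h1, hw1d, hw2d]
      field_simp
      ring
    have g4 : |(e * x u - Xs : ℝ) / n| ≤ 9 / 4 * e * I + |(Xs : ℝ)| := by
      have h1 : (e * x u - Xs : ℝ) / n = e * (x u / n) - Xs / n := by field_simp
      rw [h1]
      refine (abs_sub _ _).trans ?_
      have heR : (0 : ℝ) ≤ e := by exact_mod_cast (by omega : (0 : ℤ) ≤ e)
      have h2 : |(x u : ℝ) / n| ≤ 9 / 4 * I := by
        rw [abs_le] at g1 ⊢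
        rw [hX0] at g1
        constructor <;> linarith [g1.1, g1.2]
      have h3 : |(Xs : ℝ) / n| ≤ |(Xs : ℝ)| := by
        rw [abs_div, abs_of_pos hnpos]
        exact div_le_self (abs_nonneg _) hn1
      calc |(e : ℝ) * ((x u : ℝ) / n)| + |(Xs : ℝ) / n| ≤ e * (9 / 4 * I) + |(Xs : ℝ)| :=
            add_le_add (amul (abs_of_nonneg heR).le h2) h3
        _ = 9 / 4 * e * I + |(Xs : ℝ)| := by ring
    have g5 : |n * ((e * x u - Xs : ℝ) * α - (e * y u - Ys))|
        ≤ 3 / 4 * e * I + n * |(Xs : ℝ) * α - Ys - e * γ| := by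
      have h1 : n * ((e * x u - Xs : ℝ) * α - (e * y u - Ys))
          = e * (n * ((x u : ℝ) * α - y u - γ)) - n * ((Xs : ℝ) * α - Ys - e * γ) := by ring
      rw [h1]
      refine (abs_sub _ _).trans ?_
      have heR : (0 : ℝ) ≤ e := by exact_mod_cast (by omega : (0 : ℤ) ≤ e)
      have h2 : |n * ((x u : ℝ) * α - y u - γ)| ≤ 3 / 4 * I := by
        rw [abs_le] at g2 ⊢
        constructor <;> linarith [g2.1, g2.2]
      calc |(e : ℝ) * (n * ((x u : ℝ) * α - y u - γ))| + |n * ((Xs : ℝ) * α - Ys - e * γ)|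
          ≤ e * (3 / 4 * I) + n * |(Xs : ℝ) * α - Ys - e * γ| :=
            add_le_add (amul (abs_of_nonneg heR).le h2) (amul (abs_of_pos hnpos).le le_rfl)
        _ = 3 / 4 * e * I + n * |(Xs : ℝ) * α - Ys - e * γ| := by ring
    refine lt_of_le_of_lt ?_ hD
    rw [g3]
    refine (abs_sub _ _).trans ?_
    calc _ ≤ (3 / 4 * e * I + n * |(Xs : ℝ) * α - Ys - e * γ|) * W
          + (9 / 4 * e * I + |(Xs : ℝ)|) * W := add_le_add (amul g5 hw1) (amul g4 hw2)
      _ = W * (3 * e * I + |(Xs : ℝ)| + n * |(Xs : ℝ) * α - Ys - e * γ|) := by ring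
      _ ≤ _ := by
        have heR : (0 : ℝ) ≤ e := by exact_mod_cast (by omega : (0 : ℤ) ≤ e)
        gcongr
  have hcount := count (e := e) (a := a) (b := b) (i0 := i0) (j0 := j0) (A := A) (B := B)
    (P := P) (D := D) he (by
      intro r hr h1 h2 h3
      refine hg r hr h1 ?_ ?_
      · rw [hXs]; exact dvd_add (h2.mul_right _) (h3.mul_right _)
      · rw [hYs]; exact dvd_add (h2.mul_right _) (h3.mul_right _)) hDi hPD hP hA64 hB64
  set G := ((Finset.Ico i0 (i0 + (A : ℤ))) ×ˢ (Finset.Ico j0 (j0 + (B : ℤ)))).filter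
      (fun u : ℤ × ℤ => IsCoprime (e * u.1 - a) (e * u.2 - b)) with hG
  refine ⟨G.image (fun u => (x u, y u)), ?_, ?_⟩
  · intro z hz
    rw [Finset.mem_image] at hz
    obtain ⟨u, hu, rfl⟩ := hz
    rw [hG, Finset.mem_filter, Finset.mem_product, Finset.mem_Ico, Finset.mem_Ico] at hu
    obtain ⟨⟨⟨hu1, hu2⟩, ⟨hu3, hu4⟩⟩, hu5⟩ := hu
    have hb0 := hbox u.1 u.2 hu1 hu2 hu3 hu4
    have g1 : |(x u : ℝ) / n - X0| ≤ I / 4 := by rw [hxn]; exact hb0.1
    have g2 : |n * ((x u : ℝ) * α - y u - γ) - I / 2| ≤ I / 4 := by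
      rw [hyn]
      have : (u.1 : ℝ) * v2 + u.2 * w2 - n * γ - I / 2 = u.1 * v2 + u.2 * w2 - Y0 := by
        rw [hY0]; ring
      rw [this]; exact hb0.2
    rw [abs_le, hX0] at g1
    rw [abs_le] at g2
    have e1 : (x u : ℝ) = n * (x u / n) := by field_simp
    refine ⟨?_, ?_, ?_, ?_, ?_⟩
    · show (4 : ℝ) ^ (l + ι) ≤ (x u : ℝ)
      rw [pow_add, ← hn, ← hI', e1]
      gcongr
      linarith [g1.1]
    · show (x u : ℝ) < (4 : ℝ) ^ (l + ι + 1)
      rw [pow_succ, pow_add, ← hn, ← hI', e1, mul_assoc]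
      gcongr
      linarith [g1.2]
    · show I / 4 ≤ n * ((x u : ℝ) * α - y u - γ)
      linarith [g2.1]
    · show n * ((x u : ℝ) * α - y u - γ) < I
      linarith [g2.2]
    · show IsCoprime (e * x u - Xs) (e * y u - Ys)
      obtain ⟨c, d, hcd⟩ := hu5
      refine ⟨c * p' - d * p, -c * q' + d * q, ?_⟩
      rw [← hcd]
      simp only [hx, hy]
      rw [hXs, hYs]
      have : (c * p' - d * p) * (e * (u.1 * q + u.2 * q') - (a * q + b * q'))
          + (-c * q' + d * q) * (e * (u.1 * p + u.2 * p') - (a * p + b * p'))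
          = (c * (e * u.1 - a) + d * (e * u.2 - b)) * (q * p' - q' * p) := by ring
      rw [this, hdet, mul_one]
  · rw [Finset.card_image_of_injective]
    · refine le_trans ?_ hcount
      have h1 : (16 : ℝ) ^ ι = I ^ 2 := by
        rw [hI', ← pow_mul, mul_comm, pow_mul]; norm_num
      rw [h1]
      linarith
    · intro u u' huu
      simp only [Prod.mk.injEq, hx, hy] at huu
      obtain ⟨h1, h2⟩ := huu
      have e1 : u.1 = u'.1 := by
        have f1 : (u.1 * q + u.2 * q') * p' - (u.1 * p + u.2 * p') * q'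
            = u.1 * (q * p' - q' * p) := by ring
        have f2 : (u'.1 * q + u'.2 * q') * p' - (u'.1 * p + u'.2 * p') * q'
            = u'.1 * (q * p' - q' * p) := by ring
        rw [hdet, mul_one] at f1 f2
        rw [← f1, ← f2, h1, h2]
      have e2 : u.2 = u'.2 := by
        have f1 : -(u.1 * q + u.2 * q') * p + (u.1 * p + u.2 * p') * q
            = u.2 * (q * p' - q' * p) := by ring
        have f2 : -(u'.1 * q + u'.2 * q') * p + (u'.1 * p + u'.2 * p') * q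
            = u'.2 * (q * p' - q' * p) := by ring
        rw [hdet, mul_one] at f1 f2
        rw [← f1, ← f2, h1, h2]
      exact Prod.ext e1 e2

end Pool.Agent.V7H27.SH
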