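import Mathlib
import Pool.Agent.V7H27.SH.Fam
import Pool.Agent.V7H27.SH.Cell2

/-! The near relations between lattice points of an affine lattice. -/

namespace Pool.Agent.V7H27.SH

open Real
open Pool.Agent.V7H27.LC

lemma center {α γ : ℝ} {E : ℕ} {X1 δ : ℝ} (hE : 1 ≤ E) (hX1 : 0 ≤ X1) (hδ : 0 ≤ δ)
    (hsep : ∀ X Y : ℤ, |(X : ℝ)| ≤ 2 * E * X1 → |(X : ℝ) * α - Y| ≤ 2 * E * δ → X = 0 ∧ Y = 0) :
    ∃ e Xs Ys : ℤ, 1 ≤ e ∧ e ≤ E ∧ |(Xs : ℝ)| ≤ X1 ∧ |(Xs : ℝ) * α - Ys - e * γ| ≤ δ + |γ| ∧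
      (∀ p : ℤ, Prime p → p ∣ e → p ∣ Xs → p ∣ Ys → False) ∧
      ∀ X Y e' : ℤ, |(X : ℝ)| ≤ X1 → |(e' : ℝ)| ≤ E → |(X : ℝ) * α - Y - e' * γ| ≤ δ →
        e * X = e' * Xs ∧ e * Y = e' * Ys := by
  classical
  have hER : (1 : ℝ) ≤ E := by exact_mod_cast hE
  by_cases h : ∃ k : ℕ, 1 ≤ k ∧ k ≤ E ∧ ∃ X Y : ℤ, |(X : ℝ)| ≤ X1 ∧
      |(X : ℝ) * α - Y - k * γ| ≤ δ
  · obtain ⟨hk1, hkE, Xs, Ys, hXs, hYs⟩ := Nat.find_spec h
    set k : ℕ := Nat.find h with hk
    have hmin : ∀ m < k, ¬ (1 ≤ m ∧ m ≤ E ∧ ∃ X Y : ℤ, |(X : ℝ)| ≤ X1 ∧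
      |(X : ℝ) * α - Y - m * γ| ≤ δ) := fun m hm => Nat.find_min h hm
    have hkR : (1 : ℝ) ≤ k := by exact_mod_cast hk1
    have hkER : (k : ℝ) ≤ E := by exact_mod_cast hkE
    refine ⟨k, Xs, Ys, by exact_mod_cast hk1, by exact_mod_cast hkE, hXs, ?_, ?_, ?_⟩
    · push_cast
      have := abs_nonneg γ
      linarith
    · intro p hp h1 h2 h3
      have hp2 : 2 ≤ p.natAbs := (Int.prime_iff_natAbs_prime.1 hp).two_le
      set P : ℤ := (p.natAbs : ℤ) with hP
      have hdvd : ∀ z : ℤ, p ∣ z → P ∣ z := fun z hz => Int.natAbs_dvd.2 hz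
      obtain ⟨k', hk'⟩ := hdvd _ h1
      obtain ⟨X', hX'⟩ := hdvd _ h2
      obtain ⟨Y', hY'⟩ := hdvd _ h3
      have hP2 : (2 : ℤ) ≤ P := by
        rw [hP]
        exact Int.ofNat_le.2 hp2
      have hk'pos : 1 ≤ k' := by
        by_contra hcon
        push Not at hcon
        have : P * k' ≤ 0 := mul_nonpos_of_nonneg_of_nonpos (by omega) (by omega)
        omega
      obtain ⟨m, rfl⟩ : ∃ m : ℕ, k' = m := ⟨k'.toNat, by omega⟩
      have hPR : (2 : ℝ) ≤ (P : ℝ) := by exact_mod_cast hP2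
      have hkm : (k : ℝ) = P * m := by exact_mod_cast hk'
      have hXR : (Xs : ℝ) = P * X' := by exact_mod_cast hX'
      have hYR : (Ys : ℝ) = P * Y' := by exact_mod_cast hY'
      refine hmin m ?_ ⟨by omega, ?_, X', Y', ?_, ?_⟩
      · have h4 : (k : ℤ) = P * m := hk'
        have h5 : (2 : ℤ) * m ≤ P * m := by gcongr
        omega
      · have h4 : (k : ℤ) = P * m := hk'
        have h5 : (2 : ℤ) * m ≤ P * m := by gcongr
        omega
      · refine le_trans ?_ hXs
        rw [hXR, abs_mul, abs_of_nonneg (by linarith : (0 : ℝ) ≤ P)]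
        have := abs_nonneg (X' : ℝ)
        nlinarith
      · refine le_trans ?_ hYs
        have h4 : (Xs : ℝ) * α - Ys - k * γ = P * ((X' : ℝ) * α - Y' - m * γ) := by
          rw [hXR, hYR, hkm]; ring
        rw [h4, abs_mul, abs_of_nonneg (by linarith : (0 : ℝ) ≤ P)]
        have := abs_nonneg ((X' : ℝ) * α - Y' - m * γ)
        nlinarith
    · intro X Y e' hX he' hY
      have h1 := hsep (k * X - e' * Xs) (k * Y - e' * Ys) (by
        push_cast
        refine (abs_sub _ _).trans ?_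
        have e1 : |(k : ℝ) * X| ≤ E * X1 := by
          refine amul ?_ hX
          rwa [abs_of_nonneg (by linarith)]
        have e2 : |(e' : ℝ) * Xs| ≤ E * X1 := amul he' hXs
        linarith) (by
        have h2 : ((k * X - e' * Xs : ℤ) : ℝ) * α - ((k * Y - e' * Ys : ℤ) : ℝ)
            = k * ((X : ℝ) * α - Y - e' * γ) - e' * ((Xs : ℝ) * α - Ys - k * γ) := by
          push_cast; ring
        rw [h2]
        refine (abs_sub _ _).trans ?_
        have e1 : |(k : ℝ) * ((X : ℝ) * α - Y - e' * γ)| ≤ E * δ := by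
          refine amul ?_ hY
          rwa [abs_of_nonneg (by linarith)]
        have e2 : |(e' : ℝ) * ((Xs : ℝ) * α - Ys - k * γ)| ≤ E * δ := amul he' hYs
        linarith)
      exact ⟨by linarith [h1.1], by linarith [h1.2]⟩
  · have hno : ∀ X Y e' : ℤ, |(X : ℝ)| ≤ X1 → |(e' : ℝ)| ≤ E →
        |(X : ℝ) * α - Y - e' * γ| ≤ δ → ¬ 1 ≤ e' := by
      intro X Y e' hX he' hY h1
      obtain ⟨m, rfl⟩ : ∃ m : ℕ, e' = m := ⟨e'.toNat, by omega⟩
      refine h ⟨m, by omega, ?_, X, Y, hX, ?_⟩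
      · have h2 : ((m : ℕ) : ℝ) ≤ E := by
          have := (le_abs_self _).trans he'
          push_cast at this
          exact this
        exact_mod_cast h2
      · push_cast at hY
        exact hY
    refine ⟨1, 0, 0, le_rfl, by exact_mod_cast hE, by simpa using hX1, ?_, ?_, ?_⟩
    · simp only [Int.cast_zero, zero_mul, sub_self, Int.cast_one, one_mul, zero_sub, abs_neg]
      linarith
    · intro p hp h1 _ _
      exact hp.not_isUnit (isUnit_of_dvd_one h1)
    · intro X Y e' hX he' hY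
      have h1 := hno X Y e' hX he' hY
      have h2 := hno (-X) (-Y) (-e') (by push_cast; rwa [abs_neg]) (by push_cast; rwa [abs_neg])
        (by
          push_cast
          have : -(X : ℝ) * α - -Y - -e' * γ = -((X : ℝ) * α - Y - e' * γ) := by ring
          rw [this, abs_neg]; exact hY)
      have h3 : e' = 0 := by omega
      subst h3
      have h4 := hsep X Y (hX.trans (by nlinarith)) (by
        have : (X : ℝ) * α - Y - (0 : ℤ) * γ = (X : ℝ) * α - Y := by simp
        rw [this] at hY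
        exact hY.trans (by nlinarith))
      simp [h4.1, h4.2]

lemma prim {a b c d : ℤ} (h1 : IsCoprime a b) (h2 : IsCoprime c d) (h : a * d = b * c) :
    (a = c ∧ b = d) ∨ (a = -c ∧ b = -d) := by
  obtain ⟨s, t, hst⟩ := h1
  have hc : c = a * (s * c + t * d) := by
    calc c = c * (s * a + t * b) := by rw [hst, mul_one]
      _ = s * a * c + t * (b * c) := by ring
      _ = s * a * c + t * (a * d) := by rw [h]
      _ = a * (s * c + t * d) := by ring
  have hd : d = b * (s * c + t * d) := by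
    calc d = d * (s * a + t * b) := by rw [hst, mul_one]
      _ = s * (a * d) + t * b * d := by ring
      _ = s * (b * c) + t * b * d := by rw [h]
      _ = b * (s * c + t * d) := by ring
  set k := s * c + t * d with hk
  have hu : IsUnit k := h2.isUnit_of_dvd' ⟨a, by rw [mul_comm k a]; exact hc⟩
    ⟨b, by rw [mul_comm k b]; exact hd⟩
  rcases Int.isUnit_iff.1 hu with h3 | h3
  · left
    rw [h3, mul_one] at hc hd
    exact ⟨hc.symm, hd.symm⟩
  · right
    rw [h3] at hc hd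
    constructor <;> omega

end Pool.Agent.V7H27.SH
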