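import Mathlib
import Pool.Agent.V7H27.SH.Center

/-! One block of scales. -/

namespace Pool.Agent.V7H27.SH

open Real MeasureTheory Set
open Pool.Agent.V7H27.LC

lemma block {α γ ψ : ℝ} {a M k : ℕ} (hM : 6 ≤ M) (hk : k + 3 * ((12 * a + 57) * M) ≤ 4 ^ M)
    (hγ : |γ| ≤ (4 : ℝ) ^ M) (hψ1 : 1 / (4 : ℝ) ^ M ≤ ψ) (hψ2 : ψ * (M : ℝ) ^ 2 ≤ 1)
    (hκ : ∀ q : ℕ, 1 ≤ q → q ≤ 4 ^ (k + 3 * ((12 * a + 57) * M)) →
      1 / (4 : ℝ) ^ (a * M) ≤ q * nd (q * α)) :
    ∃ (S : Finset (Σ _ : ℕ × ℕ, ℤ × ℤ)) (x : (Σ _ : ℕ × ℕ, ℤ × ℤ) → ℤ)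
      (ρ : (Σ _ : ℕ × ℕ, ℤ × ℤ) → ℝ),
      (∀ s ∈ S, (4 : ℝ) ^ (k + (12 * a + 57) * M) ≤ x s ∧
        (x s : ℝ) < 4 ^ (k + 3 * ((12 * a + 57) * M))) ∧
      (∀ s ∈ S, 1 / (4 : ℝ) ^ ((2 * a + 10) * M) ≤ ρ s) ∧
      (∀ s ∈ S, x s * nd (x s * α - γ) * (4 * ρ s) < ψ) ∧
      (∀ s ∈ S, x s / (4 : ℝ) ^ (k + 3 * ((12 * a + 57) * M)) ≤ ρ s) ∧
      ∀ c t : ℝ, volume.real ({β | ∀ s ∈ S, ρ s ≤ nd (x s * β - t)} ∩ Ico c (c + 1 / (4 : ℝ) ^ k))
        ≤ (1 - (M : ℝ) ^ 2 * ψ / 10066329600) * (1 / (4 : ℝ) ^ k) := by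
  classical
  set W : ℝ := (4 : ℝ) ^ M with hW
  set K : ℝ := (4 : ℝ) ^ k with hK
  set lam : ℕ := 12 * a + 57 with hlam
  have e4 : ∀ j : ℕ, (4 : ℝ) ^ (j * M) = W ^ j := by
    intro j; rw [hW, ← pow_mul, mul_comm]
  have hWbig : (4096 : ℝ) ≤ W := by
    calc (4096 : ℝ) = 4 ^ 6 := by norm_num
      _ ≤ 4 ^ M := pow_le_pow_right₀ (by norm_num) hM
  have hW1 : (1 : ℝ) ≤ W := by linarith
  have hW0 : (0 : ℝ) < W := by linarith
  have hK0 : (0 : ℝ) < K := by positivity
  have hK1 : (1 : ℝ) ≤ K := one_le_pow₀ (by norm_num)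
  have mono : ∀ {i j : ℕ}, i ≤ j → W ^ i ≤ W ^ j := fun h => pow_le_pow_right₀ hW1 h
  have eL : (4 : ℝ) ^ (k + lam * M) = K * W ^ lam := by rw [pow_add, e4]
  have e3L : (4 : ℝ) ^ (k + 3 * (lam * M)) = K * W ^ (3 * lam) := by
    rw [pow_add, ← mul_assoc, e4]
  have hψ0 : 0 < ψ := lt_of_lt_of_le (by positivity) hψ1
  have hMR : (6 : ℝ) ≤ M := by exact_mod_cast hM
  have hψle : ψ ≤ 1 := by nlinarith
  -- the centre
  set E : ℕ := 2 * 4 ^ ((2 * a + 10) * M) with hE
  have hER : (E : ℝ) = 2 * W ^ (2 * a + 10) := by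
    rw [hE]; push_cast; rw [e4]
  set X1 : ℝ := W ^ (4 * a + 20) * K with hX1
  set δ : ℝ := 2 * W ^ (2 * a + 10) * W ^ (a + 4) / (K * W ^ lam) with hδ
  have hδ0 : 0 ≤ δ := by positivity
  have hδ1 : δ ≤ 1 := by
    rw [hδ, div_le_one (by positivity)]
    calc 2 * W ^ (2 * a + 10) * W ^ (a + 4) ≤ W * W ^ (2 * a + 10) * W ^ (a + 4) := by
          gcongr; linarith
      _ = W ^ (3 * a + 15) := by ring
      _ ≤ W ^ lam := mono (by omega)
      _ ≤ K * W ^ lam := le_mul_of_one_le_left (by positivity) hK1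
  have hE1 : 1 ≤ E := by
    rw [hE]
    have : 1 ≤ 4 ^ ((2 * a + 10) * M) := Nat.one_le_pow _ _ (by norm_num)
    omega
  have hsep0 : ∀ X Y : ℤ, |(X : ℝ)| ≤ 2 * E * X1 → |(X : ℝ) * α - Y| ≤ 2 * E * δ →
      X = 0 ∧ Y = 0 := by
    intro X Y hX hY
    rw [hER] at hX hY
    have hY' : |(X : ℝ) * α - Y| ≤ 8 * W ^ (5 * a + 24) / (K * W ^ lam) := by
      refine hY.trans (le_of_eq ?_)
      rw [hδ]; ring
    have hX' : |(X : ℝ)| ≤ 4 * W ^ (6 * a + 30) * K := by
      refine hX.trans (le_of_eq ?_)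
      rw [hX1]; ring
    have hX0 : X = 0 := by
      by_contra hne
      have h1 : ∃ q : ℕ, 1 ≤ q ∧ (q : ℝ) = |(X : ℝ)| ∧ nd (q * α) ≤ |(X : ℝ) * α - Y| := by
        rcases lt_or_gt_of_ne hne with h | h
        · refine ⟨(-X).toNat, by omega, ?_, ?_⟩
          · have : (((-X).toNat : ℕ) : ℝ) = ((-X : ℤ) : ℝ) := by
              have h2 : (((-X).toNat : ℕ) : ℤ) = -X := Int.toNat_of_nonneg (by omega)
              exact_mod_cast h2
            rw [this]; push_cast
            rw [abs_of_neg (by exact_mod_cast h)]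
          · have : (((-X).toNat : ℕ) : ℝ) = ((-X : ℤ) : ℝ) := by
              have h2 : (((-X).toNat : ℕ) : ℤ) = -X := Int.toNat_of_nonneg (by omega)
              exact_mod_cast h2
            rw [this]
            refine (nd_le _ (-Y)).trans (le_of_eq ?_)
            push_cast
            rw [← abs_neg]
            congr 1
            ring
        · refine ⟨X.toNat, by omega, ?_, ?_⟩
          · have : ((X.toNat : ℕ) : ℝ) = (X : ℝ) := by
              have h2 : ((X.toNat : ℕ) : ℤ) = X := Int.toNat_of_nonneg (by omega)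
              exact_mod_cast h2
            rw [this, abs_of_pos (by exact_mod_cast h)]
          · have : ((X.toNat : ℕ) : ℝ) = (X : ℝ) := by
              have h2 : ((X.toNat : ℕ) : ℤ) = X := Int.toNat_of_nonneg (by omega)
              exact_mod_cast h2
            rw [this]
            exact nd_le _ Y
      obtain ⟨q, hq1, hq2, hq3⟩ := h1
      have hq4 : q ≤ 4 ^ (k + 3 * (lam * M)) := by
        have h2 : (q : ℝ) ≤ (4 : ℝ) ^ (k + 3 * (lam * M)) := by
          rw [hq2, e3L]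
          calc |(X : ℝ)| ≤ 4 * W ^ (6 * a + 30) * K := hX'
            _ ≤ W * W ^ (6 * a + 30) * K := by gcongr; linarith
            _ = K * W ^ (6 * a + 31) := by ring
            _ ≤ K * W ^ (3 * lam) := by
              have := mono (i := 6 * a + 31) (j := 3 * lam) (by omega)
              gcongr
        exact_mod_cast h2
      have h3 := hκ q hq1 hq4
      rw [e4] at h3
      have h4 : (q : ℝ) * nd (q * α)
          ≤ (4 * W ^ (6 * a + 30) * K) * (8 * W ^ (5 * a + 24) / (K * W ^ lam)) := by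
        rw [hq2]
        exact mul_le_mul hX' ((by rw [← hq2]; exact hq3 : nd (|(X : ℝ)| * α) ≤ _).trans hY')
          (nd_nonneg _) (by positivity)
      have h5 : (4 * W ^ (6 * a + 30) * K) * (8 * W ^ (5 * a + 24) / (K * W ^ lam))
          = 32 * W ^ (11 * a + 54) / W ^ lam := by
        field_simp
        ring
      rw [h5] at h4
      have h6 := h3.trans h4
      rw [div_le_div_iff₀ (by positivity) (by positivity), one_mul] at h6
      have h7 : W ^ lam = W ^ 3 * (W ^ (11 * a + 54) * W ^ a) := by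
        rw [hlam, ← pow_add, ← pow_add]; congr 1; omega
      rw [h7] at h6
      have h8 : 0 < W ^ (11 * a + 54) * W ^ a := by positivity
      have h9 : 32 < W ^ 3 := by nlinarith [pow_pos hW0 2]
      nlinarith
    refine ⟨hX0, ?_⟩
    rw [hX0] at hY'
    simp only [Int.cast_zero, zero_mul, zero_sub, abs_neg] at hY'
    have h2 : |(Y : ℝ)| < 1 := by
      refine lt_of_le_of_lt hY' ?_
      rw [div_lt_one (by positivity)]
      calc 8 * W ^ (5 * a + 24) < W * W ^ (5 * a + 24) := by gcongr; linarith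
        _ = W ^ (5 * a + 25) := by ring
        _ ≤ W ^ lam := mono (by omega)
        _ ≤ K * W ^ lam := le_mul_of_one_le_left (by positivity) hK1
    have h3 : |Y| < 1 := by exact_mod_cast h2
    exact Int.abs_lt_one_iff.1 h3
  obtain ⟨e, Xs, Ys, he1, heE, hXs, hYs, hgcd, hrel⟩ :=
    center (α := α) (γ := γ) (E := E) (X1 := X1) (δ := δ) hE1 (by positivity) hδ0 hsep0
  -- the families
  set T : Finset (ℕ × ℕ) := Finset.Ico (k + lam * M) (k + lam * M + M) ×ˢ
    Finset.Ico ((a + 3) * M) ((a + 3) * M + M) with hT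
  have hTf : ∀ p ∈ T, K * W ^ lam ≤ 4 ^ p.1 ∧ 4 * (4 : ℝ) ^ p.1 ≤ K * W ^ (lam + 1) ∧
      W ^ (a + 3) ≤ 4 ^ p.2 ∧ 4 * (4 : ℝ) ^ p.2 ≤ W ^ (a + 4) := by
    intro p hp
    rw [hT, Finset.mem_product, Finset.mem_Ico, Finset.mem_Ico] at hp
    obtain ⟨⟨h1, h2⟩, ⟨h3, h4⟩⟩ := hp
    refine ⟨?_, ?_, ?_, ?_⟩
    · rw [← eL]
      exact pow_le_pow_right₀ (by norm_num) h1
    · have : K * W ^ (lam + 1) = (4 : ℝ) ^ (k + lam * M + M) := by
        rw [pow_add (4 : ℝ) (k + lam * M) M, eL]; ring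
      rw [this, ← pow_succ']
      exact pow_le_pow_right₀ (by norm_num) h2
    · rw [← e4]
      exact pow_le_pow_right₀ (by norm_num) h3
    · rw [← e4, ← pow_succ']
      refine pow_le_pow_right₀ (by norm_num) ?_
      have : (a + 4) * M = (a + 3) * M + M := by ring
      omega
  have hfam : ∀ p : ℕ × ℕ, ∃ F : Finset (ℤ × ℤ), p ∈ T → (∀ u ∈ F, (4 : ℝ) ^ (p.1 + p.2) ≤ u.1 ∧
      (u.1 : ℝ) < 4 ^ (p.1 + p.2 + 1) ∧
      (4 : ℝ) ^ p.2 / 4 ≤ 4 ^ p.1 * (u.1 * α - u.2 - γ) ∧
      4 ^ p.1 * (u.1 * α - u.2 - γ) < (4 : ℝ) ^ p.2 ∧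
      IsCoprime (e * u.1 - Xs) (e * u.2 - Ys)) ∧ (16 : ℝ) ^ p.2 / 4800 ≤ F.card := by
    intro p
    by_cases hp : p ∈ T
    swap
    · exact ⟨∅, fun h => absurd h hp⟩
    obtain ⟨h1, h2, h3, h4⟩ := hTf p hp
    have hp' := hp
    rw [hT, Finset.mem_product, Finset.mem_Ico, Finset.mem_Ico] at hp'
    have hpl : p.1 ≤ k + 3 * (lam * M) := by
      have : M ≤ lam * M := Nat.le_mul_of_pos_left _ (by omega)
      omega
    obtain ⟨F, hF1, hF2⟩ := fam (α := α) (γ := γ) (κ := 1 / W ^ a) (l := p.1) (ι := p.2)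
      (P := 64 * 4 ^ M) (D := 2 * 4 ^ M) (e := e) (Xs := Xs) (Ys := Ys) he1 hgcd (by positivity)
      (by
        intro q hq1 hq2
        rw [← e4]
        exact hκ q hq1 (hq2.trans (Nat.pow_le_pow_right (by norm_num) hpl)))
      (by
        have g1 : (e : ℝ) ≤ 2 * W ^ (2 * a + 10) := by rw [← hER]; exact_mod_cast heE
        have g2 : |(Xs : ℝ) * α - Ys - e * γ| ≤ 2 * W := by linarith
        have g3 : (4 : ℝ) ^ p.2 ≤ W ^ (a + 4) := by linarith [pow_pos (by norm_num : (0 : ℝ) < 4) p.2]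
        have g4 : (4 : ℝ) ^ p.1 ≤ K * W ^ (lam + 1) := by
          linarith [pow_pos (by norm_num : (0 : ℝ) < 4) p.1]
        have he0 : (0 : ℝ) ≤ e := by exact_mod_cast (by omega : (0 : ℤ) ≤ e)
        have g5 : 3 * (e : ℝ) * 4 ^ p.2 ≤ 6 * (K * W ^ (lam + 2)) := by
          calc 3 * (e : ℝ) * 4 ^ p.2 ≤ 3 * (2 * W ^ (2 * a + 10)) * W ^ (a + 4) := by gcongr
            _ = 6 * W ^ (3 * a + 14) := by ring
            _ ≤ 6 * W ^ (lam + 2) := by
              have := mono (i := 3 * a + 14) (j := lam + 2) (by omega)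
              linarith
            _ ≤ 6 * (K * W ^ (lam + 2)) := by
              have := le_mul_of_one_le_left (by positivity : 0 ≤ W ^ (lam + 2)) hK1
              linarith
        have g6 : |(Xs : ℝ)| ≤ K * W ^ (lam + 2) := by
          refine hXs.trans ?_
          rw [hX1, mul_comm]
          have := mono (i := 4 * a + 20) (j := lam + 2) (by omega)
          gcongr
        have g7 : 4 ^ p.1 * |(Xs : ℝ) * α - Ys - e * γ| ≤ 2 * (K * W ^ (lam + 2)) := by
          calc 4 ^ p.1 * |(Xs : ℝ) * α - Ys - e * γ| ≤ (K * W ^ (lam + 1)) * (2 * W) := by gcongr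
            _ = _ := by ring
        have g8 : 3 / (2 * (1 / W ^ a)) = 3 / 2 * W ^ a := by field_simp
        rw [g8]
        calc 3 / 2 * W ^ a * (3 * e * 4 ^ p.2 + |(Xs : ℝ)| + 4 ^ p.1 * |(Xs : ℝ) * α - Ys - e * γ|)
            ≤ 3 / 2 * W ^ a * (6 * (K * W ^ (lam + 2)) + K * W ^ (lam + 2)
              + 2 * (K * W ^ (lam + 2))) := by gcongr
          _ = 27 / 2 * (K * W ^ (lam + a + 2)) := by ring
          _ < W * (K * W ^ (lam + a + 2)) := by gcongr; linarith
          _ = K * W ^ (lam + a + 3) := by ring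
          _ ≤ K * W ^ (3 * lam) := by
            have := mono (i := lam + a + 3) (j := 3 * lam) (by omega)
            gcongr
          _ = (4 : ℝ) ^ (k + 3 * (lam * M)) := e3L.symm
          _ ≤ (4 : ℝ) ^ (4 ^ M) := pow_le_pow_right₀ (by norm_num) hk
          _ = 2 ^ (2 * 4 ^ M) := by rw [pow_mul]; norm_num)
      (by omega) (by
        have : 1 ≤ 4 ^ M := Nat.one_le_pow _ _ (by norm_num)
        omega)
      (by
        push_cast
        rw [← hW]
        have g1 : W ^ 3 ≤ 1 / W ^ a * 4 ^ p.2 := by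
          rw [one_div_mul_eq_div, le_div_iff₀ (by positivity)]
          calc W ^ 3 * W ^ a = W ^ (a + 3) := by ring
            _ ≤ 4 ^ p.2 := h3
        rw [le_div_iff₀ (by norm_num)]
        refine le_trans ?_ g1
        have g2 : 4096 * 4096 * W ≤ W ^ 3 := by
          have : W ^ 3 = W * W * W := by ring
          rw [this]
          gcongr
        linarith)
    exact ⟨F, fun _ => ⟨hF1, hF2⟩⟩
  choose F hF using hfam
  set S : Finset (Σ _ : ℕ × ℕ, ℤ × ℤ) := T.sigma F with hS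
  have hSm : ∀ s ∈ S, s.1 ∈ T ∧ s.2 ∈ F s.1 := fun s hs => by
    rw [hS, Finset.mem_sigma] at hs; exact hs
  set x : (Σ _ : ℕ × ℕ, ℤ × ℤ) → ℤ := fun s => s.2.1 with hx
  set ρ : (Σ _ : ℕ × ℕ, ℤ × ℤ) → ℝ := fun s => ψ / (32 * 16 ^ s.1.2) with hρ
  have h16 : ∀ i : ℕ, (16 : ℝ) ^ i = 4 ^ i * 4 ^ i := by
    intro i; rw [← mul_pow]; norm_num
  have hx1 : ∀ s ∈ S, K * W ^ lam ≤ x s := by
    intro s hs
    obtain ⟨h1, h2⟩ := hSm s hs
    obtain ⟨h3, -, -, -⟩ := hTf _ h1
    obtain ⟨h4, -, -, -, -⟩ := (hF _ h1).1 _ h2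
    refine h3.trans (le_trans ?_ h4)
    exact pow_le_pow_right₀ (by norm_num) (by omega)
  have hx2 : ∀ s ∈ S, (x s : ℝ) ≤ K * W ^ (lam + a + 5) := by
    intro s hs
    obtain ⟨h1, h2⟩ := hSm s hs
    obtain ⟨-, h3, -, h5⟩ := hTf _ h1
    obtain ⟨-, h4, -, -, -⟩ := (hF _ h1).1 _ h2
    refine h4.le.trans ?_
    have e1 : (0 : ℝ) < 4 ^ s.1.1 := by positivity
    have e2 : (0 : ℝ) < 4 ^ s.1.2 := by positivity
    calc (4 : ℝ) ^ (s.1.1 + s.1.2 + 1) = 4 ^ s.1.1 * (4 * 4 ^ s.1.2) := by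
          rw [pow_succ, pow_add]; ring
      _ ≤ (K * W ^ (lam + 1)) * W ^ (a + 4) := by
          gcongr
          linarith
      _ = _ := by ring
  have hρ0 : ∀ s ∈ S, 0 < ρ s := fun s _ => by simp only [hρ]; positivity
  have hρr : ∀ s ∈ S, 1 / W ^ (2 * a + 10) ≤ ρ s := by
    intro s hs
    obtain ⟨h1, h2⟩ := hSm s hs
    obtain ⟨-, -, -, h5⟩ := hTf _ h1
    simp only [hρ]
    rw [h16]
    have e2 : (0 : ℝ) < 4 ^ s.1.2 := by positivity
    have e3 : (4 : ℝ) ^ s.1.2 ≤ W ^ (a + 4) / 4 := by linarith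
    calc 1 / W ^ (2 * a + 10) ≤ (1 / W) / (32 * ((W ^ (a + 4) / 4) * (W ^ (a + 4) / 4))) := by
          rw [div_div, div_le_div_iff₀ (by positivity) (by positivity), one_mul, one_mul]
          have : W * (32 * (W ^ (a + 4) / 4 * (W ^ (a + 4) / 4))) = 2 * W ^ (2 * a + 9) := by ring
          rw [this]
          calc 2 * W ^ (2 * a + 9) ≤ W * W ^ (2 * a + 9) := by gcongr; linarith
            _ = W ^ (2 * a + 10) := by ring
      _ ≤ ψ / (32 * (4 ^ s.1.2 * 4 ^ s.1.2)) := by gcongr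
  have hpos : ∀ s ∈ S, (0 : ℝ) < x s := fun s hs => lt_of_lt_of_le (by positivity) (hx1 s hs)
  refine ⟨S, x, ρ, ?_, ?_, ?_, ?_, ?_⟩
  · intro s hs
    refine ⟨by rw [eL]; exact hx1 s hs, ?_⟩
    rw [e3L]
    refine lt_of_le_of_lt (hx2 s hs) ?_
    have : W ^ (lam + a + 5) < W ^ (3 * lam) := pow_lt_pow_right₀ (by linarith) (by omega)
    gcongr
  · intro s hs
    rw [e4]; exact hρr s hs
  · intro s hs
    obtain ⟨h1, h2⟩ := hSm s hs
    obtain ⟨-, h4, h5, h6, -⟩ := (hF _ h1).1 _ h2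
    have e1 : (0 : ℝ) < 4 ^ s.1.1 := by positivity
    have e2 : (0 : ℝ) < 4 ^ s.1.2 := by positivity
    set ε : ℝ := s.2.1 * α - s.2.2 - γ with hε
    have hε0 : 0 < ε := by
      have : 0 < 4 ^ s.1.1 * ε := lt_of_lt_of_le (by positivity) h5
      exact pos_of_mul_pos_right this e1.le
    have h7 : nd (x s * α - γ) ≤ ε := by
      refine (nd_le _ s.2.2).trans (le_of_eq ?_)
      have : (x s : ℝ) * α - γ - s.2.2 = ε := by rw [hε]; simp only [hx]; ring
      rw [this, abs_of_pos hε0]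
    have h8 : (x s : ℝ) * nd (x s * α - γ) ≤ 4 * 16 ^ s.1.2 := by
      calc (x s : ℝ) * nd (x s * α - γ) ≤ 4 ^ (s.1.1 + s.1.2 + 1) * ε := by
            exact mul_le_mul h4.le h7 (nd_nonneg _) (by positivity)
        _ = 4 * 4 ^ s.1.2 * (4 ^ s.1.1 * ε) := by rw [pow_succ, pow_add]; ring
        _ ≤ 4 * 4 ^ s.1.2 * 4 ^ s.1.2 := by gcongr
        _ = 4 * 16 ^ s.1.2 := by rw [h16]; ring
    calc (x s : ℝ) * nd (x s * α - γ) * (4 * ρ s) ≤ (4 * 16 ^ s.1.2) * (4 * ρ s) := by
          have := hρ0 s hs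
          gcongr
      _ = ψ / 2 := by
          simp only [hρ]
          field_simp
          norm_num
      _ < ψ := by linarith
  · intro s hs
    refine le_trans ?_ (hρr s hs)
    rw [e3L, div_le_div_iff₀ (by positivity) (by positivity), one_mul]
    calc (x s : ℝ) * W ^ (2 * a + 10) ≤ (K * W ^ (lam + a + 5)) * W ^ (2 * a + 10) := by
          gcongr
          exact hx2 s hs
      _ = K * W ^ (lam + 3 * a + 15) := by ring
      _ ≤ K * W ^ (3 * lam) := by
          have := mono (i := lam + 3 * a + 15) (j := 3 * lam) (by omega)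
          gcongr
  · intro c t
    have hr : ∀ s ∈ S, 1 / (8 * ρ s) ≤ W ^ (2 * a + 10) := by
      intro s hs
      have h1 := hρr s hs
      have h2 := hρ0 s hs
      rw [div_le_iff₀ (by positivity)] at h1 ⊢
      have : 0 < W ^ (2 * a + 10) := by positivity
      nlinarith
    have hone := one_cell S (fun s => (x s : ℝ)) ρ (c := c) (l := 1 / K) (t := t)
      (H0 := W ^ (2 * a + 10)) (by positivity) hpos hρ0 (by
        intro s hs
        simp only [hρ]
        have : (1 : ℝ) ≤ 16 ^ s.1.2 := one_le_pow₀ (by norm_num)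
        rw [div_le_div_iff₀ (by positivity) (by norm_num)]
        nlinarith) (by
        calc (4 : ℝ) ≤ W := by linarith
          _ = W ^ 1 := (pow_one W).symm
          _ ≤ W ^ (2 * a + 10) := mono (by omega)) hr (by
        intro s hs
        rw [mul_one_div, le_div_iff₀ hK0]
        calc W ^ (2 * a + 10) * K = K * W ^ (2 * a + 10) := by ring
          _ ≤ K * W ^ lam := by
            have := mono (i := 2 * a + 10) (j := lam) (by omega)
            gcongr
          _ ≤ x s := hx1 s hs) (by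
        intro s hs s' hs' hss h h' hhh hh hh'
        by_contra hcon
        push Not at hcon
        obtain ⟨h1, h2⟩ := hSm s hs
        obtain ⟨h1', h2'⟩ := hSm s' hs'
        obtain ⟨r1, -, -, -⟩ := hTf _ h1
        obtain ⟨r1', -, -, -⟩ := hTf _ h1'
        obtain ⟨-, -, -, t4⟩ := hTf _ h1
        obtain ⟨-, -, -, t4'⟩ := hTf _ h1'
        obtain ⟨f1, f2, f3, f4, f5⟩ := (hF _ h1).1 _ h2
        obtain ⟨f1', f2', f3', f4', f5'⟩ := (hF _ h1').1 _ h2'
        have e1 : (0 : ℝ) < 4 ^ s.1.1 := by positivity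
        have e2 : (0 : ℝ) < 4 ^ s.1.2 := by positivity
        have e1' : (0 : ℝ) < 4 ^ s'.1.1 := by positivity
        have e2' : (0 : ℝ) < 4 ^ s'.1.2 := by positivity
        set ε : ℝ := s.2.1 * α - s.2.2 - γ with hε
        set ε' : ℝ := s'.2.1 * α - s'.2.2 - γ with hε'
        have hε0 : 0 < ε := by
          have : 0 < 4 ^ s.1.1 * ε := lt_of_lt_of_le (by positivity) f3
          exact pos_of_mul_pos_right this e1.le
        have hε0' : 0 < ε' := by
          have : 0 < 4 ^ s'.1.1 * ε' := lt_of_lt_of_le (by positivity) f3'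
          exact pos_of_mul_pos_right this e1'.le
        have hεb : |ε| ≤ W ^ (a + 4) / (K * W ^ lam) := by
          rw [abs_of_pos hε0, le_div_iff₀ (by positivity)]
          calc ε * (K * W ^ lam) ≤ ε * 4 ^ s.1.1 := by gcongr
            _ = 4 ^ s.1.1 * ε := by ring
            _ ≤ W ^ (a + 4) := by linarith
        have hεb' : |ε'| ≤ W ^ (a + 4) / (K * W ^ lam) := by
          rw [abs_of_pos hε0', le_div_iff₀ (by positivity)]
          calc ε' * (K * W ^ lam) ≤ ε' * 4 ^ s'.1.1 := by gcongr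
            _ = 4 ^ s'.1.1 * ε' := by ring
            _ ≤ W ^ (a + 4) := by linarith
        have hXb : |((h * s.2.1 + h' * s'.2.1 : ℤ) : ℝ)| ≤ X1 := by
          have h3 : |((h * s.2.1 + h' * s'.2.1 : ℤ) : ℝ)| * (1 / K) < (W ^ (2 * a + 10)) ^ 2 := by
            push_cast
            exact hcon
          rw [mul_one_div, div_lt_iff₀ hK0] at h3
          refine h3.le.trans (le_of_eq ?_)
          rw [hX1]; ring
        have heb : |((h + h' : ℤ) : ℝ)| ≤ E := by
          push_cast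
          rw [hER]
          refine (abs_add_le _ _).trans ?_
          linarith
        have hYb : |((h * s.2.1 + h' * s'.2.1 : ℤ) : ℝ) * α - ((h * s.2.2 + h' * s'.2.2 : ℤ) : ℝ)
            - ((h + h' : ℤ) : ℝ) * γ| ≤ δ := by
          have h3 : ((h * s.2.1 + h' * s'.2.1 : ℤ) : ℝ) * α - ((h * s.2.2 + h' * s'.2.2 : ℤ) : ℝ)
            - ((h + h' : ℤ) : ℝ) * γ = h * ε + h' * ε' := by
            rw [hε, hε']; push_cast; ring
          rw [h3]
          refine (abs_add_le _ _).trans ?_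
          have g1 := amul hh hεb
          have g2 := amul hh' hεb'
          refine (add_le_add g1 g2).trans (le_of_eq ?_)
          rw [hδ]; ring
        obtain ⟨hr1, hr2⟩ := hrel _ _ _ hXb heb hYb
        have hp1 : h * (e * s.2.1 - Xs) + h' * (e * s'.2.1 - Xs) = 0 := by linear_combination hr1
        have hp2 : h * (e * s.2.2 - Ys) + h' * (e * s'.2.2 - Ys) = 0 := by linear_combination hr2
        have hcross : (e * s.2.1 - Xs) * (e * s'.2.2 - Ys)
            = (e * s.2.2 - Ys) * (e * s'.2.1 - Xs) := by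
          have g1 : h * ((e * s.2.1 - Xs) * (e * s'.2.2 - Ys)
              - (e * s.2.2 - Ys) * (e * s'.2.1 - Xs)) = 0 := by
            linear_combination (e * s'.2.2 - Ys) * hp1 - (e * s'.2.1 - Xs) * hp2
          have g2 : h' * ((e * s.2.1 - Xs) * (e * s'.2.2 - Ys)
              - (e * s.2.2 - Ys) * (e * s'.2.1 - Xs)) = 0 := by
            linear_combination (e * s.2.1 - Xs) * hp2 - (e * s.2.2 - Ys) * hp1
          rcases mul_eq_zero.1 g1 with g3 | g3
          · rcases mul_eq_zero.1 g2 with g4 | g4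
            · exact absurd ⟨g3, g4⟩ hhh
            · linarith
          · linarith
        rcases prim f5 f5' hcross with ⟨g1, g2⟩ | ⟨g1, g2⟩
        · -- equal points
          have g3 : s.2.1 = s'.2.1 := by
            have : e * (s.2.1 - s'.2.1) = 0 := by linear_combination g1
            rcases mul_eq_zero.1 this with g | g <;> omega
          have g4 : s.2.2 = s'.2.2 := by
            have : e * (s.2.2 - s'.2.2) = 0 := by linear_combination g2
            rcases mul_eq_zero.1 this with g | g <;> omega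
          have g5 : ε = ε' := by rw [hε, hε', g3, g4]
          have g6 : s.1.1 + s.1.2 = s'.1.1 + s'.1.2 := by
            rw [g3] at f1 f2
            have q1 : (4 : ℝ) ^ (s.1.1 + s.1.2) < 4 ^ (s'.1.1 + s'.1.2 + 1) := lt_of_le_of_lt f1 f2'
            have q2 : (4 : ℝ) ^ (s'.1.1 + s'.1.2) < 4 ^ (s.1.1 + s.1.2 + 1) := lt_of_le_of_lt f1' f2
            have q3 := (pow_lt_pow_iff_right₀ (by norm_num : (1 : ℝ) < 4)).1 q1
            have q4 := (pow_lt_pow_iff_right₀ (by norm_num : (1 : ℝ) < 4)).1 q2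
            omega
          have g7 : s.1.2 + s'.1.1 = s'.1.2 + s.1.1 := by
            rw [g5] at f3 f4
            have q1 : (4 : ℝ) ^ (s.1.2 + s'.1.1) < 4 ^ (s'.1.2 + s.1.1 + 1) := by
              calc (4 : ℝ) ^ (s.1.2 + s'.1.1) = 4 * (4 ^ s.1.2 / 4) * 4 ^ s'.1.1 := by
                    rw [pow_add]; ring
                _ ≤ 4 * (4 ^ s.1.1 * ε') * 4 ^ s'.1.1 := by gcongr
                _ = 4 * 4 ^ s.1.1 * (4 ^ s'.1.1 * ε') := by ring
                _ < 4 * 4 ^ s.1.1 * 4 ^ s'.1.2 := by gcongr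
                _ = 4 ^ (s'.1.2 + s.1.1 + 1) := by rw [pow_succ, pow_add]; ring
            have q2 : (4 : ℝ) ^ (s'.1.2 + s.1.1) < 4 ^ (s.1.2 + s'.1.1 + 1) := by
              calc (4 : ℝ) ^ (s'.1.2 + s.1.1) = 4 * (4 ^ s'.1.2 / 4) * 4 ^ s.1.1 := by
                    rw [pow_add]; ring
                _ ≤ 4 * (4 ^ s'.1.1 * ε') * 4 ^ s.1.1 := by gcongr
                _ = 4 * 4 ^ s'.1.1 * (4 ^ s.1.1 * ε') := by ring
                _ < 4 * 4 ^ s'.1.1 * 4 ^ s.1.2 := by gcongr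
                _ = 4 ^ (s.1.2 + s'.1.1 + 1) := by rw [pow_succ, pow_add]; ring
            have q3 := (pow_lt_pow_iff_right₀ (by norm_num : (1 : ℝ) < 4)).1 q1
            have q4 := (pow_lt_pow_iff_right₀ (by norm_num : (1 : ℝ) < 4)).1 q2
            omega
          apply hss
          refine Sigma.ext (Prod.ext (by omega) (by omega)) ?_
          exact heq_of_eq (Prod.ext g3 g4)
        · -- opposite points
          have g3 : e * (s.2.1 + s'.2.1) = 2 * Xs := by linear_combination g1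
          have g4 := hx1 s hs
          have g5 := hx1 s' hs'
          simp only [hx] at g4 g5
          have g6 : ((e * (s.2.1 + s'.2.1) : ℤ) : ℝ) = 2 * Xs := by rw [g3]; push_cast; ring
          have g7 : (1 : ℝ) ≤ e := by exact_mod_cast he1
          have g8 : (2 : ℝ) * (K * W ^ lam) ≤ 2 * |(Xs : ℝ)| := by
            have q1 : (2 : ℝ) * (K * W ^ lam) ≤ (s.2.1 : ℝ) + s'.2.1 := by linarith
            have q2 : (s.2.1 : ℝ) + s'.2.1 ≤ e * ((s.2.1 : ℝ) + s'.2.1) := by
              apply le_mul_of_one_le_left _ g7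
              refine le_trans ?_ q1
              positivity
            have q3 : (e : ℝ) * ((s.2.1 : ℝ) + s'.2.1) = 2 * Xs := by
              rw [← g6]; push_cast; ring
            have q4 := le_abs_self (Xs : ℝ)
            linarith
          have g9 : |(Xs : ℝ)| < K * W ^ lam := by
            refine lt_of_le_of_lt hXs ?_
            rw [hX1, mul_comm]
            have : W ^ (4 * a + 20) < W ^ lam := pow_lt_pow_right₀ (by linarith) (by omega)
            gcongr
          linarith)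
    have hm : (M : ℝ) ^ 2 * ψ / 153600 ≤ ∑ s ∈ S, ρ s := by
      rw [hS, Finset.sum_sigma]
      have h1 : ∀ p ∈ T, ψ / 153600 ≤ ∑ u ∈ F p, ρ ⟨p, u⟩ := by
        intro p hp
        simp only [hρ]
        rw [Finset.sum_const, nsmul_eq_mul]
        have h2 := (hF p hp).2
        calc ψ / 153600 = (16 ^ p.2 / 4800) * (ψ / (32 * 16 ^ p.2)) := by
              field_simp; norm_num
          _ ≤ _ := by gcongr
      calc (M : ℝ) ^ 2 * ψ / 153600 = ∑ p ∈ T, ψ / 153600 := by
            rw [Finset.sum_const, nsmul_eq_mul, hT, Finset.card_product, Nat.card_Ico,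
              Nat.card_Ico]
            simp only [Nat.add_sub_cancel_left]
            push_cast
            ring
        _ ≤ _ := Finset.sum_le_sum h1
    refine hone.trans ?_
    refine mul_le_mul_of_nonneg_right (sub_le_sub_left ?_ 1) (by positivity)
    set m : ℝ := ∑ s ∈ S, ρ s with hmdef
    set m0 : ℝ := (M : ℝ) ^ 2 * ψ / 153600 with hm0
    have hm00 : 0 ≤ m0 := by positivity
    have hm01 : m0 ≤ 1 := by
      rw [hm0, div_le_one (by norm_num)]
      linarith
    have h1 : (M : ℝ) ^ 2 * ψ / 10066329600 = m0 / 65536 := by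
      rw [hm0]; ring
    rw [h1]
    rw [div_le_div_iff₀ (by norm_num) (by positivity)]
    nlinarith

end Pool.Agent.V7H27.SH
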