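import Mathlib
import Pool.Agent.V7H27.SH.Block

/-! Multiplying the conditional probabilities. -/

namespace Pool.Agent.V7H27.SH

open Real MeasureTheory Set
open Pool.Agent.V7H27.LC

/-- Membership in `E` depends only on the integer part of `4^k β`. -/
def Det (k : ℕ) (E : Set ℝ) : Prop :=
  ∀ β β' : ℝ, ⌊β * 4 ^ k⌋ = ⌊β' * 4 ^ k⌋ → (β ∈ E ↔ β' ∈ E)

/-- A cell of level `k`. -/
def cell (k : ℕ) (c : ℤ) : Set ℝ := {β | ⌊β * 4 ^ k⌋ = c}

lemma cell_eq (k : ℕ) (c : ℤ) :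
    cell k c = Ico ((c : ℝ) / 4 ^ k) ((c : ℝ) / 4 ^ k + 1 / 4 ^ k) := by
  ext β
  have h : (0 : ℝ) < 4 ^ k := by positivity
  simp only [cell, Set.mem_ofPred_eq, mem_Ico]
  rw [Int.floor_eq_iff, div_le_iff₀ h, ← add_div, lt_div_iff₀ h]

lemma measurableSet_cell (k : ℕ) (c : ℤ) : MeasurableSet (cell k c) := by
  rw [cell_eq]; exact measurableSet_Ico

lemma floor_mono {k k' : ℕ} (h : k ≤ k') {β β' : ℝ} (hf : ⌊β * 4 ^ k'⌋ = ⌊β' * 4 ^ k'⌋) :
    ⌊β * 4 ^ k⌋ = ⌊β' * 4 ^ k⌋ := by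
  have key : ∀ x y : ℝ, ⌊x * 4 ^ k'⌋ = ⌊y * 4 ^ k'⌋ → ⌊x * 4 ^ k⌋ ≤ ⌊y * 4 ^ k⌋ := by
    intro x y hxy
    obtain ⟨d, rfl⟩ := Nat.exists_eq_add_of_le h
    set z := ⌊x * 4 ^ k⌋ with hz
    have h1 : (z : ℝ) ≤ x * 4 ^ k := Int.floor_le _
    have hd : (0 : ℝ) < 4 ^ d := by positivity
    have h2 : ((z * 4 ^ d : ℤ) : ℝ) ≤ x * 4 ^ (k + d) := by
      push_cast
      rw [pow_add, ← mul_assoc]
      gcongr
    have h3 : z * 4 ^ d ≤ ⌊x * 4 ^ (k + d)⌋ := Int.le_floor.2 h2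
    rw [hxy] at h3
    have h4 : ((z * 4 ^ d : ℤ) : ℝ) ≤ y * 4 ^ (k + d) := Int.le_floor.1 h3
    push_cast at h4
    rw [pow_add, ← mul_assoc] at h4
    exact Int.le_floor.2 (le_of_mul_le_mul_right h4 hd)
  exact le_antisymm (key _ _ hf) (key _ _ hf.symm)

lemma Det.mono {k k' : ℕ} (h : k ≤ k') {E : Set ℝ} (hE : Det k E) : Det k' E :=
  fun β β' hf => hE β β' (floor_mono h hf)

lemma Det.inter {k : ℕ} {E F : Set ℝ} (hE : Det k E) (hF : Det k F) : Det k (E ∩ F) := by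
  intro β β' hf
  rw [mem_inter_iff, mem_inter_iff, hE β β' hf, hF β β' hf]

lemma det_Ico (z : ℤ) (k : ℕ) : Det k (Ico (z : ℝ) (z + 1)) := by
  intro β β' hf
  have h0 := floor_mono (Nat.zero_le k) hf
  simp only [pow_zero, mul_one] at h0
  have h1 : ∀ x : ℝ, x ∈ Ico (z : ℝ) (z + 1) ↔ ⌊x⌋ = z := by
    intro x
    rw [Int.floor_eq_iff, mem_Ico]
  rw [h1, h1, h0]

lemma step {k : ℕ} {E N : Set ℝ} {θ : ENNReal} (hE : Det k E)
    (hN : ∀ c : ℤ, volume (N ∩ cell k c) ≤ θ * volume (cell k c)) :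
    volume (E ∩ N) ≤ θ * volume E := by
  have hcov : ∀ A : Set ℝ, A = ⋃ c : ℤ, A ∩ cell k c := by
    intro A
    ext β
    simp only [mem_iUnion, mem_inter_iff, cell, Set.mem_ofPred_eq]
    exact ⟨fun h => ⟨_, h, rfl⟩, fun ⟨_, h, _⟩ => h⟩
  have hcase : ∀ c : ℤ, E ∩ cell k c = ∅ ∨ E ∩ cell k c = cell k c := by
    intro c
    rcases Set.eq_empty_or_nonempty (E ∩ cell k c) with h | h
    · left; exact h
    · right
      obtain ⟨β, hβ1, hβ2⟩ := h
      apply inter_eq_right.2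
      intro β' hβ'
      simp only [cell, Set.mem_ofPred_eq] at hβ2 hβ'
      exact (hE β β' (hβ2.trans hβ'.symm)).1 hβ1
  have hdisj : Pairwise (Function.onFun Disjoint fun c : ℤ => E ∩ cell k c) := by
    intro c c' hcc
    rw [Function.onFun, Set.disjoint_left]
    rintro β ⟨_, h1⟩ ⟨_, h2⟩
    simp only [cell, Set.mem_ofPred_eq] at h1 h2
    exact hcc (h1.symm.trans h2)
  have hmeas : ∀ c : ℤ, MeasurableSet (E ∩ cell k c) := by
    intro c
    rcases hcase c with h | h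
    · rw [h]; exact MeasurableSet.empty
    · rw [h]; exact measurableSet_cell k c
  calc volume (E ∩ N) = volume (⋃ c : ℤ, (E ∩ N) ∩ cell k c) := by rw [← hcov]
    _ ≤ ∑' c : ℤ, volume ((E ∩ N) ∩ cell k c) := measure_iUnion_le _
    _ ≤ ∑' c : ℤ, θ * volume (E ∩ cell k c) := by
        apply ENNReal.tsum_le_tsum
        intro c
        rcases hcase c with h | h
        · have : (E ∩ N) ∩ cell k c = ∅ := by
            rw [← Set.subset_empty_iff, ← h]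
            rintro β ⟨⟨h1, _⟩, h2⟩
            exact ⟨h1, h2⟩
          rw [this]
          simp
        · rw [h]
          refine (measure_mono ?_).trans (hN c)
          rintro β ⟨⟨_, h1⟩, h2⟩
          exact ⟨h1, h2⟩
    _ = θ * ∑' c : ℤ, volume (E ∩ cell k c) := ENNReal.tsum_mul_left
    _ = θ * volume (⋃ c : ℤ, E ∩ cell k c) := by rw [measure_iUnion hdisj hmeas]
    _ = θ * volume E := by rw [← hcov]

lemma chain_prod {κ : ℕ → ℕ} (hκ : Monotone κ) {N : ℕ → Set ℝ} {θ : ℕ → ENNReal} {n : ℕ}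
    (hdet : ∀ s < n, Det (κ (s + 1)) (N s))
    (hN : ∀ s < n, ∀ c : ℤ, volume (N s ∩ cell (κ s) c) ≤ θ s * volume (cell (κ s) c)) (z : ℤ) :
    volume (Ico (z : ℝ) (z + 1) ∩ {β | ∀ s < n, β ∈ N s}) ≤ ∏ s ∈ Finset.range n, θ s := by
  have key : ∀ m ≤ n, Det (κ m) (Ico (z : ℝ) (z + 1) ∩ {β | ∀ s < m, β ∈ N s}) ∧
      volume (Ico (z : ℝ) (z + 1) ∩ {β | ∀ s < m, β ∈ N s}) ≤ ∏ s ∈ Finset.range m, θ s := by
    intro m
    induction m with
    | zero =>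
      intro _
      have h1 : {β : ℝ | ∀ s < 0, β ∈ N s} = univ := by
        ext β; simp
      rw [h1, inter_univ]
      refine ⟨det_Ico z _, ?_⟩
      simp [Real.volume_Ico]
    | succ m ih =>
      intro hm
      obtain ⟨ih1, ih2⟩ := ih (by omega)
      have h1 : Ico (z : ℝ) (z + 1) ∩ {β | ∀ s < m + 1, β ∈ N s}
          = (Ico (z : ℝ) (z + 1) ∩ {β | ∀ s < m, β ∈ N s}) ∩ N m := by
        ext β
        simp only [mem_inter_iff, Set.mem_ofPred_eq]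
        constructor
        · rintro ⟨h2, h3⟩
          exact ⟨⟨h2, fun s hs => h3 s (by omega)⟩, h3 m (by omega)⟩
        · rintro ⟨⟨h2, h3⟩, h4⟩
          refine ⟨h2, fun s hs => ?_⟩
          rcases Nat.lt_succ_iff_lt_or_eq.1 hs with h5 | h5
          · exact h3 s h5
          · rw [h5]; exact h4
      rw [h1]
      refine ⟨(ih1.mono (hκ (Nat.le_succ m))).inter (hdet m (by omega)), ?_⟩
      rw [Finset.prod_range_succ, mul_comm]
      refine (step ih1 (hN m (by omega))).trans ?_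
      gcongr
  exact (key n le_rfl).2

end Pool.Agent.V7H27.SH
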