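import Mathlib
import Pool.Agent.V7H27.SH.Chain

/-! The points which have no good approximation up to a given level. -/

namespace Pool.Agent.V7H27.SH

open Real MeasureTheory Set
open Pool.Agent.V7H27.LC

lemma nd_sub_fract (y t : ℝ) : nd (y - t) = nd (y - Int.fract t) := by
  have h : y - Int.fract t = (y - t) + (⌊t⌋ : ℤ) := by
    rw [Int.fract]; ring
  rw [h, nd_add_int]

lemma level {α γ : ℝ} {a M n : ℕ} {ψ : ℕ → ℝ} (hM : 6 ≤ M)
    (hbig : M ^ 2 + 3 * ((12 * a + 57) * M) * n ≤ 4 ^ M)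
    (hγ : |γ| ≤ (4 : ℝ) ^ M) (hψanti : Antitone ψ) (hψ0 : ∀ i, 0 ≤ ψ i)
    (hψ1 : ∀ i : ℕ, i * ψ i ≤ 1)
    (hκ : ∀ q : ℕ, 1 ≤ q → q ≤ 4 ^ (4 ^ M) → 1 / (4 : ℝ) ^ (a * M) ≤ q * nd (q * α)) (z : ℤ) :
    volume (Ico (z : ℝ) (z + 1) ∩ {β | ∃ t : ℝ, ∀ q : ℕ, 4 ^ (M ^ 2) ≤ q →
        ψ (Nat.log 2 q) ≤ q * nd (q * α - γ) * nd (q * β - t)})
      ≤ ENNReal.ofReal ((4 : ℝ) ^ ((2 * a + 10) * M) * Real.exp (-((M : ℝ) ^ 2 / 10066329600 *
        ∑ s ∈ (Finset.range n).filter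
          (fun s => 1 / (4 : ℝ) ^ M ≤ ψ (2 * (M ^ 2 + 3 * ((12 * a + 57) * M) * (s + 1)))),
          ψ (2 * (M ^ 2 + 3 * ((12 * a + 57) * M) * (s + 1)))))) := by
  classical
  set lam : ℕ := 12 * a + 57 with hlam
  set lev : ℕ → ℕ := fun s => M ^ 2 + 3 * (lam * M) * s with hlev
  set f : ℕ → ℝ := fun s => ψ (2 * (M ^ 2 + 3 * (lam * M) * (s + 1))) with hf
  have hlevs : ∀ s, lev (s + 1) = lev s + 3 * (lam * M) := by
    intro s; simp only [hlev]; ring
  have hlevmono : Monotone lev := monotone_nat_of_le_succ (fun s => by rw [hlevs]; omega)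
  have hlevn : ∀ s < n, lev s + 3 * (lam * M) ≤ 4 ^ M := by
    intro s hs
    rw [← hlevs]
    exact (hlevmono (by omega : s + 1 ≤ n)).trans hbig
  have hMR : (6 : ℝ) ≤ M := by exact_mod_cast hM
  have hfM : ∀ s, f s * (M : ℝ) ^ 2 ≤ 1 := by
    intro s
    simp only [hf]
    have h1 := hψ1 (2 * (M ^ 2 + 3 * (lam * M) * (s + 1)))
    have h2 : ((M : ℝ)) ^ 2 ≤ ((2 * (M ^ 2 + 3 * (lam * M) * (s + 1)) : ℕ) : ℝ) := by
      have : M ^ 2 ≤ 2 * (M ^ 2 + 3 * (lam * M) * (s + 1)) := by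
        have : M ^ 2 ≤ M ^ 2 + 3 * (lam * M) * (s + 1) := Nat.le_add_right _ _
        omega
      exact_mod_cast this
    have h3 := hψ0 (2 * (M ^ 2 + 3 * (lam * M) * (s + 1)))
    nlinarith
  set T : ℕ := 4 ^ ((2 * a + 10) * M) with hT
  have hTR : (T : ℝ) = (4 : ℝ) ^ ((2 * a + 10) * M) := by rw [hT]; push_cast; rfl
  have hTpos : (0 : ℝ) < T := by rw [hTR]; positivity
  -- the blocks
  have hblock : ∀ s : ℕ, ∃ (S : Finset (Σ _ : ℕ × ℕ, ℤ × ℤ)) (x : (Σ _ : ℕ × ℕ, ℤ × ℤ) → ℤ)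
      (ρ : (Σ _ : ℕ × ℕ, ℤ × ℤ) → ℝ), s < n → 1 / (4 : ℝ) ^ M ≤ f s →
      (∀ σ ∈ S, (4 : ℝ) ^ (lev s + lam * M) ≤ x σ ∧
        (x σ : ℝ) < 4 ^ (lev s + 3 * (lam * M))) ∧
      (∀ σ ∈ S, 1 / (4 : ℝ) ^ ((2 * a + 10) * M) ≤ ρ σ) ∧
      (∀ σ ∈ S, x σ * nd (x σ * α - γ) * (4 * ρ σ) < f s) ∧
      (∀ σ ∈ S, x σ / (4 : ℝ) ^ (lev s + 3 * (lam * M)) ≤ ρ σ) ∧
      ∀ c t : ℝ, volume.real ({β | ∀ σ ∈ S, ρ σ ≤ nd (x σ * β - t)} ∩
          Ico c (c + 1 / (4 : ℝ) ^ (lev s)))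
        ≤ (1 - (M : ℝ) ^ 2 * f s / 10066329600) * (1 / (4 : ℝ) ^ (lev s)) := by
    intro s
    by_cases hs : s < n ∧ 1 / (4 : ℝ) ^ M ≤ f s
    · obtain ⟨S, x, ρ, h⟩ := block (α := α) (γ := γ) (ψ := f s) (a := a) (M := M) (k := lev s) hM
        (hlevn s hs.1) hγ hs.2 (hfM s) (fun q hq1 hq2 => hκ q hq1
          (hq2.trans (Nat.pow_le_pow_right (by norm_num) (hlevn s hs.1))))
      exact ⟨S, x, ρ, fun _ _ => h⟩
    · exact ⟨∅, fun _ => 0, fun _ => 0, fun h1 h2 => absurd ⟨h1, h2⟩ hs⟩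
  choose S x ρ hB using hblock
  set N : ℝ → ℕ → Set ℝ := fun t s => if 1 / (4 : ℝ) ^ M ≤ f s then
    {β | ∀ σ ∈ S s, 2 * ρ s σ ≤ nd (x s σ * ((⌊β * 4 ^ lev (s + 1)⌋ : ℝ) / 4 ^ lev (s + 1)) - t)}
    else univ with hN
  set θ : ℕ → ENNReal := fun s => if 1 / (4 : ℝ) ^ M ≤ f s then
    ENNReal.ofReal (1 - (M : ℝ) ^ 2 * f s / 10066329600) else 1 with hθ
  have htrunc : ∀ (β : ℝ) (k : ℕ), |β - (⌊β * 4 ^ k⌋ : ℝ) / 4 ^ k| ≤ 1 / 4 ^ k := by
    intro β k
    have h : (0 : ℝ) < 4 ^ k := by positivity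
    have h1 : β - (⌊β * 4 ^ k⌋ : ℝ) / 4 ^ k = (β * 4 ^ k - ⌊β * 4 ^ k⌋) / 4 ^ k := by
      field_simp
    rw [h1, abs_div, abs_of_pos h]
    gcongr
    rw [abs_of_nonneg (sub_nonneg.2 (Int.floor_le _))]
    linarith [Int.lt_floor_add_one (β * 4 ^ k)]
  have hdet : ∀ t : ℝ, ∀ s < n, Det (lev (s + 1)) (N t s) := by
    intro t s _ β β' hββ
    simp only [hN]
    split_ifs
    · simp only [Set.mem_ofPred_eq]
      rw [hββ]
    · simp
  have hvol : ∀ t : ℝ, ∀ s < n, ∀ c : ℤ,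
      volume (N t s ∩ cell (lev s) c) ≤ θ s * volume (cell (lev s) c) := by
    intro t s hs c
    simp only [hN, hθ]
    split_ifs with hg
    · obtain ⟨h1, h2, h3, h4, h5⟩ := hB s hs hg
      have h6 := h5 ((c : ℝ) / 4 ^ lev s) t
      rw [← cell_eq] at h6
      have h7 : {β : ℝ | ∀ σ ∈ S s, 2 * ρ s σ ≤
            nd (x s σ * ((⌊β * 4 ^ lev (s + 1)⌋ : ℝ) / 4 ^ lev (s + 1)) - t)} ∩ cell (lev s) c
          ⊆ {β | ∀ σ ∈ S s, ρ s σ ≤ nd (x s σ * β - t)} ∩ cell (lev s) c := by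
        rintro β ⟨hβ1, hβ2⟩
        refine ⟨?_, hβ2⟩
        simp only [Set.mem_ofPred_eq] at hβ1 ⊢
        intro σ hσ
        have h8 := hβ1 σ hσ
        set β' : ℝ := (⌊β * 4 ^ lev (s + 1)⌋ : ℝ) / 4 ^ lev (s + 1) with hβ'
        have h9 := nd_le_add_abs (x s σ * β' - t) (x s σ * β - t)
        have h10 : |(x s σ * β' - t) - (x s σ * β - t)| ≤ ρ s σ := by
          have h11 : (x s σ * β' - t) - (x s σ * β - t) = -(x s σ * (β - β')) := by ring
          rw [h11, abs_neg]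
          have hx0 : (0 : ℝ) ≤ x s σ := (by positivity : (0 : ℝ) ≤ (4 : ℝ) ^ (lev s + lam * M)).trans
            (h1 σ hσ).1
          refine (amul (abs_of_nonneg hx0).le (htrunc β (lev (s + 1)))).trans ?_
          rw [mul_one_div, hlevs]
          exact h4 σ hσ
        linarith
      have hfin : volume ({β | ∀ σ ∈ S s, ρ s σ ≤ nd (x s σ * β - t)} ∩ cell (lev s) c) ≠ ⊤ :=
        measure_ne_top_of_subset inter_subset_right (by rw [cell_eq]; simp)
      refine (measure_mono h7).trans ?_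
      have h8 : volume (cell (lev s) c) = ENNReal.ofReal (1 / (4 : ℝ) ^ lev s) := by
        rw [cell_eq, Real.volume_Ico]
        congr 1
        ring
      rw [h8, ← ENNReal.ofReal_mul' (by positivity)]
      rw [← ENNReal.ofReal_toReal hfin]
      exact ENNReal.ofReal_le_ofReal h6
    · rw [one_mul]
      exact measure_mono inter_subset_right
  have hprod : ∏ s ∈ Finset.range n, θ s ≤ ENNReal.ofReal (Real.exp (-((M : ℝ) ^ 2 / 10066329600 *
        ∑ s ∈ (Finset.range n).filter (fun s => 1 / (4 : ℝ) ^ M ≤ f s), f s))) := by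
    simp only [hθ]
    rw [Finset.prod_ite, Finset.prod_const_one, mul_one]
    have h1 : Real.exp (-((M : ℝ) ^ 2 / 10066329600 *
        ∑ s ∈ (Finset.range n).filter (fun s => 1 / (4 : ℝ) ^ M ≤ f s), f s))
        = ∏ s ∈ (Finset.range n).filter (fun s => 1 / (4 : ℝ) ^ M ≤ f s),
          Real.exp (-((M : ℝ) ^ 2 * f s / 10066329600)) := by
      rw [← Real.exp_sum]
      congr 1
      rw [Finset.mul_sum, ← Finset.sum_neg_distrib]
      apply Finset.sum_congr rfl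
      intro s _
      ring
    rw [h1, ENNReal.ofReal_prod_of_nonneg (fun s _ => (Real.exp_pos _).le)]
    apply Finset.prod_le_prod'
    intro s _
    apply ENNReal.ofReal_le_ofReal
    have := Real.add_one_le_exp (-((M : ℝ) ^ 2 * f s / 10066329600))
    linarith
  have hsub : Ico (z : ℝ) (z + 1) ∩ {β | ∃ t : ℝ, ∀ q : ℕ, 4 ^ (M ^ 2) ≤ q →
        ψ (Nat.log 2 q) ≤ q * nd (q * α - γ) * nd (q * β - t)}
      ⊆ ⋃ i ∈ Finset.range T, (Ico (z : ℝ) (z + 1) ∩ {β | ∀ s < n, β ∈ N ((i : ℝ) / T) s}) := by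
    rintro β ⟨hβ1, t, ht⟩
    set i : ℕ := ⌊Int.fract t * T⌋₊ with hi
    have hfr0 := Int.fract_nonneg t
    have hfr1 := Int.fract_lt_one t
    have hi1 : (i : ℝ) ≤ Int.fract t * T := Nat.floor_le (by positivity)
    have hi2 : Int.fract t * T < i + 1 := Nat.lt_floor_add_one _
    have hiT : i < T := by
      have : (i : ℝ) < T := by nlinarith
      exact_mod_cast this
    have hdist : |Int.fract t - (i : ℝ) / T| ≤ 1 / T := by
      have h1 : Int.fract t - (i : ℝ) / T = (Int.fract t * T - i) / T := by field_simp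
      rw [h1, abs_div, abs_of_pos hTpos]
      gcongr
      rw [abs_of_nonneg (by linarith)]
      linarith
    simp only [mem_iUnion]
    refine ⟨i, Finset.mem_range.2 hiT, hβ1, ?_⟩
    simp only [Set.mem_ofPred_eq]
    intro s hs
    simp only [hN]
    split_ifs with hg
    swap
    · trivial
    simp only [Set.mem_ofPred_eq]
    intro σ hσ
    obtain ⟨h1, h2, h3, h4, h5⟩ := hB s hs hg
    by_contra hcon
    push Not at hcon
    set β' : ℝ := (⌊β * 4 ^ lev (s + 1)⌋ : ℝ) / 4 ^ lev (s + 1) with hβ'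
    have hx0 : (0 : ℝ) < x s σ := lt_of_lt_of_le (by positivity) (h1 σ hσ).1
    have hx0' : 0 < x s σ := by exact_mod_cast hx0
    set q : ℕ := (x s σ).toNat with hq
    have hqx : (q : ℝ) = x s σ := by
      have h6 : ((q : ℕ) : ℤ) = x s σ := Int.toNat_of_nonneg hx0'.le
      exact_mod_cast h6
    have hq1 : 4 ^ (M ^ 2) ≤ q := by
      have h6 : ((4 ^ (M ^ 2) : ℕ) : ℝ) ≤ (q : ℝ) := by
        rw [hqx]
        push_cast
        refine le_trans ?_ (h1 σ hσ).1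
        apply pow_le_pow_right₀ (by norm_num)
        simp only [hlev]
        have : M ^ 2 ≤ M ^ 2 + 3 * (lam * M) * s := Nat.le_add_right _ _
        omega
      exact_mod_cast h6
    have h6 := ht q hq1
    have h7 : nd (q * β - t) < 4 * ρ s σ := by
      rw [nd_sub_fract, hqx]
      have h8 := nd_le_add_abs (x s σ * β - Int.fract t) (x s σ * β' - (i : ℝ) / T)
      have h9 : |(x s σ * β - Int.fract t) - (x s σ * β' - (i : ℝ) / T)| ≤ ρ s σ + ρ s σ := by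
        have h10 : (x s σ * β - Int.fract t) - (x s σ * β' - (i : ℝ) / T)
            = x s σ * (β - β') - (Int.fract t - (i : ℝ) / T) := by ring
        rw [h10]
        refine (abs_sub _ _).trans (add_le_add ?_ ?_)
        · refine (amul (abs_of_nonneg hx0.le).le (htrunc β (lev (s + 1)))).trans ?_
          rw [mul_one_div, hlevs]
          exact h4 σ hσ
        · refine hdist.trans ?_
          rw [hTR]
          exact h2 σ hσ
      linarith
    have h8 : (q : ℝ) * nd (q * α - γ) * nd (q * β - t) < f s := by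
      refine lt_of_le_of_lt ?_ (h3 σ hσ)
      rw [hqx] at h7 ⊢
      have : 0 ≤ (x s σ : ℝ) * nd (x s σ * α - γ) := mul_nonneg hx0.le (nd_nonneg _)
      exact mul_le_mul_of_nonneg_left h7.le this
    have h9 : Nat.log 2 q ≤ 2 * (M ^ 2 + 3 * (lam * M) * (s + 1)) := by
      have h10 : q < 2 ^ (2 * (M ^ 2 + 3 * (lam * M) * (s + 1))) := by
        have h11 : (q : ℝ) < ((2 ^ (2 * (M ^ 2 + 3 * (lam * M) * (s + 1))) : ℕ) : ℝ) := by
          rw [hqx]
          refine lt_of_lt_of_le (h1 σ hσ).2 (le_of_eq ?_)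
          have e1 : lev s + 3 * (lam * M) = M ^ 2 + 3 * (lam * M) * (s + 1) := by
            simp only [hlev]; ring
          rw [e1]
          push_cast
          rw [pow_mul]
          norm_num
        exact_mod_cast h11
      exact (Nat.log_lt_of_lt_pow (by
        have : 0 < 4 ^ (M ^ 2) := by positivity
        omega) h10).le
    have h10 : f s ≤ ψ (Nat.log 2 q) := hψanti h9
    linarith
  calc volume (Ico (z : ℝ) (z + 1) ∩ {β | ∃ t : ℝ, ∀ q : ℕ, 4 ^ (M ^ 2) ≤ q →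
        ψ (Nat.log 2 q) ≤ q * nd (q * α - γ) * nd (q * β - t)})
      ≤ volume (⋃ i ∈ Finset.range T,
        (Ico (z : ℝ) (z + 1) ∩ {β | ∀ s < n, β ∈ N ((i : ℝ) / T) s})) := measure_mono hsub
    _ ≤ ∑ i ∈ Finset.range T,
        volume (Ico (z : ℝ) (z + 1) ∩ {β | ∀ s < n, β ∈ N ((i : ℝ) / T) s}) :=
        measure_biUnion_finset_le _ _
    _ ≤ ∑ i ∈ Finset.range T, ENNReal.ofReal (Real.exp (-((M : ℝ) ^ 2 / 10066329600 *
        ∑ s ∈ (Finset.range n).filter (fun s => 1 / (4 : ℝ) ^ M ≤ f s), f s))) := by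
        apply Finset.sum_le_sum
        intro i _
        exact (chain_prod hlevmono (hdet _) (hvol _) z).trans hprod
    _ = _ := by
        rw [Finset.sum_const, Finset.card_range, nsmul_eq_mul, ← hTR,
          ENNReal.ofReal_mul hTpos.le, ENNReal.ofReal_natCast]

end Pool.Agent.V7H27.SH
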