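import Mathlib
import Pool.Agent.V7H27.SH.Level

/-! The theorem for numbers which are not approximable too well. -/

namespace Pool.Agent.V7H27.SH

open Real MeasureTheory Set Filter
open Pool.Agent.V7H27.LC

lemma blocks_sum {ψ : ℕ → ℝ} (hψ : Antitone ψ) (b d m : ℕ) :
    ∑ i ∈ Finset.Ico b (b + d * m), ψ i ≤ d * ∑ s ∈ Finset.range m, ψ (b + d * s) := by
  induction m with
  | zero => simp
  | succ m ih =>
    have h1 : b + d * m ≤ b + d * (m + 1) := by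
      have : d * (m + 1) = d * m + d := by ring
      omega
    have e0 : (d : ℝ) * (∑ s ∈ Finset.range m, ψ (b + d * s) + ψ (b + d * m))
        = d * ∑ s ∈ Finset.range m, ψ (b + d * s) + d * ψ (b + d * m) := by ring
    rw [← Finset.sum_Ico_consecutive _ (Nat.le_add_right b (d * m)) h1, Finset.sum_range_succ,
      e0]
    refine add_le_add ih ?_
    calc ∑ i ∈ Finset.Ico (b + d * m) (b + d * (m + 1)), ψ i
        ≤ ∑ i ∈ Finset.Ico (b + d * m) (b + d * (m + 1)), ψ (b + d * m) := by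
          apply Finset.sum_le_sum
          intro i hi
          exact hψ (Finset.mem_Ico.1 hi).1
      _ = d * ψ (b + d * m) := by
          rw [Finset.sum_const, Nat.card_Ico, nsmul_eq_mul]
          congr 2
          have : d * (m + 1) = d * m + d := by ring
          omega

/-- The exponent is large enough. -/
lemma exponent {ψ : ℕ → ℝ} {a M n lam : ℕ} (hlam : 1 ≤ lam) (hM : 6 ≤ M)
    (hn : Nat.log 2 n + 1 = M)
    (hψanti : Antitone ψ) (hψ0 : ∀ i, 0 ≤ ψ i) (hψ1 : ∀ i : ℕ, i * ψ i ≤ 1)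
    (hC : 4 + 18 * (lam : ℝ) + 6 * lam * (4 * a + 21) * 10066329600
      ≤ ∑ i ∈ Finset.Ico ((Nat.log 2 n) ^ 2) n, ψ i) :
    (4 : ℝ) ^ ((2 * a + 10) * M) * Real.exp (-((M : ℝ) ^ 2 / 10066329600 *
        ∑ s ∈ (Finset.range n).filter
          (fun s => 1 / (4 : ℝ) ^ M ≤ ψ (2 * (M ^ 2 + 3 * (lam * M) * (s + 1)))),
          ψ (2 * (M ^ 2 + 3 * (lam * M) * (s + 1))))) ≤ Real.exp (-(M : ℝ)) := by
  have hMR : (6 : ℝ) ≤ M := by exact_mod_cast hM
  have hlamR : (1 : ℝ) ≤ lam := by exact_mod_cast hlam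
  set f : ℕ → ℝ := fun s => ψ (2 * (M ^ 2 + 3 * (lam * M) * (s + 1))) with hf
  set b : ℕ := 2 * (M ^ 2 + 3 * (lam * M)) with hb
  set d : ℕ := 6 * (lam * M) with hd
  set m0 : ℕ := Nat.log 2 n with hm0
  have hn0 : n ≠ 0 := by
    rintro rfl
    simp at hm0
    omega
  have hn2 : n < 2 ^ M := by
    rw [← hn]; exact Nat.lt_pow_succ_log_self (by norm_num) n
  -- the sum of all f
  have h1 : ∑ i ∈ Finset.Ico b n, ψ i ≤ d * ∑ s ∈ Finset.range n, f s := by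
    have h2 := blocks_sum hψanti b d n
    have h3 : ∀ s, ψ (b + d * s) = f s := by
      intro s
      simp only [hf, hb, hd]
      congr 1
      ring
    simp only [h3] at h2
    refine le_trans ?_ h2
    apply Finset.sum_le_sum_of_subset_of_nonneg
    · apply Finset.Ico_subset_Ico_right
      have : 1 ≤ d := by
        rw [hd]
        have : 1 ≤ lam * M := Nat.one_le_iff_ne_zero.2 (by positivity)
        omega
      have : n ≤ d * n := Nat.le_mul_of_pos_left n (by omega)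
      omega
    · intro i _ _
      exact hψ0 i
  have h2 : ∑ i ∈ Finset.Ico (m0 ^ 2) b, ψ i ≤ 4 * (1 + 3 * lam) := by
    have hm0pos : 5 ≤ m0 := by omega
    have hm0R : (5 : ℝ) ≤ m0 := by exact_mod_cast hm0pos
    have e1 : ψ (m0 ^ 2) ≤ 1 / (m0 : ℝ) ^ 2 := by
      have := hψ1 (m0 ^ 2)
      rw [le_div_iff₀ (by positivity)]
      push_cast at this
      linarith
    calc ∑ i ∈ Finset.Ico (m0 ^ 2) b, ψ i ≤ ∑ i ∈ Finset.Ico (m0 ^ 2) b, 1 / (m0 : ℝ) ^ 2 := by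
          apply Finset.sum_le_sum
          intro i hi
          exact (hψanti (Finset.mem_Ico.1 hi).1).trans e1
      _ = ((b - m0 ^ 2 : ℕ) : ℝ) * (1 / (m0 : ℝ) ^ 2) := by
          rw [Finset.sum_const, Nat.card_Ico, nsmul_eq_mul]
      _ ≤ (b : ℝ) * (1 / (m0 : ℝ) ^ 2) := by
          gcongr
          exact Nat.sub_le _ _
      _ ≤ 4 * (1 + 3 * lam) := by
          rw [mul_one_div, div_le_iff₀ (by positivity)]
          have e2 : (M : ℝ) = m0 + 1 := by rw [← hn]; push_cast; rfl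
          have e3 : (b : ℝ) = 2 * ((M : ℝ) ^ 2 + 3 * (lam * M)) := by rw [hb]; push_cast; ring
          rw [e3]
          have e4 : (M : ℝ) ≤ (M : ℝ) ^ 2 := by nlinarith
          have e5 : (M : ℝ) ^ 2 ≤ 2 * (m0 : ℝ) ^ 2 := by rw [e2]; nlinarith
          have e6 : (lam : ℝ) * M ≤ lam * (2 * (m0 : ℝ) ^ 2) := by
            apply mul_le_mul_of_nonneg_left (e4.trans e5) (by linarith)
          nlinarith
  have h3 : ∑ i ∈ Finset.Ico (m0 ^ 2) n, ψ i
      ≤ ∑ i ∈ Finset.Ico (m0 ^ 2) b, ψ i + ∑ i ∈ Finset.Ico b n, ψ i := by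
    have hsub : Finset.Ico (m0 ^ 2) n ⊆ Finset.Ico (m0 ^ 2) b ∪ Finset.Ico b n := by
      intro i hi
      rw [Finset.mem_Ico] at hi
      rw [Finset.mem_union, Finset.mem_Ico, Finset.mem_Ico]
      by_cases h : i < b
      · left; exact ⟨hi.1, h⟩
      · right; exact ⟨not_lt.1 h, hi.2⟩
    refine (Finset.sum_le_sum_of_subset_of_nonneg hsub (fun i _ _ => hψ0 i)).trans ?_
    have := Finset.sum_union_inter (s₁ := Finset.Ico (m0 ^ 2) b) (s₂ := Finset.Ico b n) (f := ψ)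
    have h4 : 0 ≤ ∑ i ∈ Finset.Ico (m0 ^ 2) b ∩ Finset.Ico b n, ψ i :=
      Finset.sum_nonneg (fun i _ => hψ0 i)
    linarith
  -- good and bad blocks
  set G := (Finset.range n).filter (fun s => 1 / (4 : ℝ) ^ M ≤ f s) with hG
  set Bd := (Finset.range n).filter (fun s => ¬ 1 / (4 : ℝ) ^ M ≤ f s) with hBd
  have h4 : ∑ s ∈ Finset.range n, f s = ∑ s ∈ G, f s + ∑ s ∈ Bd, f s :=
    (Finset.sum_filter_add_sum_filter_not _ _ _).symm
  have h5 : (d : ℝ) * ∑ s ∈ Bd, f s ≤ 6 * lam := by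
    have e1 : ∑ s ∈ Bd, f s ≤ n * (1 / (4 : ℝ) ^ M) := by
      calc ∑ s ∈ Bd, f s ≤ ∑ s ∈ Bd, 1 / (4 : ℝ) ^ M := by
            apply Finset.sum_le_sum
            intro s hs
            exact (not_le.1 (Finset.mem_filter.1 hs).2).le
        _ = (Bd.card : ℝ) * (1 / (4 : ℝ) ^ M) := by rw [Finset.sum_const, nsmul_eq_mul]
        _ ≤ n * (1 / (4 : ℝ) ^ M) := by
            gcongr
            exact (Finset.card_filter_le _ _).trans (by simp)
    have e2 : (n : ℝ) ≤ 2 ^ M := by exact_mod_cast hn2.le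
    have e3 : (M : ℝ) ≤ 2 ^ M := by exact_mod_cast Nat.lt_two_pow_self.le
    have e4 : (4 : ℝ) ^ M = 2 ^ M * 2 ^ M := by rw [← mul_pow]; norm_num
    have e5 : (d : ℝ) = 6 * (lam * M) := by rw [hd]; push_cast; ring
    calc (d : ℝ) * ∑ s ∈ Bd, f s ≤ d * (n * (1 / (4 : ℝ) ^ M)) := by gcongr
      _ ≤ (6 * (lam * 2 ^ M)) * (2 ^ M * (1 / (4 : ℝ) ^ M)) := by rw [e5]; gcongr
      _ = 6 * lam := by
        rw [e4]
        field_simp
  have h6 : 6 * (lam : ℝ) * (4 * a + 21) * 10066329600 ≤ d * ∑ s ∈ G, f s := by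
    rw [h4, mul_add] at h1
    linarith
  have h7 : (4 * a + 21) * 10066329600 ≤ (M : ℝ) * ∑ s ∈ G, f s := by
    have e5 : (d : ℝ) = 6 * lam * M := by rw [hd]; push_cast; ring
    rw [e5] at h6
    have e6 : (6 * (lam : ℝ)) * ((4 * a + 21) * 10066329600) ≤ (6 * lam) * (M * ∑ s ∈ G, f s) := by
      calc (6 * (lam : ℝ)) * ((4 * a + 21) * 10066329600)
          = 6 * (lam : ℝ) * (4 * a + 21) * 10066329600 := by ring
        _ ≤ 6 * lam * M * ∑ s ∈ G, f s := h6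
        _ = (6 * lam) * (M * ∑ s ∈ G, f s) := by ring
    exact le_of_mul_le_mul_left e6 (by positivity)
  have h8 : (4 * (a : ℝ) + 21) * M ≤ (M : ℝ) ^ 2 / 10066329600 * ∑ s ∈ G, f s := by
    have : (M : ℝ) ^ 2 / 10066329600 * ∑ s ∈ G, f s
        = (M : ℝ) * (M * ∑ s ∈ G, f s) / 10066329600 := by ring
    rw [this, le_div_iff₀ (by norm_num)]
    nlinarith
  have h9 : (4 : ℝ) ^ ((2 * a + 10) * M) ≤ Real.exp ((4 * a + 20) * M) := by
    have e1 : (4 : ℝ) ≤ Real.exp 2 := by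
      have := Real.add_one_le_exp (1 : ℝ)
      have e2 : Real.exp 2 = Real.exp 1 * Real.exp 1 := by rw [← Real.exp_add]; norm_num
      rw [e2]
      nlinarith
    calc (4 : ℝ) ^ ((2 * a + 10) * M) ≤ (Real.exp 2) ^ ((2 * a + 10) * M) := by gcongr
      _ = Real.exp ((4 * a + 20) * M) := by
        rw [← Real.exp_nat_mul]
        congr 1
        push_cast
        ring
  calc (4 : ℝ) ^ ((2 * a + 10) * M) * Real.exp (-((M : ℝ) ^ 2 / 10066329600 * ∑ s ∈ G, f s))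
      ≤ Real.exp ((4 * a + 20) * M) * Real.exp (-((4 * (a : ℝ) + 21) * M)) := by
        gcongr
    _ = Real.exp (-(M : ℝ)) := by
        rw [← Real.exp_add]
        congr 1
        ring

lemma big (lam : ℕ) : ∀ᶠ M : ℕ in atTop, ∀ n : ℕ, n < 2 ^ M → M ^ 2 + 3 * (lam * M) * n ≤ 4 ^ M := by
  have h1 : Tendsto (fun M : ℕ => (M : ℝ) ^ 2 / (2 : ℝ) ^ M) atTop (nhds 0) :=
    tendsto_pow_const_div_const_pow_of_one_lt 2 (by norm_num)
  have h2 : (0 : ℝ) < 1 / (1 + 3 * lam) := by positivity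
  filter_upwards [h1.eventually (gt_mem_nhds h2), eventually_ge_atTop 1] with M hM hM1
  intro n hn
  rw [div_lt_div_iff₀ (by positivity) (by positivity), one_mul] at hM
  have hM1R : (1 : ℝ) ≤ M := by exact_mod_cast hM1
  have hnR : (n : ℝ) ≤ 2 ^ M := by exact_mod_cast hn.le
  have h3 : (1 : ℝ) ≤ 2 ^ M := one_le_pow₀ (by norm_num)
  have h4 : (4 : ℝ) ^ M = 2 ^ M * 2 ^ M := by rw [← mul_pow]; norm_num
  have h5 : (M : ℝ) ≤ (M : ℝ) ^ 2 := by nlinarith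
  have h6 : (M : ℝ) ^ 2 + 3 * (lam * M) * n ≤ 4 ^ M := by
    calc (M : ℝ) ^ 2 + 3 * (lam * M) * n ≤ (M : ℝ) ^ 2 * 2 ^ M + 3 * (lam * (M : ℝ) ^ 2) * 2 ^ M := by
          have e1 : (M : ℝ) ^ 2 ≤ (M : ℝ) ^ 2 * 2 ^ M := le_mul_of_one_le_right (by positivity) h3
          have e2 : 3 * (lam * (M : ℝ)) * n ≤ 3 * (lam * (M : ℝ) ^ 2) * 2 ^ M := by gcongr
          linarith
      _ = (M : ℝ) ^ 2 * (1 + 3 * lam) * 2 ^ M := by ring
      _ ≤ 2 ^ M * 2 ^ M := by gcongr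
      _ = 4 ^ M := h4.symm
  exact_mod_cast h6

theorem nice {α γ : ℝ} {ψ : ℕ → ℝ} {a : ℕ} (hψanti : Antitone ψ) (hψ0 : ∀ i, 0 ≤ ψ i)
    (hψ1 : ∀ i : ℕ, i * ψ i ≤ 1)
    (hdiv : ∀ C : ℝ, ∃ᶠ n : ℕ in atTop, C ≤ ∑ i ∈ Finset.Ico ((Nat.log 2 n) ^ 2) n, ψ i)
    (hα : ∀ᶠ M : ℕ in atTop, ∀ q : ℕ, 1 ≤ q → q ≤ 4 ^ (4 ^ M) →
      1 / (4 : ℝ) ^ (a * M) ≤ q * nd (q * α)) :
    ∀ᵐ β : ℝ, ∀ t : ℝ, ∃ᶠ q : ℕ in atTop,
      q * nd (q * α - γ) * nd (q * β - t) < ψ (Nat.log 2 q) := by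
  set lam : ℕ := 12 * a + 57 with hlam
  have hγ : ∀ᶠ M : ℕ in atTop, |γ| ≤ (4 : ℝ) ^ M :=
    (tendsto_pow_atTop_atTop_of_one_lt (by norm_num : (1 : ℝ) < 4)).eventually_ge_atTop _
  obtain ⟨M0, hM0⟩ := eventually_atTop.1
    ((hα.and (hγ.and (big lam))).and (eventually_ge_atTop 6))
  have hseq : ∀ j : ℕ, ∃ n : ℕ, 2 ^ (max j M0) ≤ n ∧
      4 + 18 * (lam : ℝ) + 6 * lam * (4 * a + 21) * 10066329600
        ≤ ∑ i ∈ Finset.Ico ((Nat.log 2 n) ^ 2) n, ψ i := by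
    intro j
    obtain ⟨n, hn1, hn2⟩ := (frequently_atTop.1 (hdiv _)) (2 ^ (max j M0))
    exact ⟨n, hn1, hn2⟩
  choose n hn1 hn2 using hseq
  set M : ℕ → ℕ := fun j => Nat.log 2 (n j) + 1 with hMdef
  have hMj : ∀ j, max j M0 < M j := by
    intro j
    have : max j M0 ≤ Nat.log 2 (n j) := by
      have h1 := hn1 j
      have h2 : Nat.log 2 (2 ^ max j M0) ≤ Nat.log 2 (n j) := Nat.log_mono_right h1
      rwa [Nat.log_pow (by norm_num)] at h2
    simp only [hMdef]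
    omega
  set Bad : ℕ → Set ℝ := fun j => {β | ∃ t : ℝ, ∀ q : ℕ, 4 ^ ((M j) ^ 2) ≤ q →
        ψ (Nat.log 2 q) ≤ q * nd (q * α - γ) * nd (q * β - t)} with hBad
  have hvol : ∀ (z : ℤ) (j : ℕ), volume (Ico (z : ℝ) (z + 1) ∩ Bad j)
      ≤ ENNReal.ofReal (Real.exp (-(j : ℝ))) := by
    intro z j
    have h0 := hMj j
    obtain ⟨⟨hα', hγ', hbig'⟩, hM6⟩ := hM0 (M j) (by omega)
    have h1 := level (α := α) (γ := γ) (a := a) (M := M j) (n := n j) (ψ := ψ) hM6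
      (hbig' (n j) (by
        simp only [hMdef]; exact Nat.lt_pow_succ_log_self (by norm_num) _)) hγ' hψanti hψ0 hψ1
      hα' z
    refine h1.trans (ENNReal.ofReal_le_ofReal ?_)
    refine (exponent (a := a) (M := M j) (n := n j) (lam := lam) (by omega) hM6 rfl hψanti hψ0 hψ1
      (hn2 j)).trans ?_
    apply Real.exp_le_exp.2
    have : (j : ℝ) ≤ M j := by exact_mod_cast (by omega : j ≤ M j)
    linarith
  have hsum : Summable (fun j : ℕ => Real.exp (-(j : ℝ))) := by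
    have h1 : (fun j : ℕ => Real.exp (-(j : ℝ))) = fun j : ℕ => (Real.exp (-1)) ^ j := by
      funext j
      rw [← Real.exp_nat_mul]
      congr 1
      ring
    rw [h1]
    exact summable_geometric_of_lt_one (Real.exp_pos _).le (by
      rw [Real.exp_lt_one_iff]
      norm_num)
  have hae : ∀ z : ℤ, ∀ᵐ β : ℝ, ∀ᶠ j in atTop, β ∉ Ico (z : ℝ) (z + 1) ∩ Bad j := by
    intro z
    apply ae_eventually_notMem
    refine ne_top_of_le_ne_top ?_ (ENNReal.tsum_le_tsum (hvol z))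
    exact hsum.tsum_ofReal_ne_top
  rw [← ae_all_iff] at hae
  filter_upwards [hae] with β hβ
  intro t
  have h1 := hβ ⌊β⌋
  have h2 : β ∈ Ico ((⌊β⌋ : ℤ) : ℝ) (⌊β⌋ + 1) := ⟨Int.floor_le _, Int.lt_floor_add_one _⟩
  rw [frequently_atTop]
  intro q0
  obtain ⟨j, hj1, hj2⟩ := (h1.and (eventually_ge_atTop q0)).exists
  have h3 : β ∉ Bad j := fun h => hj1 ⟨h2, h⟩
  simp only [hBad, Set.mem_ofPred_eq, not_exists, not_forall, not_le] at h3
  obtain ⟨q, hq1, hq2⟩ := h3 t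
  refine ⟨q, ?_, hq2⟩
  have h4 := hMj j
  have h5 : M j ≤ (M j) ^ 2 := Nat.le_self_pow (by norm_num) _
  have h6 : (M j) ^ 2 < 4 ^ ((M j) ^ 2) := Nat.lt_pow_self (by norm_num)
  omega

end Pool.Agent.V7H27.SH
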