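import Mathlib
import Pool.Agent.V7H27.SH.Main

/-! The explicit rate. -/

namespace Pool.Agent.V7H27.SH

open Real MeasureTheory Set Filter
open Pool.Agent.V7H27.LC

lemma polylog {α : ℝ} {A : ℕ}
    (h : ∀ᶠ q : ℕ in atTop, 1 ≤ (q : ℝ) * Real.log q ^ A * nd (q * α)) :
    ∃ a : ℕ, ∀ᶠ M : ℕ in atTop, ∀ q : ℕ, 1 ≤ q → q ≤ 4 ^ (4 ^ M) →
      1 / (4 : ℝ) ^ (a * M) ≤ q * nd (q * α) := by
  obtain ⟨Q0, hQ0⟩ := eventually_atTop.1 h
  set Q1 : ℕ := max Q0 3 with hQ1
  have hpos : ∀ q : ℕ, 1 ≤ q → 0 < nd (q * α) := by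
    intro q hq
    by_contra hcon
    have h0 : nd (q * α) = 0 := le_antisymm (not_lt.1 hcon) (nd_nonneg _)
    have h1 : (q : ℝ) * α = round ((q : ℝ) * α) := by
      unfold nd at h0
      linarith [abs_eq_zero.1 h0]
    have h2 : nd (((Q1 * q : ℕ) : ℝ) * α) = 0 := by
      apply le_antisymm _ (nd_nonneg _)
      refine (nd_le _ ((Q1 : ℤ) * round ((q : ℝ) * α))).trans (le_of_eq ?_)
      push_cast
      rw [mul_assoc, ← mul_sub, ← h1, sub_self, mul_zero, abs_zero]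
    have h3 := hQ0 (Q1 * q) (by
      have : Q1 ≤ Q1 * q := Nat.le_mul_of_pos_right _ (by omega)
      omega)
    rw [h2, mul_zero] at h3
    linarith
  obtain ⟨q1, hq1, hmin⟩ := Finset.exists_min_image (Finset.Icc 1 Q1)
    (fun q : ℕ => (q : ℝ) * nd (q * α)) ⟨1, Finset.mem_Icc.2 ⟨le_rfl, by omega⟩⟩
  set κ : ℝ := (q1 : ℝ) * nd (q1 * α) with hκ
  have hκ0 : 0 < κ := by
    have h1 := (Finset.mem_Icc.1 hq1).1
    have h2 := hpos q1 h1
    have h3 : (1 : ℝ) ≤ q1 := by exact_mod_cast h1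
    positivity
  refine ⟨2 * A + 1, ?_⟩
  have ht : Tendsto (fun M : ℕ => (1 / 4 : ℝ) ^ M) atTop (nhds 0) :=
    tendsto_pow_atTop_nhds_zero_of_lt_one (by norm_num) (by norm_num)
  filter_upwards [ht.eventually (gt_mem_nhds hκ0), eventually_ge_atTop 1] with M hM hM1
  intro q hqa hqb
  have h41 : (1 : ℝ) ≤ 4 ^ M := one_le_pow₀ (by norm_num)
  by_cases hqQ : q ≤ Q1
  · refine le_trans ?_ (hmin q (Finset.mem_Icc.2 ⟨hqa, hqQ⟩))
    refine le_trans ?_ hM.le
    rw [one_div_pow]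
    apply one_div_le_one_div_of_le (by positivity)
    exact pow_le_pow_right₀ (by norm_num) (Nat.le_mul_of_pos_left _ (by omega))
  · have h1 := hQ0 q (by omega)
    have hq3 : 3 < q := by omega
    have hqR : (3 : ℝ) < q := by exact_mod_cast hq3
    have hlog0 : 0 < Real.log q := Real.log_pos (by linarith)
    have hlog : Real.log q ≤ (4 : ℝ) ^ (2 * M) := by
      have h2 : Real.log q ≤ Real.log ((4 : ℝ) ^ (4 ^ M)) := by
        apply Real.log_le_log (by linarith)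
        exact_mod_cast hqb
      refine h2.trans ?_
      rw [Real.log_pow]
      have h3 : Real.log 4 ≤ 4 := (Real.log_le_sub_one_of_pos (by norm_num)).trans (by norm_num)
      have h4 : (4 : ℝ) ≤ 4 ^ M := by
        calc (4 : ℝ) = 4 ^ 1 := by norm_num
          _ ≤ 4 ^ M := pow_le_pow_right₀ (by norm_num) hM1
      push_cast
      calc (4 : ℝ) ^ M * Real.log 4 ≤ 4 ^ M * 4 ^ M := by gcongr; linarith
        _ = 4 ^ (2 * M) := by rw [two_mul, pow_add]
    have h2 : Real.log q ^ A ≤ (4 : ℝ) ^ ((2 * A + 1) * M) := by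
      calc Real.log q ^ A ≤ ((4 : ℝ) ^ (2 * M)) ^ A := by gcongr
        _ = (4 : ℝ) ^ (2 * M * A) := by rw [← pow_mul]
        _ ≤ _ := pow_le_pow_right₀ (by norm_num) (by nlinarith)
    have h3 : 0 ≤ (q : ℝ) * nd (q * α) := mul_nonneg (by linarith) (nd_nonneg _)
    rw [div_le_iff₀ (by positivity)]
    calc (1 : ℝ) ≤ (q : ℝ) * Real.log q ^ A * nd (q * α) := h1
      _ = (q : ℝ) * nd (q * α) * Real.log q ^ A := by ring
      _ ≤ (q : ℝ) * nd (q * α) * (4 : ℝ) ^ ((2 * A + 1) * M) := by gcongr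

/-- The function `1 / (x log x log log x)`, made constant below `16`. -/
noncomputable def psi0 (i : ℕ) : ℝ :=
  1 / ((max i 16 : ℕ) * Real.log (max i 16 : ℕ) * Real.log (Real.log (max i 16 : ℕ)))

lemma log_big {x : ℝ} (hx : 16 ≤ x) : Real.exp 1 ≤ Real.log x ∧ 1 ≤ Real.log (Real.log x) := by
  have h1 : Real.exp 1 ≤ Real.log x := by
    have h2 : Real.log 16 ≤ Real.log x := Real.log_le_log (by norm_num) hx
    have h3 : Real.log 16 = 4 * Real.log 2 := by
      rw [show (16 : ℝ) = 2 ^ 4 by norm_num, Real.log_pow]; norm_num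
    have h4 := Real.log_two_gt_d9
    have h5 := Real.exp_one_lt_d9
    linarith
  refine ⟨h1, ?_⟩
  have h2 := Real.log_le_log (Real.exp_pos 1) h1
  rwa [Real.log_exp] at h2

lemma log_pos_big {x : ℝ} (hx : 16 ≤ x) : 0 < x ∧ 1 < Real.log x ∧ 0 < Real.log (Real.log x) := by
  obtain ⟨h1, h2⟩ := log_big hx
  have h3 : (1 : ℝ) < Real.exp 1 := by
    have := Real.add_one_lt_exp (one_ne_zero : (1 : ℝ) ≠ 0)
    linarith
  exact ⟨by linarith, by linarith, by linarith⟩

lemma g_mono {x y : ℝ} (hx : 16 ≤ x) (hxy : x ≤ y) :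
    x * Real.log x * Real.log (Real.log x) ≤ y * Real.log y * Real.log (Real.log y) := by
  obtain ⟨h1, h2, h3⟩ := log_pos_big hx
  have e1 : Real.log x ≤ Real.log y := Real.log_le_log h1 hxy
  have e2 : Real.log (Real.log x) ≤ Real.log (Real.log y) := Real.log_le_log (by linarith) e1
  obtain ⟨k1, k2, k3⟩ := log_pos_big (hx.trans hxy)
  have k4 : 0 ≤ y * Real.log y := by positivity
  gcongr

lemma psi0_anti : Antitone psi0 := by
  intro i j hij
  unfold psi0
  have h1 : (16 : ℝ) ≤ ((max i 16 : ℕ) : ℝ) := by exact_mod_cast le_max_right i 16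
  obtain ⟨p1, p2, p3⟩ := log_pos_big h1
  have h2 : ((max i 16 : ℕ) : ℝ) ≤ ((max j 16 : ℕ) : ℝ) := by
    exact_mod_cast max_le_max hij le_rfl
  exact one_div_le_one_div_of_le (by positivity) (g_mono h1 h2)

lemma psi0_nonneg (i : ℕ) : 0 ≤ psi0 i := by
  unfold psi0
  have h1 : (16 : ℝ) ≤ ((max i 16 : ℕ) : ℝ) := by exact_mod_cast le_max_right i 16
  obtain ⟨p1, p2, p3⟩ := log_pos_big h1
  positivity

lemma psi0_le (i : ℕ) : i * psi0 i ≤ 1 := by
  unfold psi0
  have h1 : (16 : ℝ) ≤ ((max i 16 : ℕ) : ℝ) := by exact_mod_cast le_max_right i 16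
  have h0 : (i : ℝ) ≤ ((max i 16 : ℕ) : ℝ) := by exact_mod_cast le_max_left i 16
  obtain ⟨p1, p2, p3⟩ := log_pos_big h1
  obtain ⟨-, p4⟩ := log_big h1
  rw [mul_one_div, div_le_one (by positivity)]
  refine h0.trans ?_
  calc ((max i 16 : ℕ) : ℝ) = ((max i 16 : ℕ) : ℝ) * 1 * 1 := by ring
    _ ≤ _ := by gcongr

/-- `log log log`. -/
noncomputable def h3 (x : ℝ) : ℝ := Real.log (Real.log (Real.log x))

lemma h3_mono {x y : ℝ} (hx : 16 ≤ x) (hxy : x ≤ y) : h3 x ≤ h3 y := by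
  obtain ⟨h1, h2, h3⟩ := log_pos_big hx
  have e1 : Real.log x ≤ Real.log y := Real.log_le_log h1 hxy
  have e2 : Real.log (Real.log x) ≤ Real.log (Real.log y) := Real.log_le_log (by linarith) e1
  exact Real.log_le_log h3 e2

lemma log_sub_le {x y : ℝ} (hx : 0 < x) (hy : 0 < y) : Real.log y - Real.log x ≤ (y - x) / x := by
  rw [← Real.log_div hy.ne' hx.ne']
  refine (Real.log_le_sub_one_of_pos (by positivity)).trans (le_of_eq ?_)
  field_simp

lemma h3_step {i : ℕ} (hi : 16 ≤ i) : h3 ((i + 1 : ℕ) : ℝ) - h3 i ≤ psi0 i := by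
  have hiR : (16 : ℝ) ≤ i := by exact_mod_cast hi
  have hi' : (16 : ℝ) ≤ ((i + 1 : ℕ) : ℝ) := by push_cast; linarith
  obtain ⟨p1, p2, p3⟩ := log_pos_big hiR
  obtain ⟨q1, q2, q3⟩ := log_pos_big hi'
  unfold psi0 h3
  rw [max_eq_left hi]
  have e1 := log_sub_le p1 q1
  have e2 := log_sub_le (by linarith : 0 < Real.log i) (by linarith : 0 < Real.log ((i + 1 : ℕ) : ℝ))
  have e3 := log_sub_le p3 q3
  refine e3.trans ?_
  have f1 : (((i + 1 : ℕ) : ℝ) - i) / i = 1 / i := by push_cast; ring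
  rw [f1] at e1
  have hl : 0 < Real.log (i : ℝ) := by linarith
  calc (Real.log (Real.log ((i + 1 : ℕ) : ℝ)) - Real.log (Real.log i)) / Real.log (Real.log i)
      ≤ ((Real.log ((i + 1 : ℕ) : ℝ) - Real.log i) / Real.log i) / Real.log (Real.log i) := by gcongr
    _ ≤ ((1 / i) / Real.log i) / Real.log (Real.log i) := by gcongr
    _ = 1 / (i * Real.log i * Real.log (Real.log i)) := by rw [div_div, div_div, mul_assoc]

lemma psi0_sum {a n : ℕ} (ha : 16 ≤ a) (han : a ≤ n) :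
    h3 n - h3 a ≤ ∑ i ∈ Finset.Ico a n, psi0 i := by
  induction n, han using Nat.le_induction with
  | base => simp
  | succ n hn ih =>
    rw [Finset.sum_Ico_succ_top hn]
    have := h3_step (i := n) (by omega)
    linarith

lemma psi0_div (C : ℝ) :
    ∃ᶠ n : ℕ in atTop, C ≤ ∑ i ∈ Finset.Ico ((Nat.log 2 n) ^ 2) n, psi0 i := by
  apply Eventually.frequently
  have t1 : Tendsto (fun n : ℕ => Real.log (Real.log (Real.log (n : ℝ)))) atTop atTop :=
    Real.tendsto_log_atTop.comp (Real.tendsto_log_atTop.comp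
      (Real.tendsto_log_atTop.comp tendsto_natCast_atTop_atTop))
  have t2 : Tendsto (fun n : ℕ => Real.log (Real.log (n : ℝ))) atTop atTop :=
    Real.tendsto_log_atTop.comp (Real.tendsto_log_atTop.comp tendsto_natCast_atTop_atTop)
  filter_upwards [t1.eventually_ge_atTop (2 * C + 2 * Real.log 4), t2.eventually_ge_atTop (Real.log 4),
    eventually_ge_atTop (2 ^ 16)] with n hn1 hn2 hn3
  set m : ℕ := Nat.log 2 n with hm
  have hm16 : 16 ≤ m := by
    have : Nat.log 2 (2 ^ 16) ≤ Nat.log 2 n := Nat.log_mono_right hn3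
    rwa [Nat.log_pow (by norm_num)] at this
  have hn0 : n ≠ 0 := by omega
  have hnR : (16 : ℝ) ≤ n := by
    have : 16 ≤ n := by omega
    exact_mod_cast this
  obtain ⟨p1, p2, p3⟩ := log_pos_big hnR
  have hmsq : 16 ≤ m ^ 2 := by nlinarith
  have hmsqR : (16 : ℝ) ≤ ((m ^ 2 : ℕ) : ℝ) := by exact_mod_cast hmsq
  have hsum : h3 n - h3 ((m ^ 2 : ℕ) : ℝ) ≤ ∑ i ∈ Finset.Ico (m ^ 2) n, psi0 i := by
    rcases le_total (m ^ 2) n with h | h
    · exact psi0_sum hmsq h
    · rw [Finset.Ico_eq_empty (by omega), Finset.sum_empty]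
      have := h3_mono hnR (by exact_mod_cast h : (n : ℝ) ≤ ((m ^ 2 : ℕ) : ℝ))
      linarith
  refine le_trans ?_ hsum
  set y : ℝ := Real.log n with hy
  set w : ℝ := Real.log y with hw
  have hm2 : (m : ℝ) ≤ 2 * y := by
    have h1 : 2 ^ m ≤ n := Nat.pow_log_le_self 2 hn0
    have h2 : Real.log ((2 : ℝ) ^ m) ≤ Real.log n := by
      apply Real.log_le_log (by positivity)
      exact_mod_cast h1
    rw [Real.log_pow] at h2
    have h4 := Real.log_two_gt_d9
    have h5 : (0 : ℝ) ≤ m := Nat.cast_nonneg m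
    nlinarith
  have hm4 : ((m ^ 2 : ℕ) : ℝ) ≤ 4 * y ^ 2 := by
    push_cast
    have h5 : (0 : ℝ) ≤ m := Nat.cast_nonneg m
    nlinarith
  have h16y : (16 : ℝ) ≤ 4 * y ^ 2 := hmsqR.trans hm4
  have hw0 : 0 < w := p3
  have e1 : h3 ((m ^ 2 : ℕ) : ℝ) ≤ h3 (4 * y ^ 2) := h3_mono hmsqR hm4
  have e2 : Real.log (4 * y ^ 2) ≤ 3 * w := by
    rw [Real.log_mul (by norm_num) (by positivity), Real.log_pow]
    push_cast
    linarith
  have e3 : h3 (4 * y ^ 2) ≤ Real.log (4 * Real.sqrt w) := by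
    unfold h3
    obtain ⟨g1, g2, g3⟩ := log_pos_big h16y
    apply Real.log_le_log g3
    calc Real.log (Real.log (4 * y ^ 2)) ≤ Real.log (3 * w) := Real.log_le_log (by linarith) e2
      _ = 2 * Real.log (Real.sqrt (3 * w)) := by
        rw [Real.log_sqrt (by positivity)]; ring
      _ ≤ 2 * Real.sqrt (3 * w) := by
        have := Real.log_le_sub_one_of_pos (Real.sqrt_pos.2 (by positivity : 0 < 3 * w))
        linarith
      _ ≤ 4 * Real.sqrt w := by
        rw [Real.sqrt_mul (by norm_num)]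
        have h6 : Real.sqrt 3 ≤ 2 := by
          rw [Real.sqrt_le_left (by norm_num)]
          norm_num
        have h7 := Real.sqrt_nonneg w
        nlinarith
  have e4 : Real.log (4 * Real.sqrt w) = Real.log 4 + Real.log w / 2 := by
    rw [Real.log_mul (by norm_num) (Real.sqrt_pos.2 hw0).ne', Real.log_sqrt hw0.le]
  have e5 : h3 n = Real.log w := rfl
  rw [e5]
  have e6 : 2 * C + 2 * Real.log 4 ≤ Real.log w := hn1
  linarith

end Pool.Agent.V7H27.SH
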